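import Mathlib

set_option autoImplicit false
set_option maxHeartbeats 1000000

/-!
Roots of unity times powers of `q` among the roots of an integral polynomial, and cyclotomic
polynomials modulo `ℓ`.
-/

namespace Pool.Agent.T9h63.CU

open Polynomial

section cyclo

variable {l : ℕ} [hl : Fact l.Prime] {q : ℕ}

lemma scale_map (hq : (q : ZMod l) = 1) (R : ℤ[X]) (j : ℕ) :
    (scaleRoots R ((q : ℤ) ^ j)).map (Int.castRingHom (ZMod l)) = R.map (Int.castRingHom (ZMod l)) := by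
  ext i
  rw [coeff_map, coeff_map, coeff_scaleRoots, map_mul, map_pow, map_pow]
  have : (Int.castRingHom (ZMod l)) (q : ℤ) = 1 := by simp [hq]
  rw [this, one_pow, one_pow, mul_one]

/-- the cyclotomic polynomial of the part of the order which is prime to `ℓ` divides modulo `ℓ` -/
theorem cyc_dvd (hq : (q : ZMod l) = 1) {R : ℤ[X]} {z : ℂ}
    (hz : (R.map (Int.castRingHom ℂ)).eval z = 0) {N j : ℕ} (hN : 0 < N)
    (h : (z * (q : ℂ) ^ j) ^ N = 1) :
    ∃ n b : ℕ, 0 < n ∧ ¬ l ∣ n ∧ (z * (q : ℂ) ^ j) ^ (l ^ b * n) = 1 ∧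
      cyclotomic n (ZMod l) ∣ R.map (Int.castRingHom (ZMod l)) := by
  set w := z * (q : ℂ) ^ j with hw
  have hfin : IsOfFinOrder w := isOfFinOrder_iff_pow_eq_one.2 ⟨N, hN, h⟩
  have hM : 0 < orderOf w := hfin.orderOf_pos
  have hprim : IsPrimitiveRoot w (orderOf w) := IsPrimitiveRoot.orderOf w
  have h1 : aeval w (scaleRoots R ((q : ℤ) ^ j)) = 0 := by
    have h0 : eval₂ (Int.castRingHom ℂ) z R = 0 := by rwa [eval_map] at hz
    have h2 := scaleRoots_eval₂_eq_zero (s := (q : ℤ) ^ j) (Int.castRingHom ℂ) h0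
    have h3 : (Int.castRingHom ℂ) ((q : ℤ) ^ j) * z = w := by
      rw [hw, eq_intCast]
      push_cast
      ring
    rw [h3] at h2
    exact h2
  have h2 : cyclotomic (orderOf w) ℤ ∣ scaleRoots R ((q : ℤ) ^ j) := by
    rw [cyclotomic_eq_minpoly hprim hM]
    exact minpoly.isIntegrallyClosed_dvd (hprim.isIntegral hM) h1
  have h3 : cyclotomic (orderOf w) (ZMod l) ∣ R.map (Int.castRingHom (ZMod l)) := by
    have h4 := Polynomial.map_dvd (Int.castRingHom (ZMod l)) h2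
    rwa [map_cyclotomic, scale_map hq] at h4
  obtain ⟨b, n, hn, hbn⟩ := Nat.exists_eq_pow_mul_and_not_dvd hM.ne' l hl.out.ne_one
  refine ⟨n, b, ?_, hn, ?_, ?_⟩
  · rcases Nat.eq_zero_or_pos n with h0 | h0
    · rw [h0] at hn
      exact absurd (dvd_zero l) hn
    · exact h0
  · rw [← hbn]
    exact pow_orderOf_eq_one w
  · rcases Nat.eq_zero_or_pos b with hb | hb
    · rw [hb, pow_zero, one_mul] at hbn
      rwa [hbn] at h3
    · have h5 := cyclotomic_mul_prime_pow_eq (ZMod l) hn hb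
      rw [hbn, h5] at h3
      refine (dvd_pow_self _ ?_).trans h3
      have h6 : l ^ (b - 1) < l ^ b := Nat.pow_lt_pow_right hl.out.one_lt (by omega)
      omega

/-- the criterion -/
theorem no_cyc (hq : (q : ZMod l) = 1) {R L : ℤ[X]} {e : ℕ}
    (hRL : R.map (Int.castRingHom (ZMod l)) = L.map (Int.castRingHom (ZMod l)) ^ e)
    (hL : ∀ n : ℕ, 1 < n → ¬ l ∣ n → ¬ cyclotomic n (ZMod l) ∣ L.map (Int.castRingHom (ZMod l)))
    {z : ℂ} (hz : (R.map (Int.castRingHom ℂ)).eval z = 0) {N j : ℕ} (hN : 0 < N)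
    (h : (z * (q : ℂ) ^ j) ^ N = 1) : ∃ b : ℕ, (z * (q : ℂ) ^ j) ^ l ^ b = 1 := by
  obtain ⟨n, b, hn, hln, h1, h2⟩ := cyc_dvd hq hz hN h
  by_cases hn1 : n = 1
  · exact ⟨b, by rwa [hn1, mul_one] at h1⟩
  exfalso
  have hn2 : 1 < n := by omega
  haveI : NeZero (n : ZMod l) := ⟨fun h0 => hln ((ZMod.natCast_eq_zero_iff n l).1 h0)⟩
  have hsq : Squarefree (cyclotomic n (ZMod l)) := squarefree_cyclotomic n (ZMod l)
  rw [hRL] at h2
  rcases Nat.eq_zero_or_pos e with he | he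
  · rw [he, pow_zero] at h2
    have h3 := isUnit_of_dvd_one h2
    have h4 := natDegree_eq_zero_of_isUnit h3
    rw [natDegree_cyclotomic] at h4
    exact (Nat.totient_pos.2 hn).ne' h4
  · exact hL n hn2 hln ((hsq.dvd_pow_iff_dvd he.ne').1 h2)

end cyclo

end Pool.Agent.T9h63.CU
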