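import Pool.Agent.T9h63.CU.Lin

set_option autoImplicit false
set_option maxHeartbeats 1000000

/-!
Arcs through the points at infinity of a plane curve.
-/

namespace Pool.Agent.T9h63.CU

open MvPolynomial

section arc

variable {K : Type*} [Field K]

/-- the equation of the arc -/
noncomputable def GG (D : ℕ) (f : MvPolynomial (Fin 2) K) (P r : Fin 2 → K) :
    Polynomial (PowerSeries K) :=
  ∑ k ∈ Finset.range (D + 1), Polynomial.C ((PowerSeries.X : PowerSeries K) ^ (D - k)) *
    (ln P r (homogeneousComponent k f)).map (PowerSeries.C (R := K))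

lemma GG_natDegree (D : ℕ) (f : MvPolynomial (Fin 2) K) (P r : Fin 2 → K) :
    (GG D f P r).natDegree ≤ D := by
  unfold GG
  apply Polynomial.natDegree_sum_le_of_forall_le
  intro k hk
  apply (Polynomial.natDegree_C_mul_le _ _).trans
  apply (Polynomial.natDegree_map_le).trans
  have := (ln_homog P r (homogeneousComponent_isHomogeneous k f)).1
  have := Finset.mem_range.1 hk
  omega

lemma GG_coeff (D : ℕ) (f : MvPolynomial (Fin 2) K) (P r : Fin 2 → K) :
    (GG D f P r).coeff D = PowerSeries.C (eval r (homogeneousComponent D f)) := by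
  unfold GG
  rw [Polynomial.finset_sum_coeff, Finset.sum_eq_single D]
  · rw [Polynomial.coeff_C_mul, Nat.sub_self, pow_zero, one_mul, Polynomial.coeff_map,
      (ln_homog P r (homogeneousComponent_isHomogeneous D f)).2]
  · intro k hk hne
    rw [Polynomial.coeff_C_mul, Polynomial.coeff_map, Polynomial.coeff_eq_zero_of_natDegree_lt,
      map_zero, mul_zero]
    have := (ln_homog P r (homogeneousComponent_isHomogeneous k f)).1
    have := Finset.mem_range.1 hk
    omega
  · intro h
    exact absurd (Finset.mem_range.2 (Nat.lt_succ_self D)) h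

lemma cc_eval_sum (D : ℕ) (g : ℕ → Polynomial K) :
    PowerSeries.constantCoeff ((∑ k ∈ Finset.range (D + 1),
      Polynomial.C ((PowerSeries.X : PowerSeries K) ^ (D - k)) *
        (g k).map (PowerSeries.C (R := K))).eval 0) = (g D).eval 0 := by
  rw [Polynomial.eval_finset_sum, map_sum, Finset.sum_eq_single D]
  · rw [Polynomial.eval_mul, Polynomial.eval_C, Nat.sub_self, pow_zero, one_mul]
    have h1 := Polynomial.eval_map_apply (f := PowerSeries.C (R := K)) (p := g D) 0
    rw [map_zero] at h1
    rw [h1, PowerSeries.constantCoeff_C]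
  · intro k hk hne
    have h2 := Finset.mem_range.1 hk
    rw [Polynomial.eval_mul, Polynomial.eval_C, map_mul, map_pow, PowerSeries.constantCoeff_X,
      zero_pow (by omega), zero_mul]
  · intro h
    exact absurd (Finset.mem_range.2 (Nat.lt_succ_self D)) h

/-- **Hensel's lemma.** -/
lemma exists_arc {D : ℕ} {f : MvPolynomial (Fin 2) K} {P r : Fin 2 → K}
    (h0 : eval P (homogeneousComponent D f) = 0)
    (h1 : ∑ i, r i * eval P (pderiv i (homogeneousComponent D f)) ≠ 0)
    (h2 : eval r (homogeneousComponent D f) ≠ 0) :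
    ∃ Y : PowerSeries K, (GG D f P r).eval Y = 0 ∧ PowerSeries.constantCoeff Y = 0 := by
  set c := eval r (homogeneousComponent D f) with hc
  have hmon : (Polynomial.C (PowerSeries.C c⁻¹) * GG D f P r).Monic := by
    have h3 : (Polynomial.C (PowerSeries.C c⁻¹) * GG D f P r).natDegree ≤ D :=
      (Polynomial.natDegree_C_mul_le _ _).trans (GG_natDegree D f P r)
    apply Polynomial.monic_of_natDegree_le_of_coeff_eq_one D h3
    rw [Polynomial.coeff_C_mul, GG_coeff, ← map_mul, ← hc, inv_mul_cancel₀ h2, map_one]
  have hH : HenselianRing (PowerSeries K) (Ideal.span {PowerSeries.X}) := inferInstance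
  obtain ⟨Y, hY, hY0⟩ := hH.is_henselian _ hmon 0 (by
    rw [Polynomial.eval_mul, Polynomial.eval_C]
    apply Ideal.mul_mem_left
    rw [Ideal.mem_span_singleton, PowerSeries.X_dvd_iff]
    unfold GG
    rw [cc_eval_sum, ln_eval0, h0]) (by
    rw [Polynomial.derivative_C_mul, Polynomial.eval_mul, Polynomial.eval_C]
    apply IsUnit.map
    rw [PowerSeries.isUnit_iff_constantCoeff, map_mul, PowerSeries.constantCoeff_C]
    have h3 : Polynomial.derivative (GG D f P r) = ∑ k ∈ Finset.range (D + 1),
        Polynomial.C ((PowerSeries.X : PowerSeries K) ^ (D - k)) *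
          (Polynomial.derivative (ln P r (homogeneousComponent k f))).map
            (PowerSeries.C (R := K)) := by
      unfold GG
      rw [Polynomial.derivative_sum]
      apply Finset.sum_congr rfl
      intro k _
      rw [Polynomial.derivative_C_mul, Polynomial.derivative_map]
    rw [h3, cc_eval_sum, ln_deriv0]
    exact (mul_ne_zero (inv_ne_zero h2) h1).isUnit)
  refine ⟨Y, ?_, ?_⟩
  · rw [Polynomial.IsRoot, Polynomial.eval_mul, Polynomial.eval_C] at hY
    rcases mul_eq_zero.1 hY with h4 | h4
    · exfalso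
      have h5 := congrArg PowerSeries.constantCoeff h4
      rw [PowerSeries.constantCoeff_C, map_zero] at h5
      exact inv_ne_zero h2 h5
    · exact h4
  · rw [sub_zero, Ideal.mem_span_singleton, PowerSeries.X_dvd_iff] at hY0
    exact hY0

/-- the evaluation along the arc -/
noncomputable def evv (P r : Fin 2 → K) (Y : PowerSeries K) :
    MvPolynomial (Fin 2) K →ₐ[K] PowerSeries K :=
  aeval fun i => PowerSeries.C (P i) + Y * PowerSeries.C (r i)

lemma cc_evv (P r : Fin 2 → K) {Y : PowerSeries K} (hY : PowerSeries.constantCoeff Y = 0)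
    (p : MvPolynomial (Fin 2) K) : PowerSeries.constantCoeff (evv P r Y p) = eval P p := by
  induction p using MvPolynomial.induction_on with
  | C c =>
    rw [show evv P r Y (C c) = PowerSeries.C c from (evv P r Y).commutes c]
    simp
  | add p q hp hq => rw [map_add, map_add, hp, hq, map_add]
  | mul_X p j hp =>
    rw [map_mul, map_mul, hp, map_mul, eval_X]
    congr 1
    unfold evv
    rw [aeval_X, map_add, map_mul, hY]
    simp

lemma eval_GG (D : ℕ) (f : MvPolynomial (Fin 2) K) (P r : Fin 2 → K) (Y : PowerSeries K) :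
    (GG D f P r).eval Y = ∑ k ∈ Finset.range (D + 1), (PowerSeries.X : PowerSeries K) ^ (D - k) *
      evv P r Y (homogeneousComponent k f) := by
  unfold GG
  rw [Polynomial.eval_finset_sum]
  apply Finset.sum_congr rfl
  intro k _
  rw [Polynomial.eval_mul, Polynomial.eval_C]
  congr 1
  generalize homogeneousComponent k f = p
  induction p using MvPolynomial.induction_on with
  | C c =>
    rw [show evv P r Y (C c) = PowerSeries.C c from (evv P r Y).commutes c,
      show ln P r (C c) = Polynomial.C c from (ln P r).commutes c]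
    simp
  | add p q hp hq => rw [map_add, map_add, Polynomial.map_add, Polynomial.eval_add, hp, hq]
  | mul_X p j hp =>
    rw [map_mul, map_mul, Polynomial.map_mul, Polynomial.eval_mul, hp, ln_X]
    congr 1
    unfold evv
    rw [aeval_X, Polynomial.map_add, Polynomial.map_mul, Polynomial.map_C, Polynomial.map_C,
      Polynomial.map_X, Polynomial.eval_add, Polynomial.eval_mul, Polynomial.eval_C,
      Polynomial.eval_C, Polynomial.eval_X]

/-- the arc as a homomorphism to the Laurent series -/
noncomputable def chi (P r : Fin 2 → K) (Y : PowerSeries K) :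
    MvPolynomial (Fin 2) K →ₐ[K] LaurentSeries K :=
  aeval fun i => (HahnSeries.single (-1 : ℤ) (1 : K)) *
    HahnSeries.ofPowerSeries ℤ K (PowerSeries.C (P i) + Y * PowerSeries.C (r i))

lemma chi_homog (P r : Fin 2 → K) (Y : PowerSeries K) {p : MvPolynomial (Fin 2) K} {k : ℕ}
    (hp : p.IsHomogeneous k) :
    chi P r Y p = (HahnSeries.single (-1 : ℤ) (1 : K)) ^ k *
      HahnSeries.ofPowerSeries ℤ K (evv P r Y p) := by
  classical
  have h1 : chi P r Y p = ∑ e ∈ p.support, algebraMap K (LaurentSeries K) (coeff e p) *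
      ∏ i, ((HahnSeries.single (-1 : ℤ) (1 : K)) *
        HahnSeries.ofPowerSeries ℤ K (PowerSeries.C (P i) + Y * PowerSeries.C (r i))) ^ e i := by
    unfold chi
    rw [aeval_def, eval₂_eq']
  have h2 : evv P r Y p = ∑ e ∈ p.support, algebraMap K (PowerSeries K) (coeff e p) *
      ∏ i, (PowerSeries.C (P i) + Y * PowerSeries.C (r i)) ^ e i := by
    unfold evv
    rw [aeval_def, eval₂_eq']
  rw [h1, h2, map_sum, Finset.mul_sum]
  apply Finset.sum_congr rfl
  intro e he
  have hk : ∑ i, e i = k := by
    have h3 := hp (mem_support_iff.1 he)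
    rw [← h3, ← Finsupp.degree_eq_sum, Finsupp.degree_eq_weight_one (R := ℕ)]
    rfl
  rw [map_mul, map_prod]
  simp only [mul_pow, Finset.prod_mul_distrib, map_pow]
  rw [Finset.prod_pow_eq_pow_sum, hk]
  have h4 : HahnSeries.ofPowerSeries ℤ K (algebraMap K (PowerSeries K) (coeff e p))
      = algebraMap K (LaurentSeries K) (coeff e p) := rfl
  rw [h4]
  ring

lemma chi_eq (P r : Fin 2 → K) (Y : PowerSeries K) {p : MvPolynomial (Fin 2) K} {d : ℕ}
    (hd : p.totalDegree ≤ d) :
    chi P r Y p = (HahnSeries.single (-1 : ℤ) (1 : K)) ^ d * HahnSeries.ofPowerSeries ℤ K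
      (∑ k ∈ Finset.range (d + 1), (PowerSeries.X : PowerSeries K) ^ (d - k) *
        evv P r Y (homogeneousComponent k p)) := by
  have h1 : p = ∑ k ∈ Finset.range (d + 1), homogeneousComponent k p := by
    conv_lhs => rw [← sum_homogeneousComponent p]
    apply Finset.sum_subset
    · intro k hk
      rw [Finset.mem_range] at hk ⊢
      omega
    · intro k _ hk
      apply homogeneousComponent_eq_zero
      rw [Finset.mem_range] at hk
      omega
  conv_lhs => rw [h1]
  rw [map_sum, map_sum, Finset.mul_sum]
  apply Finset.sum_congr rfl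
  intro k hk
  have hk2 := Finset.mem_range.1 hk
  rw [chi_homog P r Y (homogeneousComponent_isHomogeneous k p), map_mul, map_pow, ← mul_assoc]
  congr 1
  rw [HahnSeries.ofPowerSeries_X, HahnSeries.single_pow, HahnSeries.single_pow,
    HahnSeries.single_pow, HahnSeries.single_mul_single]
  congr 1
  · simp only [nsmul_eq_mul]
    have : ((d - k : ℕ) : ℤ) = d - k := by push_cast [Nat.cast_sub (by omega : k ≤ d)]; ring
    rw [this]
    ring
  · simp

/-- the curve is in the kernel -/
lemma chi_f {D : ℕ} {f : MvPolynomial (Fin 2) K} {P r : Fin 2 → K} {Y : PowerSeries K}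
    (hD : f.totalDegree ≤ D) (hY : (GG D f P r).eval Y = 0) : chi P r Y f = 0 := by
  rw [chi_eq P r Y hD, ← eval_GG, hY, map_zero, mul_zero]

lemma order_unit {v : PowerSeries K} (hv : PowerSeries.constantCoeff v ≠ 0) :
    HahnSeries.ofPowerSeries ℤ K v ≠ 0 ∧ (HahnSeries.ofPowerSeries ℤ K v).order = 0 := by
  have hu : IsUnit v := PowerSeries.isUnit_iff_constantCoeff.2 hv.isUnit
  obtain ⟨u, hu⟩ := hu
  have h1 : HahnSeries.ofPowerSeries ℤ K v ≠ 0 := by
    intro h
    apply hv
    have : v = 0 := HahnSeries.ofPowerSeries_injective (by rw [h, map_zero])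
    rw [this, map_zero]
  refine ⟨h1, ?_⟩
  have h2 : (HahnSeries.ofPowerSeries ℤ K v).coeff 0 ≠ 0 := by
    have h3 := HahnSeries.ofPowerSeries_apply_coeff (Γ := ℤ) v 0
    rw [Nat.cast_zero] at h3
    rw [h3]
    simpa using hv
  apply le_antisymm
  · exact HahnSeries.order_le_of_coeff_ne_zero h2
  · by_contra hlt
    push Not at hlt
    have h3 := HahnSeries.coeff_order_eq_zero.not.2 h1
    apply h3
    apply HahnSeries.embDomain_notin_range
    simp only [Set.mem_range, not_exists]
    intro n hn
    have h4 : ((n : ℕ) : ℤ) = (HahnSeries.ofPowerSeries ℤ K v).order := hn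
    omega

/-- the order of a polynomial whose leading form does not vanish at `P` -/
lemma order_chi {P r : Fin 2 → K} {Y : PowerSeries K} (hY : PowerSeries.constantCoeff Y = 0)
    {p : MvPolynomial (Fin 2) K} {d : ℕ} (hd : p.totalDegree ≤ d)
    (hp : eval P (homogeneousComponent d p) ≠ 0) :
    chi P r Y p ≠ 0 ∧ (chi P r Y p).order = -(d : ℤ) := by
  have h1 : PowerSeries.constantCoeff (∑ k ∈ Finset.range (d + 1),
      (PowerSeries.X : PowerSeries K) ^ (d - k) * evv P r Y (homogeneousComponent k p)) ≠ 0 := by
    rw [map_sum, Finset.sum_eq_single d]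
    · rw [Nat.sub_self, pow_zero, one_mul, cc_evv P r hY]
      exact hp
    · intro k hk hne
      have h2 := Finset.mem_range.1 hk
      rw [map_mul, map_pow, PowerSeries.constantCoeff_X, zero_pow (by omega), zero_mul]
    · intro h
      exact absurd (Finset.mem_range.2 (Nat.lt_succ_self d)) h
  obtain ⟨h2, h3⟩ := order_unit h1
  have h4 : (HahnSeries.single (-1 : ℤ) (1 : K)) ^ d ≠ 0 := pow_ne_zero _ (by simp)
  rw [chi_eq P r Y hd]
  refine ⟨mul_ne_zero h4 h2, ?_⟩
  rw [HahnSeries.order_mul h4 h2, h3, HahnSeries.order_pow, HahnSeries.order_single one_ne_zero]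
  simp

end arc

end Pool.Agent.T9h63.CU
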