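import Mathlib

set_option autoImplicit false
set_option maxHeartbeats 1000000

/-!
The end of the descent: a family of relations which is stable under the descent step is trivial.
-/

namespace Pool.Agent.T9h63.CU

/-- the shift -/
def sh (m : ℕ) : Module.End ℤ (ZMod m → ℤ) where
  toFun x := fun j => x (j + 1)
  map_smul' _ _ := rfl
  map_add' _ _ := rfl

/-- the difference -/
def Df (m : ℕ) : Module.End ℤ (ZMod m → ℤ) := sh m + (-1)

lemma Df_apply (m : ℕ) (x : ZMod m → ℤ) (j : ZMod m) : Df m x j = x (j + 1) - x j := by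
  show x (j + 1) + -x j = _
  ring

lemma sh_pow (m : ℕ) (t : ℕ) (x : ZMod m → ℤ) (j : ZMod m) :
    (sh m ^ t) x j = x (j + (t : ZMod m)) := by
  induction t generalizing x j with
  | zero => simp
  | succ t ih =>
    rw [pow_succ]
    show (sh m ^ t) (sh m x) j = _
    rw [ih]
    show x (j + (t : ZMod m) + 1) = _
    congr 1
    push_cast
    ring

lemma Df_pow {l a m : ℕ} (hl : l.Prime) (hm : m = l ^ a) (x : ZMod m → ℤ) :
    ∃ y : ZMod m → ℤ, (Df m ^ m) x = (l : ℤ) • y := by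
  have hc : Commute (sh m) (-1) := Commute.neg_right (Commute.one_right _)
  obtain ⟨Q, hQ⟩ := hc.exists_add_pow_prime_pow_eq hl a
  rw [← hm] at hQ
  have h1 : sh m ^ m = 1 := by
    ext1 x
    ext j
    rw [sh_pow]
    simp
  rw [h1] at hQ
  have h2 : ∃ c : ℤ, (1 : ℤ) + (-1) ^ m = l * c := by
    rcases hl.eq_two_or_odd' with h2 | h2
    · rcases Nat.even_or_odd m with h3 | h3
      · exact ⟨1, by rw [h3.neg_one_pow, h2]; norm_num⟩
      · exact ⟨0, by rw [h3.neg_one_pow]; norm_num⟩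
    · have h3 : Odd m := by rw [hm]; exact h2.pow
      exact ⟨0, by rw [h3.neg_one_pow]; norm_num⟩
  obtain ⟨c, hc2⟩ := h2
  have h4 : Df m ^ m = (l : Module.End ℤ (ZMod m → ℤ)) * ((c : Module.End ℤ (ZMod m → ℤ))
      + sh m * (-1) * Q) := by
    rw [show Df m ^ m = (sh m + (-1)) ^ m from rfl, hQ, mul_add, ← mul_assoc, ← mul_assoc]
    congr 1
    have := congrArg (fun t : ℤ => (t : Module.End ℤ (ZMod m → ℤ))) hc2
    push_cast at this
    exact this
  refine ⟨((c : Module.End ℤ (ZMod m → ℤ)) + sh m * (-1) * Q) x, ?_⟩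
  rw [h4, Module.End.mul_apply]
  show ((l : ℕ) : Module.End ℤ (ZMod m → ℤ)) _ = _
  rw [Module.End.natCast_apply, natCast_zsmul]

lemma Df_pow_mul {l a m : ℕ} (hl : l.Prime) (hm : m = l ^ a) (k : ℕ) (x : ZMod m → ℤ) :
    ∃ y : ZMod m → ℤ, (Df m ^ (m * k)) x = ((l : ℤ) ^ k) • y := by
  induction k generalizing x with
  | zero => exact ⟨x, by simp⟩
  | succ k ih =>
    obtain ⟨y, hy⟩ := ih x
    obtain ⟨z, hz⟩ := Df_pow hl hm y
    refine ⟨z, ?_⟩
    rw [mul_add, mul_one, add_comm, pow_add, Module.End.mul_apply, hy, map_smul, hz, smul_smul,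
      pow_succ]

/-- **End of the descent.** -/
theorem closing {l a m : ℕ} [NeZero m] (hl : l.Prime) (hm : m = l ^ a) {r : ℕ}
    {P : (Fin r → ZMod m → ℕ) → Prop}
    (hstep : ∀ n, P n → ∃ (c : ℕ) (β : Fin r → ℕ) (n' : Fin r → ZMod m → ℕ), P n' ∧
      ∀ (i : Fin r) (j : ZMod m), β i + n' i (j + 1) = n' i j + n i j + (if j = 0 then c else 0))
    {n : Fin r → ZMod m → ℕ} (hn : P n) (i i' : Fin r) (j j' : ZMod m) :
    n i j + n i' j' = n i j' + n i' j := by
  have key : ∀ (k : ℕ) (n : Fin r → ZMod m → ℕ), P n → ∃ n' : Fin r → ZMod m → ℕ, P n' ∧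
      Df m (fun j => (n i j : ℤ) - n i' j)
        = (Df m ^ (k + 1)) (fun j => (n' i j : ℤ) - n' i' j) := by
    intro k
    induction k with
    | zero =>
      intro n hn
      exact ⟨n, hn, by rw [zero_add, pow_one]⟩
    | succ k ih =>
      intro n hn
      obtain ⟨c, β, n1, hn1, h1⟩ := hstep n hn
      obtain ⟨n2, hn2, h2⟩ := ih n1 hn1
      refine ⟨n2, hn2, ?_⟩
      rw [pow_succ', Module.End.mul_apply, ← h2]
      ext j
      rw [Df_apply, Df_apply, Df_apply, Df_apply]
      have e1 := h1 i j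
      have e2 := h1 i' j
      have e3 := h1 i (j + 1)
      have e4 := h1 i' (j + 1)
      have e1' : (β i : ℤ) + n1 i (j + 1) = n1 i j + n i j + ((if j = 0 then c else 0 : ℕ) : ℤ) := by
        exact_mod_cast e1
      have e2' : (β i' : ℤ) + n1 i' (j + 1) = n1 i' j + n i' j
          + ((if j = 0 then c else 0 : ℕ) : ℤ) := by exact_mod_cast e2
      have e3' : (β i : ℤ) + n1 i (j + 1 + 1) = n1 i (j + 1) + n i (j + 1)
          + ((if j + 1 = 0 then c else 0 : ℕ) : ℤ) := by exact_mod_cast e3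
      have e4' : (β i' : ℤ) + n1 i' (j + 1 + 1) = n1 i' (j + 1) + n i' (j + 1)
          + ((if j + 1 = 0 then c else 0 : ℕ) : ℤ) := by exact_mod_cast e4
      linarith
  have hzero : ∀ j : ZMod m, Df m (fun j => (n i j : ℤ) - n i' j) j = 0 := by
    intro j
    have hdiv : ∀ k : ℕ, (l : ℤ) ^ k ∣ Df m (fun j => (n i j : ℤ) - n i' j) j := by
      intro k
      obtain ⟨n', _, h1⟩ := key (m * k) n hn
      obtain ⟨y, hy⟩ := Df_pow_mul hl hm k (Df m (fun j => (n' i j : ℤ) - n' i' j))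
      rw [h1, pow_succ, Module.End.mul_apply, hy]
      exact ⟨y j, rfl⟩
    by_contra hne
    have h1 := Int.natAbs_dvd_natAbs.2 (hdiv (Df m (fun j => (n i j : ℤ) - n i' j) j).natAbs)
    rw [Int.natAbs_pow, Int.natAbs_natCast] at h1
    have h2 := Nat.le_of_dvd (Int.natAbs_pos.2 hne) h1
    have h3 := Nat.lt_pow_self hl.one_lt (n := (Df m (fun j => (n i j : ℤ) - n i' j) j).natAbs)
    omega
  have hconst : ∀ t : ℕ, (n i (t : ZMod m) : ℤ) - n i' (t : ZMod m)
      = (n i (0 : ZMod m) : ℤ) - n i' (0 : ZMod m) := by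
    intro t
    induction t with
    | zero => simp
    | succ t ih =>
      have h1 := hzero (t : ZMod m)
      rw [Df_apply] at h1
      push_cast
      linarith
  have hall : ∀ j : ZMod m, (n i j : ℤ) - n i' j = (n i (0 : ZMod m) : ℤ) - n i' (0 : ZMod m) := by
    intro j
    have h1 := hconst j.val
    rwa [ZMod.natCast_val, ZMod.cast_id] at h1
  have h1 := hall j
  have h2 := hall j'
  have : (n i j : ℤ) + n i' j' = n i j' + n i' j := by linarith
  exact_mod_cast this

end Pool.Agent.T9h63.CU
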