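import Pool.Agent.T9h63.CU.Core3

set_option autoImplicit false
set_option maxHeartbeats 1000000

/-!
The classes of invertible ideals in the class group of a domain, and the rank of the group generated
by the classes of the ideals `(h i, w - z g)`.
-/

namespace Pool.Agent.T9h63.CU

open scoped nonZeroDivisors

section cls

variable {R : Type*} [CommRing R] [IsDomain R]

open Classical in
/-- the class of an invertible ideal of a domain (`0` if the ideal is not invertible) -/
noncomputable def cls (I : Ideal R) : Additive (ClassGroup R) :=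
  if h : IsUnit (I : FractionalIdeal R⁰ (FractionRing R)) then
    Additive.ofMul (ClassGroup.mk (FractionRing R) h.unit) else 0

lemma cls_of {I : Ideal R} (h : IsUnit (I : FractionalIdeal R⁰ (FractionRing R))) :
    cls I = Additive.ofMul (ClassGroup.mk (FractionRing R) h.unit) := dif_pos h

lemma isUnit_of_mul {I J : Ideal R} {x : R} (hx : x ≠ 0) (h : I * J = Ideal.span {x}) :
    IsUnit (I : FractionalIdeal R⁰ (FractionRing R)) := by
  have h1 : (I : FractionalIdeal R⁰ (FractionRing R)) * (J : FractionalIdeal R⁰ (FractionRing R))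
      = FractionalIdeal.spanSingleton R⁰ (algebraMap R (FractionRing R) x) := by
    rw [← FractionalIdeal.coeIdeal_mul, h, FractionalIdeal.coeIdeal_span_singleton]
  have hx' : algebraMap R (FractionRing R) x ≠ 0 := by
    intro h0
    exact hx ((FaithfulSMul.algebraMap_injective R (FractionRing R)) (by rw [h0, map_zero]))
  have h2 : IsUnit (FractionalIdeal.spanSingleton R⁰ (algebraMap R (FractionRing R) x)) := by
    apply IsUnit.of_mul_eq_one (FractionalIdeal.spanSingleton R⁰ (algebraMap R (FractionRing R) x)⁻¹)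
    rw [FractionalIdeal.spanSingleton_mul_spanSingleton, mul_inv_cancel₀ hx',
      FractionalIdeal.spanSingleton_one]
  rw [← h1] at h2
  exact isUnit_of_mul_isUnit_left h2

lemma cls_mul {I J : Ideal R} (hI : IsUnit (I : FractionalIdeal R⁰ (FractionRing R)))
    (hJ : IsUnit (J : FractionalIdeal R⁰ (FractionRing R))) : cls (I * J) = cls I + cls J := by
  have hIJ : IsUnit ((I * J : Ideal R) : FractionalIdeal R⁰ (FractionRing R)) := by
    rw [FractionalIdeal.coeIdeal_mul]; exact hI.mul hJ
  rw [cls_of hI, cls_of hJ, cls_of hIJ, ← ofMul_mul, ← map_mul]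
  congr 2
  ext1
  rw [Units.val_mul, IsUnit.unit_spec, IsUnit.unit_spec, IsUnit.unit_spec,
    FractionalIdeal.coeIdeal_mul]

lemma isU_one : IsUnit ((1 : Ideal R) : FractionalIdeal R⁰ (FractionRing R)) := by
  rw [Ideal.one_eq_top, FractionalIdeal.coeIdeal_top]
  exact _root_.isUnit_one

lemma cls_eq_zero {I : Ideal R} (hI : IsUnit (I : FractionalIdeal R⁰ (FractionRing R))) :
    cls I = 0 ↔ ∃ x : R, I = Ideal.span {x} := by
  rw [cls_of hI, ofMul_eq_zero, ClassGroup.mk_eq_one_of_coe_ideal (I' := I) hI.unit_spec]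
  constructor
  · rintro ⟨x, _, hx⟩
    exact ⟨x, hx⟩
  · rintro ⟨x, hx⟩
    refine ⟨x, ?_, hx⟩
    rintro rfl
    have h0 : I = ⊥ := by rw [hx]; exact Ideal.span_singleton_eq_bot.2 rfl
    rw [h0, FractionalIdeal.coeIdeal_bot] at hI
    exact not_isUnit_zero hI

lemma isUnit_prod {ι : Type*} (S : Finset ι) (I : ι → Ideal R) (e : ι → ℕ)
    (h : ∀ i ∈ S, IsUnit (I i : FractionalIdeal R⁰ (FractionRing R))) :
    IsUnit ((∏ i ∈ S, I i ^ e i : Ideal R) : FractionalIdeal R⁰ (FractionRing R)) := by
  classical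
  induction S using Finset.induction_on with
  | empty => simpa using isU_one
  | insert i S hi ih =>
    rw [Finset.prod_insert hi, FractionalIdeal.coeIdeal_mul, FractionalIdeal.coeIdeal_pow]
    exact ((h i (Finset.mem_insert_self _ _)).pow _).mul
      (ih fun j hj => h j (Finset.mem_insert_of_mem hj))

lemma cls_pow {I : Ideal R} (hI : IsUnit (I : FractionalIdeal R⁰ (FractionRing R))) (n : ℕ) :
    cls (I ^ n) = n • cls I := by
  induction n with
  | zero =>
    rw [pow_zero, zero_smul, cls_eq_zero isU_one]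
    exact ⟨1, by rw [Ideal.span_singleton_one, Ideal.one_eq_top]⟩
  | succ n ih =>
    have h1 : IsUnit ((I ^ n : Ideal R) : FractionalIdeal R⁰ (FractionRing R)) := by
      rw [FractionalIdeal.coeIdeal_pow]; exact hI.pow n
    rw [pow_succ, cls_mul h1 hI, ih, succ_nsmul]

lemma cls_prod {ι : Type*} (S : Finset ι) (I : ι → Ideal R) (e : ι → ℕ)
    (h : ∀ i ∈ S, IsUnit (I i : FractionalIdeal R⁰ (FractionRing R))) :
    cls (∏ i ∈ S, I i ^ e i) = ∑ i ∈ S, e i • cls (I i) := by
  classical
  induction S using Finset.induction_on with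
  | empty =>
    rw [Finset.prod_empty, Finset.sum_empty, cls_eq_zero isU_one]
    exact ⟨1, by rw [Ideal.span_singleton_one, Ideal.one_eq_top]⟩
  | insert i S hi ih =>
    have h1 := h i (Finset.mem_insert_self _ _)
    have h2 : ∀ j ∈ S, IsUnit (I j : FractionalIdeal R⁰ (FractionRing R)) :=
      fun j hj => h j (Finset.mem_insert_of_mem hj)
    have h3 : IsUnit ((I i ^ e i : Ideal R) : FractionalIdeal R⁰ (FractionRing R)) := by
      rw [FractionalIdeal.coeIdeal_pow]; exact h1.pow _
    rw [Finset.prod_insert hi, Finset.sum_insert hi, cls_mul h3 (isUnit_prod S I e h2),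
      cls_pow h1, ih h2]

/-- **The rank.** -/
theorem rank_of_relations {r m : ℕ} [NeZero m] (hr : 0 < r) (c : Fin r → ZMod m → Additive (ClassGroup R))
    (hrel : ∀ n : Fin r → ZMod m → ℤ, ∑ i, ∑ j, n i j • c i j = 0 ↔
      ∀ i i' j j', n i j + n i' j' = n i j' + n i' j) :
    Module.finrank ℤ (Submodule.span ℤ (Set.range fun p : Fin r × ZMod m => c p.1 p.2))
      = (r - 1) * (m - 1) := by
  classical
  obtain ⟨i0⟩ : Nonempty (Fin r) := ⟨⟨0, hr⟩⟩
  let ι := {i : Fin r // i ≠ i0} × {j : ZMod m // j ≠ 0}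
  let c' : ι → Additive (ClassGroup R) := fun p => c p.1 p.2
  have hli : LinearIndependent ℤ c' := by
    rw [Fintype.linearIndependent_iff]
    intro g hg
    let n : Fin r → ZMod m → ℤ := fun i j =>
      if h : i ≠ i0 ∧ j ≠ 0 then g (⟨i, h.1⟩, ⟨j, h.2⟩) else 0
    have h1 : ∑ i, ∑ j, n i j • c i j = 0 := by
      rw [← hg, ← Finset.sum_product', Finset.univ_product_univ]
      symm
      apply Finset.sum_of_injOn (fun p : ι => ((p.1 : Fin r), (p.2 : ZMod m)))
      · intro p _ p' _ hp
        simp only [Prod.mk.injEq] at hp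
        exact Prod.ext (Subtype.ext hp.1) (Subtype.ext hp.2)
      · intro p _
        exact Finset.mem_coe.2 (Finset.mem_univ _)
      · intro p _ hp
        have h2 : n p.1 p.2 = 0 := by
          apply dif_neg
          intro h3
          apply hp
          exact ⟨(⟨p.1, h3.1⟩, ⟨p.2, h3.2⟩), Finset.mem_coe.2 (Finset.mem_univ _), rfl⟩
        rw [h2, zero_smul]
      · intro p _
        have h2 : n p.1 p.2 = g p := dif_pos ⟨p.1.2, p.2.2⟩
        show g p • c p.1 p.2 = n p.1 p.2 • c p.1 p.2
        rw [h2]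
    have h2 := (hrel n).1 h1
    intro p
    have h3 := h2 p.1 i0 p.2 0
    have e1 : n p.1 p.2 = g p := dif_pos ⟨p.1.2, p.2.2⟩
    have e2 : n i0 0 = 0 := dif_neg (fun h => h.1 rfl)
    have e3 : n p.1 0 = 0 := dif_neg (fun h => h.2 rfl)
    have e4 : n i0 p.2 = 0 := dif_neg (fun h => h.1 rfl)
    rw [e1, e2, e3, e4] at h3
    simpa using h3
  have hcol : ∀ j : ZMod m, ∑ i, c i j = 0 := by
    intro j0
    have h1 := (hrel (fun _ j => if j = j0 then 1 else 0)).2 (by intro i i' j j'; ring)
    have h2 : ∀ i, ∑ j, (if j = j0 then (1 : ℤ) else 0) • c i j = c i j0 := by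
      intro i
      simp only [ite_smul, one_smul, zero_smul, Finset.sum_ite_eq', Finset.mem_univ, if_true]
    rwa [Finset.sum_congr rfl fun i _ => h2 i] at h1
  have hrow : ∀ i, ∑ j, c i j = 0 := by
    intro k0
    have h1 := (hrel (fun i _ => if i = k0 then 1 else 0)).2 (by intro i i' j j'; ring)
    simp only [ite_smul, one_smul, zero_smul] at h1
    rw [Finset.sum_comm] at h1
    simpa using h1
  have hspan : Submodule.span ℤ (Set.range fun p : Fin r × ZMod m => c p.1 p.2)
      = Submodule.span ℤ (Set.range c') := by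
    apply le_antisymm
    · rw [Submodule.span_le]
      rintro x ⟨⟨i, j⟩, rfl⟩
      show c i j ∈ Submodule.span ℤ (Set.range c')
      have hin : ∀ (i : Fin r) (j : ZMod m), i ≠ i0 → j ≠ 0 →
          c i j ∈ Submodule.span ℤ (Set.range c') := fun i j hi hj =>
        Submodule.subset_span ⟨(⟨i, hi⟩, ⟨j, hj⟩), rfl⟩
      have hin2 : ∀ (i : Fin r) (j : ZMod m), i ≠ i0 → c i j ∈ Submodule.span ℤ (Set.range c') := by
        intro i j hi
        by_cases hj : j = 0
        · have h1 := hrow i
          rw [← Finset.add_sum_erase _ _ (Finset.mem_univ (0 : ZMod m))] at h1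
          rw [hj, eq_neg_of_add_eq_zero_left h1]
          apply Submodule.neg_mem
          apply Submodule.sum_mem
          intro j' hj'
          exact hin i j' hi (Finset.mem_erase.1 hj').1
        · exact hin i j hi hj
      by_cases hi : i = i0
      · have h1 := hcol j
        rw [← Finset.add_sum_erase _ _ (Finset.mem_univ i0)] at h1
        rw [hi, eq_neg_of_add_eq_zero_left h1]
        apply Submodule.neg_mem
        apply Submodule.sum_mem
        intro i' hi'
        exact hin2 i' j (Finset.mem_erase.1 hi').1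
      · exact hin2 i j hi
    · apply Submodule.span_mono
      rintro x ⟨p, rfl⟩
      exact ⟨(p.1, p.2), rfl⟩
  rw [hspan, finrank_span_eq_card hli, Fintype.card_prod]
  congr 1
  · rw [Fintype.card_subtype_compl, Fintype.card_fin, Fintype.card_subtype_eq]
  · rw [Fintype.card_subtype_compl, ZMod.card, Fintype.card_subtype_eq]

section rank

variable {A R : Type*} [CommRing A] [IsDomain A] [CommRing R] [IsDomain R] [Algebra A R] {m : ℕ}
  [NeZero m] {f ζ : A} {w : R} {σ : R ≃ₐ[A] R} {b : Module.Basis (Fin m) A R}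
  (H : Cyc m f ζ w σ b) {r : ℕ} {h : Fin r → A} {g : A}
  (hfg : f = g ^ m + ∏ i, h i)
  (hcop : ∀ i i', i ≠ i' → Ideal.span {g, h i, h i'} = ⊤)
  (hdiff : ∀ i, 0 < i → i < m → IsUnit (1 - ζ ^ i))

include H hfg hcop hdiff

lemma Cyc.JJ_unit (hh : ∀ i, h i ≠ 0) (i : Fin r) (j : ZMod m) :
    IsUnit ((JJ w ζ h g i j : Ideal R) : FractionalIdeal R⁰ (FractionRing R)) := by
  classical
  have h1 : algebraMap A R (h i) ≠ 0 := fun h0 => hh i (H.injA (by rw [h0, map_zero]))
  have h2 := H.prod_j hfg hcop hdiff i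
  rw [← Finset.mul_prod_erase _ _ (Finset.mem_univ j)] at h2
  exact isUnit_of_mul h1 h2

/-- **The group generated by the classes.** -/
theorem Cyc.class_rel (hh : ∀ i, h i ≠ 0)
    (hrel : ∀ n : Fin r → ZMod m → ℕ, (∃ φ : R, II w ζ h g n = Ideal.span {φ}) ↔
      ∀ i i' j j', n i j + n i' j' = n i j' + n i' j)
    (n : Fin r → ZMod m → ℤ) :
    ∑ i, ∑ j, n i j • cls (JJ w ζ h g i j) = 0 ↔
      ∀ i i' j j', n i j + n i' j' = n i j' + n i' j := by
  classical
  have hu := H.JJ_unit hfg hcop hdiff hh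
  have hnat : ∀ n : Fin r → ZMod m → ℕ, ∑ i, ∑ j, n i j • cls (JJ w ζ h g i j) = 0 ↔
      ∀ i i' j j', n i j + n i' j' = n i j' + n i' j := by
    intro n
    rw [← hrel n]
    have h1 : ∀ i, IsUnit ((∏ j, JJ w ζ h g i j ^ n i j : Ideal R) :
        FractionalIdeal R⁰ (FractionRing R)) := fun i => isUnit_prod _ _ _ fun j _ => hu i j
    have h2 : cls (II w ζ h g n) = ∑ i, ∑ j, n i j • cls (JJ w ζ h g i j) := by
      unfold II
      have h3 := cls_prod Finset.univ (fun i => ∏ j, JJ w ζ h g i j ^ n i j) (fun _ => 1)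
        (fun i _ => h1 i)
      simp only [pow_one, one_smul] at h3
      rw [h3]
      apply Finset.sum_congr rfl
      intro i _
      exact cls_prod _ _ _ fun j _ => hu i j
    have h4 : IsUnit ((II w ζ h g n : Ideal R) : FractionalIdeal R⁰ (FractionRing R)) := by
      have h3 := isUnit_prod Finset.univ (fun i => ∏ j, JJ w ζ h g i j ^ n i j) (fun _ => 1)
        (fun i _ => h1 i)
      simp only [pow_one] at h3
      exact h3
    rw [← h2, cls_eq_zero h4]
  obtain ⟨N, hN⟩ : ∃ N : ℕ, ∀ i j, 0 ≤ n i j + N := by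
    refine ⟨∑ i, ∑ j, (n i j).natAbs, fun i j => ?_⟩
    have h1 : (n i j).natAbs ≤ ∑ i, ∑ j, (n i j).natAbs :=
      calc (n i j).natAbs ≤ ∑ j, (n i j).natAbs :=
            Finset.single_le_sum (f := fun j => (n i j).natAbs) (fun _ _ => Nat.zero_le _)
              (Finset.mem_univ j)
        _ ≤ _ := Finset.single_le_sum (f := fun i => ∑ j, (n i j).natAbs)
            (fun _ _ => Nat.zero_le _) (Finset.mem_univ i)
    omega
  have hconst := (hnat (fun _ _ => N)).2 (fun _ _ _ _ => rfl)
  have h1 := hnat (fun i j => (n i j + N).toNat)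
  have h2 : ∀ i j, ((n i j + N).toNat : ℤ) = n i j + N := fun i j => Int.toNat_of_nonneg (hN i j)
  have h3 : ∑ i, ∑ j, (n i j + N).toNat • cls (JJ w ζ h g i j)
      = ∑ i, ∑ j, n i j • cls (JJ w ζ h g i j) + ∑ i, ∑ j : ZMod m, N • cls (JJ w ζ h g i j) := by
    rw [← Finset.sum_add_distrib]
    apply Finset.sum_congr rfl
    intro i _
    rw [← Finset.sum_add_distrib]
    apply Finset.sum_congr rfl
    intro j _
    rw [← natCast_zsmul, h2, add_smul, natCast_zsmul]
  rw [h3, hconst, add_zero] at h1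
  rw [h1]
  constructor
  · intro h4 i i' j j'
    have h5 := h4 i i' j j'
    have h6 : ((n i j + N).toNat : ℤ) + (n i' j' + N).toNat
        = (n i j' + N).toNat + (n i' j + N).toNat := by exact_mod_cast h5
    rw [h2, h2, h2, h2] at h6
    linarith
  · intro h4 i i' j j'
    have h5 := h4 i i' j j'
    have h6 : ((n i j + N).toNat : ℤ) + (n i' j' + N).toNat
        = (n i j' + N).toNat + (n i' j + N).toNat := by
      rw [h2, h2, h2, h2]
      linarith
    exact_mod_cast h6

end rank

end cls

end Pool.Agent.T9h63.CU
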