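import Pool.Agent.T9h63.CU.IdP

set_option autoImplicit false
set_option maxHeartbeats 1000000

/-!
The relations between the classes of the ideals `(h i, w - z g)` in `R = A[w]`,
`w ^ m = g ^ m + ∏ h i`.
-/

namespace Pool.Agent.T9h63.CU

section core

variable {A R : Type*} [CommRing A] [IsDomain A] [CommRing R] [IsDomain R] [Algebra A R] {m : ℕ}
  [NeZero m] {f ζ : A} {w : R} {σ : R ≃ₐ[A] R} {b : Module.Basis (Fin m) A R}
  (H : Cyc m f ζ w σ b) {r : ℕ} (h : Fin r → A) (g : A)

/-- the root of unity `ζ ^ j` -/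
def zz (ζ : A) (j : ZMod m) : A := ζ ^ j.val

/-- the element `w - ζ ^ j g` -/
def vv (w : R) (ζ g : A) (j : ZMod m) : R := w - algebraMap A R (zz ζ j * g)

/-- the ideal `(h i, w - ζ ^ j g)` -/
def JJ (w : R) (ζ : A) (h : Fin r → A) (g : A) (i : Fin r) (j : ZMod m) : Ideal R :=
  Ideal.span {algebraMap A R (h i), vv w ζ g j}

include H

lemma Cyc.zz_succ (j : ZMod m) : zz ζ (j + 1) = ζ * zz ζ j := by
  unfold zz
  rw [← pow_succ', ← pow_mod_orderOf ζ (j.val + 1), ← pow_mod_orderOf ζ (j + 1).val]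
  congr 1
  have h1 : orderOf ζ ∣ m := orderOf_dvd_of_pow_eq_one H.hζ
  have h2 : (j + 1).val = (j.val + 1) % m := by
    rw [ZMod.val_add]
    rcases Nat.lt_or_ge 1 m with hm | hm
    · haveI : Fact (1 < m) := ⟨hm⟩
      rw [ZMod.val_one]
    · have hm1 : m = 1 := le_antisymm hm (Nat.pos_of_ne_zero (NeZero.ne m))
      subst hm1
      simp [Nat.mod_one]
  rw [h2, Nat.mod_mod_of_dvd _ h1]

lemma Cyc.prim : IsPrimitiveRoot ζ m := by
  rw [IsPrimitiveRoot.iff H.pos]
  exact ⟨H.hζ, fun l h0 h1 => H.ζ_pow_ne h0 h1⟩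

lemma Cyc.zz_pow (j : ZMod m) : zz ζ j ^ m = 1 := by
  unfold zz
  rw [← pow_mul, mul_comm, pow_mul, H.hζ, one_pow]

lemma Cyc.zz_unit (j : ZMod m) : IsUnit (zz ζ j) := H.unitζ.pow _

lemma Cyc.prod_vv : ∏ j : ZMod m, vv w ζ g j = w ^ m - algebraMap A R g ^ m := by
  classical
  have hprim : IsPrimitiveRoot (algebraMap A R ζ) m := H.prim.map_of_injective H.injA
  rw [hprim.pow_sub_pow_eq_prod_sub_mul w (algebraMap A R g) H.pos]
  symm
  apply Finset.prod_bij' (fun (x : R) _ => (if hx : ∃ j : ZMod m, algebraMap A R (zz ζ j) = x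
    then Classical.choose hx else 0)) (fun (j : ZMod m) _ => algebraMap A R (zz ζ j))
  · intro x _; exact Finset.mem_univ _
  · intro j _
    rw [Polynomial.mem_nthRootsFinset H.pos, ← map_pow, H.zz_pow, map_one]
  · intro x hx
    rw [Polynomial.mem_nthRootsFinset H.pos] at hx
    obtain ⟨i, hi, hix⟩ := hprim.eq_pow_of_pow_eq_one hx
    have hex : ∃ j : ZMod m, algebraMap A R (zz ζ j) = x := by
      refine ⟨(i : ZMod m), ?_⟩
      unfold zz
      rw [ZMod.val_natCast, Nat.mod_eq_of_lt hi, map_pow, hix]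
    simp only [dif_pos hex]
    exact Classical.choose_spec hex
  · intro j _
    have hex : ∃ j' : ZMod m, algebraMap A R (zz ζ j') = algebraMap A R (zz ζ j) := ⟨j, rfl⟩
    simp only [dif_pos hex]
    have h1 := H.injA (Classical.choose_spec hex)
    unfold zz at h1
    exact ZMod.val_injective m (H.prim.pow_inj (ZMod.val_lt _) (ZMod.val_lt _) h1)
  · intro x hx
    rw [Polynomial.mem_nthRootsFinset H.pos] at hx
    obtain ⟨i, hi, hix⟩ := hprim.eq_pow_of_pow_eq_one hx
    have hex : ∃ j : ZMod m, algebraMap A R (zz ζ j) = x := by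
      refine ⟨(i : ZMod m), ?_⟩
      unfold zz
      rw [ZMod.val_natCast, Nat.mod_eq_of_lt hi, map_pow, hix]
    simp only [dif_pos hex]
    unfold vv
    rw [map_mul, Classical.choose_spec hex]

variable {h g} (hfg : f = g ^ m + ∏ i, h i)
  (hcop : ∀ i i', i ≠ i' → Ideal.span {g, h i, h i'} = ⊤)
  (hdiff : ∀ i, 0 < i → i < m → IsUnit (1 - ζ ^ i))

include hfg in
lemma Cyc.prod_h : w ^ m - algebraMap A R g ^ m = algebraMap A R (∏ i, h i) := by
  rw [H.hw, hfg, map_add, map_pow]
  ring

omit [IsDomain A] [IsDomain R] [NeZero m] H in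
lemma not_all {M : Ideal R} (hM : M.IsMaximal) (hcop : ∀ i i', i ≠ i' →
    Ideal.span {g, h i, h i'} = ⊤) (hg : algebraMap A R g ∈ M) {i i' : Fin r} (hne : i ≠ i')
    (hi : algebraMap A R (h i) ∈ M) : algebraMap A R (h i') ∉ M := by
  intro hi'
  have h1 : Ideal.span {g, h i, h i'} ≤ M.comap (algebraMap A R) := by
    rw [Ideal.span_le]
    rintro x (rfl | rfl | rfl)
    · exact hg
    · exact hi
    · exact hi'
  rw [hcop i i' hne, top_le_iff, Ideal.comap_eq_top_iff] at h1
  exact hM.ne_top h1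

include hfg hcop in
lemma Cyc.prod_i (j : ZMod m) : ∏ i, JJ w ζ h g i j = Ideal.span {vv w ζ g j} := by
  unfold JJ
  set y := algebraMap A R (zz ζ j * g) with hy
  apply prod_span _ _ (∑ t ∈ Finset.range m, w ^ t * y ^ (m - 1 - t))
  · have h1 := (Commute.all w y).mul_geom_sum₂ m
    rw [show vv w ζ g j = w - y from rfl, h1, hy, ← map_pow, mul_pow, H.zz_pow, one_mul, map_pow,
      H.prod_h hfg, map_prod]
  · intro M hM hv hV i i' hne hi
    apply not_all hM hcop _ hne hi
    have hMp := hM.isPrime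
    -- `V` is congruent to `m y ^ (m - 1)`
    have h1 : (m : R) * y ^ (m - 1) ∈ M := by
      have h2 : (∑ t ∈ Finset.range m, w ^ t * y ^ (m - 1 - t)) - (m : R) * y ^ (m - 1) ∈ M := by
        have h3 : (m : R) * y ^ (m - 1) = ∑ t ∈ Finset.range m, y ^ t * y ^ (m - 1 - t) := by
          have h4 : ∀ t ∈ Finset.range m, y ^ t * y ^ (m - 1 - t) = y ^ (m - 1) := by
            intro t ht
            rw [← pow_add]; congr 1
            have := Finset.mem_range.1 ht
            omega
          rw [Finset.sum_congr rfl h4, Finset.sum_const, Finset.card_range, nsmul_eq_mul]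
        rw [h3, ← Finset.sum_sub_distrib]
        apply M.sum_mem
        intro t _
        rw [← sub_mul]
        apply M.mul_mem_right
        obtain ⟨c, hc⟩ := sub_dvd_pow_sub_pow w y t
        rw [hc]
        exact M.mul_mem_right _ hv
      have h5 := M.sub_mem hV h2
      rwa [sub_sub_cancel] at h5
    have h6 : y ^ (m - 1) ∈ M := by
      obtain ⟨u, hu⟩ := H.hm
      have h7 := M.mul_mem_left (algebraMap A R (↑u⁻¹ : A)) h1
      rwa [← mul_assoc, ← map_natCast (algebraMap A R), ← map_mul, ← hu, Units.inv_mul, map_one,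
        one_mul] at h7
    have h8 : y ∈ M := by
      rcases Nat.eq_zero_or_pos (m - 1) with h0 | h0
      · rw [h0, pow_zero] at h6
        exact absurd ((Ideal.eq_top_iff_one M).2 h6) hM.ne_top
      · exact hMp.mem_of_pow_mem _ h6
    rw [hy, map_mul] at h8
    rcases hMp.mem_or_mem h8 with h9 | h9
    · exact absurd (Ideal.eq_top_of_isUnit_mem M h9 ((H.zz_unit j).map _)) hM.ne_top
    · exact h9

include hdiff in
lemma Cyc.zz_sub {j j' : ZMod m} (hne : j ≠ j') : IsUnit (zz ζ j - zz ζ j') := by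
  wlog hlt : j.val < j'.val with hw
  · have h1 : j'.val < j.val := by
      rcases lt_trichotomy j.val j'.val with h | h | h
      · exact absurd h hlt
      · exact absurd (ZMod.val_injective m h) hne
      · exact h
    have h2 := hw H hdiff (Ne.symm hne) h1
    rw [← neg_sub]
    exact h2.neg
  unfold zz
  have h1 : ζ ^ j.val - ζ ^ j'.val = ζ ^ j.val * (1 - ζ ^ (j'.val - j.val)) := by
    rw [mul_sub, mul_one, ← pow_add]
    congr 2
    omega
  rw [h1]
  exact (H.unitζ.pow _).mul (hdiff _ (by omega) (by have := ZMod.val_lt j'; omega))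

include hfg hcop hdiff in
lemma Cyc.prod_j (i : Fin r) :
    ∏ j : ZMod m, JJ w ζ h g i j = Ideal.span {algebraMap A R (h i)} := by
  classical
  unfold JJ
  have hsw : ∀ j : ZMod m, Ideal.span {algebraMap A R (h i), vv w ζ g j}
      = Ideal.span {vv w ζ g j, algebraMap A R (h i)} := fun j => by rw [Set.pair_comm]
  simp only [hsw]
  apply prod_span _ _ (algebraMap A R (∏ i' ∈ Finset.univ.erase i, h i'))
  · rw [H.prod_vv, H.prod_h hfg, ← map_mul, Finset.mul_prod_erase _ _ (Finset.mem_univ i)]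
  · intro M hM hi hV j j' hne hj hj'
    have hMp := hM.isPrime
    have h1 : algebraMap A R g ∈ M := by
      have h2 := M.sub_mem hj' hj
      unfold vv at h2
      have h3 : w - algebraMap A R (zz ζ j' * g) - (w - algebraMap A R (zz ζ j * g))
          = algebraMap A R (zz ζ j - zz ζ j') * algebraMap A R g := by
        rw [map_mul, map_mul, map_sub]; ring
      rw [h3] at h2
      rcases hMp.mem_or_mem h2 with h9 | h9
      · exact absurd (Ideal.eq_top_of_isUnit_mem M h9 ((H.zz_sub hdiff hne).map _)) hM.ne_top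
      · exact h9
    rw [map_prod] at hV
    obtain ⟨i', hi', h4⟩ := hMp.prod_mem_iff.1 hV
    exact not_all hM hcop h1 (Finset.mem_erase.1 hi').1.symm hi h4

lemma Cyc.map_JJ (i : Fin r) (j : ZMod m) :
    Ideal.map σ (JJ w ζ h g i (j + 1)) = JJ w ζ h g i j := by
  unfold JJ
  rw [Ideal.map_span, Set.image_pair, AlgEquiv.commutes]
  have h1 : σ (vv w ζ g (j + 1)) = algebraMap A R ζ * vv w ζ g j := by
    unfold vv
    rw [map_sub, AlgEquiv.commutes, H.hσ, H.zz_succ]
    simp only [map_mul]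
    ring
  rw [h1]
  obtain ⟨u, hu⟩ := H.unitζ
  apply le_antisymm
  · rw [Ideal.span_le]
    rintro x (rfl | rfl)
    · exact Ideal.subset_span (Set.mem_insert _ _)
    · exact Ideal.mul_mem_left _ _ (Ideal.subset_span (Set.mem_insert_of_mem _ rfl))
  · rw [Ideal.span_le]
    rintro x (rfl | rfl)
    · exact Ideal.subset_span (Set.mem_insert _ _)
    · have h2 : algebraMap A R (↑u⁻¹ : A) * (algebraMap A R ζ * vv w ζ g j) = vv w ζ g j := by
        rw [← mul_assoc, ← map_mul, ← hu, Units.inv_mul, map_one, one_mul]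
      have h3 : algebraMap A R (↑u⁻¹ : A) * (algebraMap A R ζ * vv w ζ g j)
          ∈ Ideal.span {algebraMap A R (h i), algebraMap A R ζ * vv w ζ g j} :=
        Ideal.mul_mem_left _ _ (Ideal.subset_span (Set.mem_insert_of_mem _ rfl))
      rw [h2] at h3
      exact h3

end core

end Pool.Agent.T9h63.CU
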