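import Pool.Agent.T9h63.CU.Inv

set_option autoImplicit false
set_option maxHeartbeats 1000000

/-!
Hilbert's theorem 90 for `R = A[w]`.
-/

namespace Pool.Agent.T9h63.CU

section h90

variable {A R : Type*} [CommRing A] [IsDomain A] [CommRing R] [IsDomain R] [Algebra A R] {m : ℕ}
  {f ζ : A} {w : R} {σ : R ≃ₐ[A] R} {b : Module.Basis (Fin m) A R} (H : Cyc m f ζ w σ b)

/-- the coefficients of the resolvent -/
noncomputable def BB (m : ℕ) (σ : R ≃ₐ[A] R) (x y : R) (j : ℕ) : R :=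
  (∏ i ∈ Finset.range j, (σ ^ i) x) * ∏ i ∈ Finset.Ico j m, (σ ^ i) y

/-- the norm -/
noncomputable def Nm (m : ℕ) (σ : R ≃ₐ[A] R) (x : R) : R := ∏ i ∈ Finset.range m, (σ ^ i) x

lemma Nm_mul (x y : R) : Nm m σ (x * y) = Nm m σ x * Nm m σ y := by
  unfold Nm
  rw [← Finset.prod_mul_distrib]
  exact Finset.prod_congr rfl fun i _ => map_mul _ _ _

lemma Nm_alg (a : A) : Nm m σ (algebraMap A R a) = algebraMap A R a ^ m := by
  unfold Nm
  rw [Finset.prod_congr rfl fun i _ => AlgEquiv.commutes (σ ^ i) a, Finset.prod_const,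
    Finset.card_range]

lemma Nm_ne {x : R} (hx : x ≠ 0) : Nm m σ x ≠ 0 := by
  unfold Nm
  rw [Finset.prod_ne_zero_iff]
  intro i _ h
  exact hx ((map_eq_zero_iff _ (σ ^ i).injective).1 h)

include H

lemma Cyc.BB_succ (x y : R) {j : ℕ} (hj : j < m) :
    σ (BB m σ x y j) * x = BB m σ x y (j + 1) * y := by
  have hs : ∀ (i : ℕ) (u : R), σ ((σ ^ i) u) = (σ ^ (i + 1)) u := by
    intro i u
    rw [pow_succ', AlgEquiv.mul_apply]
  have h1 : (∏ i ∈ Finset.range j, σ ((σ ^ i) x)) * x = ∏ i ∈ Finset.range (j + 1), (σ ^ i) x := by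
    rw [Finset.prod_range_succ', Finset.prod_congr rfl fun i _ => hs i x]
    rfl
  have h2 : ∏ i ∈ Finset.Ico j m, σ ((σ ^ i) y)
      = (∏ i ∈ Finset.Ico (j + 1) m, (σ ^ i) y) * y := by
    rw [Finset.prod_congr rfl fun i _ => hs i y]
    have h3 := Finset.prod_Ico_add' (fun i => (σ ^ i) y) j m 1
    rw [h3, Finset.prod_Ico_succ_top (by omega), H.pow_m]
    rfl
  unfold BB
  rw [map_mul, map_prod, map_prod, h2]
  calc (∏ i ∈ Finset.range j, σ ((σ ^ i) x)) * ((∏ i ∈ Finset.Ico (j + 1) m, (σ ^ i) y) * y) * x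
      = ((∏ i ∈ Finset.range j, σ ((σ ^ i) x)) * x) * ((∏ i ∈ Finset.Ico (j + 1) m, (σ ^ i) y) * y)
        := by ring
    _ = _ := by rw [h1]; ring

/-- **Hilbert 90.** -/
theorem Cyc.h90 (hf : f ≠ 0) {x y : R} (hy : y ≠ 0) (hN : Nm m σ x = Nm m σ y) :
    ∃ θ : R, θ ≠ 0 ∧ σ θ * x = θ * y := by
  have hB0 : BB m σ x y 0 = Nm m σ y := by
    unfold BB Nm
    rw [Finset.range_zero, Finset.prod_empty, one_mul, Finset.range_eq_Ico]
  have hBm : BB m σ x y m = Nm m σ y := by
    unfold BB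
    rw [Finset.Ico_self, Finset.prod_empty, mul_one, ← hN]
    rfl
  have key : ∀ c : R, σ (∑ j ∈ Finset.range m, BB m σ x y j * (σ ^ j) c) * x
      = (∑ j ∈ Finset.range m, BB m σ x y j * (σ ^ j) c) * y := by
    intro c
    rw [map_sum, Finset.sum_mul, Finset.sum_mul]
    have h1 : ∀ j ∈ Finset.range m, σ (BB m σ x y j * (σ ^ j) c) * x
        = BB m σ x y (j + 1) * (σ ^ (j + 1)) c * y := by
      intro j hj
      rw [map_mul, pow_succ' σ j, AlgEquiv.mul_apply]
      have := H.BB_succ x y (Finset.mem_range.1 hj)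
      calc σ (BB m σ x y j) * σ ((σ ^ j) c) * x
          = (σ (BB m σ x y j) * x) * σ ((σ ^ j) c) := by ring
        _ = _ := by rw [this]; ring
    rw [Finset.sum_congr rfl h1]
    have h2 := Finset.sum_range_succ (fun j => BB m σ x y j * (σ ^ j) c * y) m
    have h3 := Finset.sum_range_succ' (fun j => BB m σ x y j * (σ ^ j) c * y) m
    rw [h2] at h3
    have h4 : BB m σ x y m * (σ ^ m) c * y = BB m σ x y 0 * (σ ^ 0) c * y := by
      rw [hBm, hB0, H.pow_m, pow_zero]
    rw [h4] at h3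
    exact (add_right_cancel h3).symm
  by_contra hno
  push Not at hno
  have hz : ∀ c : R, ∑ j ∈ Finset.range m, BB m σ x y j * (σ ^ j) c = 0 := by
    intro c
    by_contra h
    exact hno _ h (key c)
  have hz2 : ∀ t : ℕ, ∑ j ∈ Finset.range m, BB m σ x y j * algebraMap A R (ζ ^ (t * j)) = 0 := by
    intro t
    have h1 := hz (w ^ t)
    have h2 : ∀ j ∈ Finset.range m, BB m σ x y j * (σ ^ j) (w ^ t)
        = BB m σ x y j * algebraMap A R (ζ ^ (t * j)) * w ^ t := by
      intro j _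
      rw [H.pow_w_pow, mul_assoc, mul_comm t j]
    rw [Finset.sum_congr rfl h2, ← Finset.sum_mul] at h1
    exact (mul_eq_zero.1 h1).resolve_right (pow_ne_zero _ (H.w_ne hf))
  have h5 : ∑ t ∈ Finset.range m, ∑ j ∈ Finset.range m,
      BB m σ x y j * algebraMap A R (ζ ^ (t * j)) = 0 := Finset.sum_eq_zero fun t _ => hz2 t
  rw [Finset.sum_comm] at h5
  have h6 : ∀ j ∈ Finset.range m, ∑ t ∈ Finset.range m,
      BB m σ x y j * algebraMap A R (ζ ^ (t * j)) = if j = 0 then (m : R) * BB m σ x y 0 else 0 := by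
    intro j hj
    rw [← Finset.mul_sum, ← map_sum]
    split_ifs with h
    · rw [h]
      have : ∀ t ∈ Finset.range m, ζ ^ (t * 0) = 1 := by intro t _; simp
      rw [Finset.sum_congr rfl this, Finset.sum_const, Finset.card_range, nsmul_eq_mul, mul_one,
        map_natCast, mul_comm]
    · rw [H.orth j, map_zero, mul_zero]
      intro hd
      have := Nat.le_of_dvd (Nat.pos_of_ne_zero h) hd
      have := Finset.mem_range.1 hj
      omega
  rw [Finset.sum_congr rfl h6, Finset.sum_ite_eq' (Finset.range m) 0,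
    if_pos (Finset.mem_range.2 H.pos), hB0] at h5
  rcases mul_eq_zero.1 h5 with h7 | h7
  · have h8 := H.hm
    have h9 : (m : A) = 0 := H.injA (by rw [map_natCast, h7, map_zero])
    rw [h9] at h8
    exact not_isUnit_zero h8
  · exact Nm_ne hy h7

lemma Cyc.Nm_fixed (x : R) : ∃ a : A, Nm m σ x = algebraMap A R a := by
  apply H.fixed
  have h := H.BB_succ x x H.pos
  have h0 : BB m σ x x 0 = Nm m σ x := by
    unfold BB Nm
    rw [Finset.range_zero, Finset.prod_empty, one_mul, Finset.range_eq_Ico]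
  have h1 : BB m σ x x 1 = Nm m σ x := by
    unfold BB Nm
    rw [Finset.range_eq_Ico, Finset.range_eq_Ico, Finset.prod_Ico_consecutive _ (by omega) H.pos]
  rw [h0, zero_add, h1] at h
  by_cases hx : x = 0
  · rw [hx]
    unfold Nm
    rw [Finset.prod_eq_zero (Finset.mem_range.2 H.pos) (by simp), map_zero]
  · exact mul_right_cancel₀ hx h

end h90

end Pool.Agent.T9h63.CU
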