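import Pool.Agent.T9h63.CU.Core
import Pool.Agent.T9h63.CU.H90

set_option autoImplicit false
set_option maxHeartbeats 1000000

/-!
One step of the descent for the relations between the classes of the ideals `(h i, w - z g)`.
-/

namespace Pool.Agent.T9h63.CU

section core2

variable {A R : Type*} [CommRing A] [IsDomain A] [CommRing R] [IsDomain R] [Algebra A R] {m : ℕ}
  [NeZero m] {f ζ : A} {w : R} {σ : R ≃ₐ[A] R} {b : Module.Basis (Fin m) A R}
  (H : Cyc m f ζ w σ b) {r : ℕ} {h : Fin r → A} {g : A}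

/-- the product of the powers of the ideals `(h i, w - ζ ^ j g)` -/
def II (w : R) (ζ : A) (h : Fin r → A) (g : A) (n : Fin r → ZMod m → ℕ) : Ideal R :=
  ∏ i, ∏ j, JJ w ζ h g i j ^ n i j

omit [IsDomain A] [IsDomain R] in
lemma II_add (n n' : Fin r → ZMod m → ℕ) :
    II w ζ h g (fun i j => n i j + n' i j) = II w ζ h g n * II w ζ h g n' := by
  unfold II
  rw [← Finset.prod_mul_distrib]
  apply Finset.prod_congr rfl
  intro i _
  rw [← Finset.prod_mul_distrib]
  apply Finset.prod_congr rfl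
  intro j _
  rw [pow_add]

include H

lemma Cyc.II_map (n : Fin r → ZMod m → ℕ) :
    Ideal.map σ (II w ζ h g n) = II w ζ h g (fun i j => n i (j + 1)) := by
  unfold II
  have h0 : ∀ I : Ideal R, Ideal.map σ I = Ideal.mapHom σ I := fun _ => rfl
  rw [h0, map_prod]
  apply Finset.prod_congr rfl
  intro i _
  rw [map_prod, ← Equiv.prod_comp (Equiv.addRight (1 : ZMod m))]
  apply Finset.prod_congr rfl
  intro j _
  rw [map_pow, ← h0, Equiv.coe_addRight, H.map_JJ]

lemma Cyc.II_map_pow (t : ℕ) (n : Fin r → ZMod m → ℕ) :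
    Ideal.map (σ ^ t) (II w ζ h g n)
      = II w ζ h g (fun i (j : ZMod m) => n i (j + (t : ZMod m))) := by
  induction t generalizing n with
  | zero =>
    simp only [pow_zero, Nat.cast_zero, add_zero]
    exact Ideal.map_id _
  | succ t ih =>
    have h1 : Ideal.map (σ ^ (t + 1)) (II w ζ h g n)
        = Ideal.map (σ ^ t) (Ideal.map σ (II w ζ h g n)) := by
      rw [pow_succ]
      exact (Ideal.map_map (σ : R →+* R) ((σ ^ t : R ≃ₐ[A] R) : R →+* R)).symm
    rw [h1, H.II_map, ih]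
    congr 1
    funext i j
    congr 1
    push_cast
    ring

variable (hfg : f = g ^ m + ∏ i, h i)
  (hcop : ∀ i i', i ≠ i' → Ideal.span {g, h i, h i'} = ⊤)
  (hdiff : ∀ i, 0 < i → i < m → IsUnit (1 - ζ ^ i))

include hfg hcop hdiff in
lemma Cyc.II_row (β : Fin r → ℕ) :
    II w ζ h g (fun i (_ : ZMod m) => β i) = Ideal.span {algebraMap A R (∏ i, h i ^ β i)} := by
  unfold II
  rw [map_prod, ← Ideal.prod_span_singleton]
  apply Finset.prod_congr rfl
  intro i _
  rw [Finset.prod_pow, H.prod_j hfg hcop hdiff, map_pow, Ideal.span_singleton_pow]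

include hfg hcop in
lemma Cyc.II_col (c : ℕ) :
    II w ζ h g (fun _ (j : ZMod m) => if j = 0 then c else 0) = Ideal.span {vv w ζ g (0 : ZMod m) ^ c} := by
  classical
  unfold II
  have h1 : ∀ i : Fin r, ∏ j : ZMod m, JJ w ζ h g i j ^ (if j = 0 then c else 0)
      = JJ w ζ h g i (0 : ZMod m) ^ c := by
    intro i
    rw [Finset.prod_eq_single (0 : ZMod m)]
    · rw [if_pos rfl]
    · intro j _ hj
      rw [if_neg hj, pow_zero]
    · intro h
      exact absurd (Finset.mem_univ _) h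
  rw [Finset.prod_congr rfl fun i _ => h1 i, Finset.prod_pow, H.prod_i hfg hcop,
    Ideal.span_singleton_pow]

lemma Cyc.Nm_w : ∃ u : A, IsUnit u ∧ Nm m σ w = algebraMap A R (u * f) := by
  refine ⟨∏ i ∈ Finset.range m, ζ ^ i, ?_, ?_⟩
  · apply IsUnit.prod_iff.2
    intro i _
    exact H.unitζ.pow _
  · unfold Nm
    rw [Finset.prod_congr rfl fun i _ => H.pow_w i, Finset.prod_mul_distrib, Finset.prod_const,
      Finset.card_range, H.hw, ← map_prod, ← map_mul]

lemma Cyc.dvd_of_w (hf : Prime f) {a : A} (ha : w ∣ algebraMap A R a) : f ∣ a := by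
  obtain ⟨y, hy⟩ := ha
  have h1 := congrArg (Nm m σ) hy
  obtain ⟨u, hu, h2⟩ := H.Nm_w
  obtain ⟨c, h3⟩ := H.Nm_fixed y
  rw [Nm_alg, Nm_mul, h2, h3, ← map_pow, ← map_mul] at h1
  have h4 := H.injA h1
  apply hf.dvd_of_dvd_pow (n := m)
  rw [h4, mul_assoc, mul_left_comm]
  exact dvd_mul_right _ _

lemma Cyc.w_dvd_sub (x : R) : w ∣ x - algebraMap A R (b.repr x ⟨0, H.pos⟩) := by
  have h1 : ∀ i : Fin m, i ≠ ⟨0, H.pos⟩ → w ∣ algebraMap A R (b.repr x i) * w ^ (i : ℕ) := by
    intro i hi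
    have h2 : (i : ℕ) ≠ 0 := fun h => hi (Fin.ext h)
    exact (dvd_pow_self w h2).mul_left _
  have h3 : x - algebraMap A R (b.repr x ⟨0, H.pos⟩)
      = ∑ i ∈ Finset.univ.erase (⟨0, H.pos⟩ : Fin m), algebraMap A R (b.repr x i) * w ^ (i : ℕ) := by
    have h4 := H.expand x
    rw [← Finset.add_sum_erase _ _ (Finset.mem_univ (⟨0, H.pos⟩ : Fin m))] at h4
    simp only [pow_zero, mul_one] at h4
    rw [sub_eq_iff_eq_add, add_comm]
    exact h4
  rw [h3]
  apply Finset.dvd_sum
  intro i hi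
  exact h1 i (Finset.mem_erase.1 hi).1

lemma Cyc.Nm_congr (x : R) : w ∣ Nm m σ x - algebraMap A R (b.repr x ⟨0, H.pos⟩) ^ m := by
  set a := algebraMap A R (b.repr x ⟨0, H.pos⟩) with ha
  have h1 : ∀ i : ℕ, w ∣ (σ ^ i) x - a := by
    intro i
    obtain ⟨y, hy⟩ := H.w_dvd_sub x
    have h2 := congrArg (σ ^ i) hy
    rw [map_sub, AlgEquiv.commutes, map_mul, H.pow_w] at h2
    rw [h2]
    exact ⟨algebraMap A R (ζ ^ i) * (σ ^ i) y, by ring⟩
  have h3 : ∀ n : ℕ, w ∣ (∏ i ∈ Finset.range n, (σ ^ i) x) - a ^ n := by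
    intro n
    induction n with
    | zero => simp
    | succ n ih =>
      rw [Finset.prod_range_succ, pow_succ]
      have h4 : (∏ i ∈ Finset.range n, (σ ^ i) x) * (σ ^ n) x - a ^ n * a
          = ((∏ i ∈ Finset.range n, (σ ^ i) x) - a ^ n) * (σ ^ n) x + a ^ n * ((σ ^ n) x - a) := by
        ring
      rw [h4]
      exact dvd_add (ih.mul_right _) ((h1 n).mul_left _)
  exact h3 m

include hfg hcop hdiff in
/-- the norm of a generator -/
lemma Cyc.Nm_gen {n : Fin r → ZMod m → ℕ} {φ : R} (hφ : II w ζ h g n = Ideal.span {φ}) :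
    ∃ u : A, IsUnit u ∧ Nm m σ φ = algebraMap A R (u * ∏ i, h i ^ (∑ j, n i j)) := by
  classical
  have h1 : ∀ t : ℕ, Ideal.span {(σ ^ t) φ}
      = II w ζ h g (fun i (j : ZMod m) => n i (j + (t : ZMod m))) := by
    intro t
    rw [← H.II_map_pow, hφ, Ideal.map_span, Set.image_singleton]
  have h2 : ∏ t ∈ Finset.range m, II w ζ h g (fun i (j : ZMod m) => n i (j + (t : ZMod m)))
      = II w ζ h g (fun i (_ : ZMod m) => ∑ j, n i j) := by
    have h3 : ∀ k : ℕ, ∏ t ∈ Finset.range k, II w ζ h g (fun i (j : ZMod m) => n i (j + (t : ZMod m)))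
        = II w ζ h g (fun i (j : ZMod m) => ∑ t ∈ Finset.range k, n i (j + (t : ZMod m))) := by
      intro k
      induction k with
      | zero =>
        unfold II
        simp only [Finset.range_zero, Finset.prod_empty, Finset.sum_empty, pow_zero,
          Finset.prod_const_one]
      | succ k ih =>
        rw [Finset.prod_range_succ, ih, ← II_add]
        congr 1
        funext i j
        rw [Finset.sum_range_succ]
    rw [h3 m]
    congr 1
    funext i j
    -- the sum over a full period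
    have h4 : ∑ t ∈ Finset.range m, n i (j + t) = ∑ t : ZMod m, n i (j + t) := by
      apply Finset.sum_bij' (fun (t : ℕ) _ => (t : ZMod m)) (fun (t : ZMod m) _ => t.val)
      · intro t _; exact Finset.mem_univ _
      · intro t _; exact Finset.mem_range.2 (ZMod.val_lt t)
      · intro t ht
        rw [ZMod.val_natCast, Nat.mod_eq_of_lt (Finset.mem_range.1 ht)]
      · intro t _
        rw [ZMod.natCast_val, ZMod.cast_id]
      · intro t _; rfl
    rw [h4]
    exact Equiv.sum_comp (Equiv.addLeft j) (fun t => n i t)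
  have h5 : Ideal.span {Nm m σ φ} = Ideal.span {algebraMap A R (∏ i, h i ^ (∑ j, n i j))} := by
    unfold Nm
    rw [← Ideal.prod_span_singleton, Finset.prod_congr rfl fun t _ => h1 t, h2,
      H.II_row hfg hcop hdiff]
  rw [Ideal.span_singleton_eq_span_singleton] at h5
  obtain ⟨c, hc⟩ := H.Nm_fixed φ
  rw [hc] at h5
  have h6 : Associated c (∏ i, h i ^ (∑ j, n i j)) := by
    rw [← dvd_dvd_iff_associated] at h5 ⊢
    constructor
    · have := (H.dvd_iff _ _).1 h5.1 ⟨0, H.pos⟩
      rwa [H.repr_alg, if_pos rfl] at this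
    · have := (H.dvd_iff _ _).1 h5.2 ⟨0, H.pos⟩
      rwa [H.repr_alg, if_pos rfl] at this
  obtain ⟨u, hu⟩ := h6.symm
  refine ⟨u, u.isUnit, ?_⟩
  rw [hc, ← hu, mul_comm]

include hfg hcop hdiff in
/-- **One step of the descent.** -/
theorem Cyc.step [UniqueFactorizationMonoid A] [IsNoetherianRing A] (hf : Prime f)
    (hh : ∀ i, h i ≠ 0)
    (hunits : ∀ u : A, IsUnit u → ∃ κ : A, IsUnit κ ∧ u = κ ^ m)
    (hδ : ∀ (a : Fin r → ℕ) (u y : A), IsUnit u → f ∣ y ^ m - u * ∏ i, h i ^ a i →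
      ∀ i i', (a i : ZMod m) = (a i' : ZMod m))
    {n : Fin r → ZMod m → ℕ} (hn : ∃ φ : R, II w ζ h g n = Ideal.span {φ}) :
    ∃ (c : ℕ) (β : Fin r → ℕ) (n' : Fin r → ZMod m → ℕ),
      (∃ φ : R, II w ζ h g n' = Ideal.span {φ}) ∧
      ∀ (i : Fin r) (j : ZMod m), β i + n' i (j + 1) = n' i j + n i j + (if j = 0 then c else 0) := by
  classical
  obtain ⟨φ, hφ⟩ := hn
  obtain ⟨u, hu, hNφ⟩ := H.Nm_gen hfg hcop hdiff hφ
  -- all the degrees are congruent
  have hcong : ∀ i i', ((∑ j, n i j : ℕ) : ZMod m) = ((∑ j, n i' j : ℕ) : ZMod m) := by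
    apply hδ _ u (b.repr φ ⟨0, H.pos⟩) hu
    apply H.dvd_of_w hf
    have h1 := H.Nm_congr φ
    rw [hNφ, ← map_pow, ← map_sub] at h1
    rw [← neg_sub, map_neg]
    exact (dvd_neg).2 h1
  obtain ⟨c, hc⟩ : ∃ c : ℕ, ∀ i, m ∣ (∑ j, n i j) + c := by
    by_cases hr : Nonempty (Fin r)
    · obtain ⟨i0⟩ := hr
      refine ⟨(-((∑ j, n i0 j : ℕ) : ZMod m)).val, fun i => ?_⟩
      rw [← ZMod.natCast_eq_zero_iff, Nat.cast_add, ZMod.natCast_val, ZMod.cast_id, hcong i i0,
        add_neg_cancel]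
    · exact ⟨0, fun i => absurd ⟨i⟩ hr⟩
  choose β hβ using hc
  -- the new generator
  obtain ⟨nh, hnh⟩ : ∃ nh : Fin r → ZMod m → ℕ, nh = fun i j => n i j + (if j = 0 then c else 0) :=
    ⟨_, rfl⟩
  have hsum : ∀ i, ∑ j, nh i j = m * β i := by
    intro i
    rw [← hβ i, hnh, Finset.sum_add_distrib, Finset.sum_ite_eq' Finset.univ (0 : ZMod m),
      if_pos (Finset.mem_univ _)]
  have hφ2 : II w ζ h g nh = Ideal.span {φ * vv w ζ g (0 : ZMod m) ^ c} := by
    rw [hnh, II_add, hφ, H.II_col hfg hcop, Ideal.span_singleton_mul_span_singleton]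
  obtain ⟨u', hu', hN2⟩ := H.Nm_gen hfg hcop hdiff hφ2
  obtain ⟨κ, hκ, hκm⟩ := hunits u' hu'
  obtain ⟨κ', hκκ⟩ := hκ
  set φ2 := φ * vv w ζ g (0 : ZMod m) ^ c with hφ2def
  set B : A := ∏ i, h i ^ β i with hB
  have hB0 : B ≠ 0 := Finset.prod_ne_zero_iff.2 fun i _ => pow_ne_zero _ (hh i)
  have hNB : Nm m σ φ2 = Nm m σ (algebraMap A R (κ * B)) := by
    rw [hN2, Nm_alg, ← map_pow]
    congr 1
    rw [hκm, mul_pow, hB, ← Finset.prod_pow]
    congr 1
    apply Finset.prod_congr rfl
    intro i _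
    rw [hsum, ← pow_mul, mul_comm]
  have hκ0 : κ ≠ 0 := by rw [← hκκ]; exact κ'.ne_zero
  have hKB : algebraMap A R (κ * B) ≠ 0 := fun h0 =>
    mul_ne_zero hκ0 hB0 (H.injA (by rw [h0, map_zero]))
  obtain ⟨θ, hθ, hθ2⟩ := H.h90 hf.ne_zero hKB hNB
  -- the new exponents
  obtain ⟨n', hn'⟩ : ∃ n' : Fin r → ZMod m → ℕ,
      n' = fun i j => β i * (m - j.val) + ∑ t ∈ Finset.range j.val, nh i (t : ZMod m) := ⟨_, rfl⟩
  have hrel : ∀ (i : Fin r) (j : ZMod m), β i + n' i (j + 1) = n' i j + nh i j := by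
    intro i j
    rw [hn']
    have hj := ZMod.val_lt j
    by_cases hlast : j.val + 1 = m
    · have h1 : j + 1 = 0 := by
        have h2 : ((j.val + 1 : ℕ) : ZMod m) = 0 := by rw [hlast, ZMod.natCast_self]
        rw [Nat.cast_add, ZMod.natCast_val, ZMod.cast_id, Nat.cast_one] at h2
        exact h2
      have h3 : ∑ t ∈ Finset.range j.val, nh i (t : ZMod m) + nh i j = m * β i := by
        rw [← hsum i]
        have h4 : ∑ t ∈ Finset.range m, nh i (t : ZMod m) = ∑ j, nh i j := by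
          apply Finset.sum_bij' (fun (t : ℕ) _ => (t : ZMod m)) (fun (t : ZMod m) _ => t.val)
          · intro t _; exact Finset.mem_univ _
          · intro t _; exact Finset.mem_range.2 (ZMod.val_lt t)
          · intro t ht
            rw [ZMod.val_natCast, Nat.mod_eq_of_lt (Finset.mem_range.1 ht)]
          · intro t _
            rw [ZMod.natCast_val, ZMod.cast_id]
          · intro t _; rfl
        have h5 : ∑ t ∈ Finset.range (j.val + 1), nh i (t : ZMod m)
            = ∑ t ∈ Finset.range j.val, nh i (t : ZMod m) + nh i j := by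
          rw [Finset.sum_range_succ, ZMod.natCast_val, ZMod.cast_id]
        rw [← h4, ← h5, hlast]
      simp only [h1, ZMod.val_zero, Finset.range_zero, Finset.sum_empty, Nat.sub_zero, add_zero]
      rw [show m - j.val = 1 by omega, add_assoc, h3]
      ring
    · have h1 : (j + 1).val = j.val + 1 := by
        have h2 : ((j.val + 1 : ℕ) : ZMod m) = j + 1 := by
          rw [Nat.cast_add, ZMod.natCast_val, ZMod.cast_id, Nat.cast_one]
        rw [← h2, ZMod.val_natCast, Nat.mod_eq_of_lt (by omega)]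
      simp only [h1]
      rw [Finset.sum_range_succ, ZMod.natCast_val, ZMod.cast_id,
        show m - j.val = (m - (j.val + 1)) + 1 by omega]
      ring
  have hrow := H.II_row hfg hcop hdiff β
  -- the invariant ideal
  have hinv : Ideal.map σ (Ideal.span {θ} * II w ζ h g n') = Ideal.span {θ} * II w ζ h g n' := by
    have hB1 : algebraMap A R B ≠ 0 := fun h0 => hB0 (H.injA (by rw [h0, map_zero]))
    rw [Ideal.map_mul, Ideal.map_span, Set.image_singleton, H.II_map]
    have h1 : Ideal.span {σ θ} * II w ζ h g nh = Ideal.span {θ} * Ideal.span {algebraMap A R B} := by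
      rw [hφ2, Ideal.span_singleton_mul_span_singleton, hθ2,
        Ideal.span_singleton_mul_span_singleton, Ideal.span_singleton_eq_span_singleton]
      refine ⟨(Units.map (algebraMap A R).toMonoidHom κ')⁻¹, ?_⟩
      rw [Units.mul_inv_eq_iff_eq_mul]
      show θ * algebraMap A R (κ * B) = θ * algebraMap A R B * algebraMap A R (κ' : A)
      rw [hκκ, map_mul]
      ring
    have h2 : Ideal.span {algebraMap A R B} * (Ideal.span {σ θ} * II w ζ h g (fun i j => n' i (j + 1)))
        = Ideal.span {algebraMap A R B} * (Ideal.span {θ} * II w ζ h g n') := by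
      calc Ideal.span {algebraMap A R B} * (Ideal.span {σ θ} * II w ζ h g (fun i j => n' i (j + 1)))
          = Ideal.span {σ θ} * (II w ζ h g (fun i (_ : ZMod m) => β i)
              * II w ζ h g (fun i j => n' i (j + 1))) := by rw [hrow]; ring
        _ = Ideal.span {σ θ} * (II w ζ h g nh * II w ζ h g n') := by
            rw [← II_add, ← II_add]
            congr 2
            funext i j
            rw [hrel, add_comm]
        _ = (Ideal.span {σ θ} * II w ζ h g nh) * II w ζ h g n' := by ring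
        _ = _ := by rw [h1]; ring
    exact (Ideal.span_singleton_mul_right_inj hB1).1 h2
  -- it is invertible
  obtain ⟨N, hN⟩ : ∃ N : ℕ, ∀ i j, n' i j ≤ N := by
    refine ⟨∑ i, ∑ j, n' i j, fun i j => ?_⟩
    calc n' i j ≤ ∑ j, n' i j := Finset.single_le_sum (f := fun j => n' i j)
          (fun _ _ => Nat.zero_le _) (Finset.mem_univ j)
      _ ≤ _ := Finset.single_le_sum (f := fun i => ∑ j, n' i j)
          (fun _ _ => Nat.zero_le _) (Finset.mem_univ i)
  obtain ⟨d1, hd1⟩ := H.Nm_fixed θ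
  have hinvt : (Ideal.span {θ} * II w ζ h g n') *
      (Ideal.span {∏ i ∈ Finset.Ico 1 m, (σ ^ i) θ} * II w ζ h g (fun i j => N - n' i j))
      = Ideal.span {algebraMap A R (d1 * ∏ i, h i ^ N)} := by
    have h1 : θ * ∏ i ∈ Finset.Ico 1 m, (σ ^ i) θ = algebraMap A R d1 := by
      rw [← hd1]
      unfold Nm
      rw [Finset.range_eq_Ico, Finset.prod_eq_prod_Ico_succ_bot H.pos, pow_zero]
      rfl
    have h2 : II w ζ h g n' * II w ζ h g (fun i j => N - n' i j)
        = Ideal.span {algebraMap A R (∏ i, h i ^ N)} := by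
      rw [← II_add, ← H.II_row hfg hcop hdiff (fun _ => N)]
      congr 1
      funext i j
      have := hN i j
      omega
    calc (Ideal.span {θ} * II w ζ h g n') *
        (Ideal.span {∏ i ∈ Finset.Ico 1 m, (σ ^ i) θ} * II w ζ h g (fun i j => N - n' i j))
        = (Ideal.span {θ} * Ideal.span {∏ i ∈ Finset.Ico 1 m, (σ ^ i) θ}) *
          (II w ζ h g n' * II w ζ h g (fun i j => N - n' i j)) := by ring
      _ = _ := by
        rw [h2, Ideal.span_singleton_mul_span_singleton, h1, Ideal.span_singleton_mul_span_singleton,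
          ← map_mul]
  have hd0 : d1 * ∏ i, h i ^ N ≠ 0 := by
    apply mul_ne_zero
    · intro h0
      rw [h0, map_zero] at hd1
      exact Nm_ne hθ hd1
    · exact Finset.prod_ne_zero_iff.2 fun i _ => pow_ne_zero _ (hh i)
  obtain ⟨ρ, hρ⟩ := H.principal hf (I := Ideal.span {θ} * II w ζ h g n')
    (fun x hx => by rw [← hinv]; exact Ideal.mem_map_of_mem σ hx) hd0 hinvt
  -- hence the new product is principal
  refine ⟨c, β, n', ?_, ?_⟩
  · have h1 : ρ ∈ Ideal.span {θ} * II w ζ h g n' := by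
      rw [hρ]; exact Ideal.mem_span_singleton_self _
    obtain ⟨ρ', _, hρ'⟩ := Ideal.mem_span_singleton_mul.1 h1
    refine ⟨ρ', ?_⟩
    rw [← hρ', ← Ideal.span_singleton_mul_span_singleton] at hρ
    exact (Ideal.span_singleton_mul_right_inj hθ).1 hρ
  · intro i j
    rw [hrel, hnh]
    ring

end core2

end Pool.Agent.T9h63.CU
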