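import Pool.Agent.T9h63.CU.Core2
import Pool.Agent.T9h63.CU.Clo

set_option autoImplicit false
set_option maxHeartbeats 1000000

/-!
The relations between the classes of the ideals `(h i, w - z g)`.
-/

namespace Pool.Agent.T9h63.CU

section core3

variable {A R : Type*} [CommRing A] [IsDomain A] [CommRing R] [IsDomain R] [Algebra A R] {m : ℕ}
  [NeZero m] {f ζ : A} {w : R} {σ : R ≃ₐ[A] R} {b : Module.Basis (Fin m) A R}
  (H : Cyc m f ζ w σ b) {r : ℕ} {h : Fin r → A} {g : A}
  (hfg : f = g ^ m + ∏ i, h i)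
  (hcop : ∀ i i', i ≠ i' → Ideal.span {g, h i, h i'} = ⊤)
  (hdiff : ∀ i, 0 < i → i < m → IsUnit (1 - ζ ^ i))

include H hfg hcop hdiff

/-- the trivial relations -/
lemma Cyc.trivial_rel {n : Fin r → ZMod m → ℕ}
    (hn : ∀ i i' j j', n i j + n i' j' = n i j' + n i' j) :
    ∃ φ : R, II w ζ h g n = Ideal.span {φ} := by
  classical
  rcases isEmpty_or_nonempty (Fin r) with hr | hr
  · refine ⟨1, ?_⟩
    unfold II
    rw [Finset.univ_eq_empty, Finset.prod_empty, Ideal.span_singleton_one, Ideal.one_eq_top]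
  obtain ⟨i0, _, hi0⟩ := Finset.exists_min_image Finset.univ (fun i => n i (0 : ZMod m))
    Finset.univ_nonempty
  have h1 : n = fun i j => (n i (0 : ZMod m) - n i0 (0 : ZMod m)) + n i0 j := by
    funext i j
    have h2 := hn i i0 j 0
    have h3 := hi0 i (Finset.mem_univ _)
    omega
  have h2 : II w ζ h g (fun (_ : Fin r) j => n i0 j)
      = Ideal.span {∏ j, vv w ζ g j ^ n i0 j} := by
    unfold II
    rw [Finset.prod_comm, ← Ideal.prod_span_singleton]
    apply Finset.prod_congr rfl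
    intro j _
    rw [Finset.prod_pow, H.prod_i hfg hcop, Ideal.span_singleton_pow]
  rw [h1, II_add, H.II_row hfg hcop hdiff, h2, Ideal.span_singleton_mul_span_singleton]
  exact ⟨_, rfl⟩

/-- **All the relations.** -/
theorem Cyc.relations [UniqueFactorizationMonoid A] [IsNoetherianRing A] (hf : Prime f)
    (hh : ∀ i, h i ≠ 0)
    (hunits : ∀ u : A, IsUnit u → ∃ κ : A, IsUnit κ ∧ u = κ ^ m)
    (hδ : ∀ (a : Fin r → ℕ) (u y : A), IsUnit u → f ∣ y ^ m - u * ∏ i, h i ^ a i →
      ∀ i i', (a i : ZMod m) = (a i' : ZMod m))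
    {l a : ℕ} (hl : l.Prime) (hm : m = l ^ a) (n : Fin r → ZMod m → ℕ) :
    (∃ φ : R, II w ζ h g n = Ideal.span {φ}) ↔
      ∀ i i' j j', n i j + n i' j' = n i j' + n i' j := by
  constructor
  · intro hn i i' j j'
    exact closing hl hm (P := fun n => ∃ φ : R, II w ζ h g n = Ideal.span {φ})
      (fun n hn => H.step hfg hcop hdiff hf hh hunits hδ hn) hn i i' j j'
  · exact H.trivial_rel hfg hcop hdiff

end core3

end Pool.Agent.T9h63.CU
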