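import Pool.Agent.T9h63.CU.Ker

set_option autoImplicit false
set_option maxHeartbeats 1000000

/-!
Powers modulo the equation of a plane curve: the condition at the points at infinity.
-/

namespace Pool.Agent.T9h63.CU

open MvPolynomial

section del

variable {K : Type*} [Field K] [IsAlgClosed K]

/-- a nonconstant form in two variables has a nontrivial zero -/
lemma exists_zero {F : MvPolynomial (Fin 2) K} {d : ℕ} (hF : F.IsHomogeneous d) (hd : 0 < d) :
    ∃ P : Fin 2 → K, P ≠ 0 ∧ eval P F = 0 := by
  by_cases h0 : eval ![0, 1] F = 0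
  · exact ⟨![0, 1], fun h => one_ne_zero (congrFun h 1), h0⟩
  · -- `F (1, 0 + Y)`
    obtain ⟨h1, h2⟩ := ln_homog ![1, 0] ![0, 1] hF
    have h3 : (ln ![1, 0] ![0, 1] F).degree ≠ 0 := by
      intro h
      have h4 : (ln ![1, 0] ![0, 1] F).natDegree = 0 := Polynomial.natDegree_eq_of_degree_eq_some h
      rw [Polynomial.coeff_eq_zero_of_natDegree_lt (by omega)] at h2
      exact h0 h2.symm
    obtain ⟨y, hy⟩ := IsAlgClosed.exists_root _ h3
    refine ⟨fun i => (![1, 0] : Fin 2 → K) i + y * (![0, 1] : Fin 2 → K) i, ?_, ?_⟩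
    · intro h
      have := congrFun h 0
      simp at this
    · have h5 : ∀ p : MvPolynomial (Fin 2) K, (ln ![1, 0] ![0, 1] p).eval y
          = eval (fun i => (![1, 0] : Fin 2 → K) i + y * (![0, 1] : Fin 2 → K) i) p := by
        intro p
        induction p using MvPolynomial.induction_on with
        | C c =>
          rw [show ln ![1, 0] ![0, 1] (C c) = Polynomial.C c from
            (ln (K := K) ![1, 0] ![0, 1]).commutes c]
          simp
        | add p q hp hq => rw [map_add, Polynomial.eval_add, hp, hq, map_add]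
        | mul_X p j hp =>
          rw [map_mul, Polynomial.eval_mul, hp, ln_X, map_mul, eval_X, Polynomial.eval_add,
            Polynomial.eval_mul, Polynomial.eval_C, Polynomial.eval_C, Polynomial.eval_X]
      rw [← h5]
      exact hy

omit [IsAlgClosed K] in
/-- the leading form of a product -/
lemma hc_prod {r : ℕ} (h : Fin r → MvPolynomial (Fin 2) K) (S : Finset (Fin r)) :
    homogeneousComponent (∑ i ∈ S, (h i).totalDegree) (∏ i ∈ S, h i)
      = ∏ i ∈ S, homogeneousComponent (h i).totalDegree (h i) := by
  classical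
  induction S using Finset.induction_on with
  | empty =>
    rw [Finset.sum_empty, Finset.prod_empty, Finset.prod_empty]
    exact homogeneousComponent_eq_self (isHomogeneous_one _ _)
  | insert i S hi ih =>
    rw [Finset.sum_insert hi, Finset.prod_insert hi, Finset.prod_insert hi, ← ih]
    -- leading components multiply
    have hmul : ∀ (p q : MvPolynomial (Fin 2) K) (c d : ℕ), p.totalDegree ≤ c → q.totalDegree ≤ d →
        homogeneousComponent (c + d) (p * q)
          = homogeneousComponent c p * homogeneousComponent d q := by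
      intro p q c d hc hd
      have hp : p = ∑ k ∈ Finset.range (c + 1), homogeneousComponent k p := by
        conv_lhs => rw [← sum_homogeneousComponent p]
        apply Finset.sum_subset
        · intro k hk
          rw [Finset.mem_range] at hk ⊢
          omega
        · intro k _ hk
          apply homogeneousComponent_eq_zero
          rw [Finset.mem_range] at hk
          omega
      have hq : q = ∑ k ∈ Finset.range (d + 1), homogeneousComponent k q := by
        conv_lhs => rw [← sum_homogeneousComponent q]
        apply Finset.sum_subset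
        · intro k hk
          rw [Finset.mem_range] at hk ⊢
          omega
        · intro k _ hk
          apply homogeneousComponent_eq_zero
          rw [Finset.mem_range] at hk
          omega
      conv_lhs => rw [hp, hq]
      rw [Finset.sum_mul_sum, map_sum]
      rw [Finset.sum_eq_single c]
      · rw [map_sum, Finset.sum_eq_single d]
        · exact homogeneousComponent_eq_self
            ((homogeneousComponent_isHomogeneous c p).mul (homogeneousComponent_isHomogeneous d q))
        · intro k hk hne
          rw [homogeneousComponent_of_mem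
            ((homogeneousComponent_isHomogeneous c p).mul (homogeneousComponent_isHomogeneous k q)),
            if_neg (by omega)]
        · intro h
          exact absurd (Finset.mem_range.2 (Nat.lt_succ_self d)) h
      · intro k hk hne
        rw [map_sum]
        apply Finset.sum_eq_zero
        intro k' hk'
        have e1 := Finset.mem_range.1 hk
        have e2 := Finset.mem_range.1 hk'
        rw [homogeneousComponent_of_mem
            ((homogeneousComponent_isHomogeneous k p).mul (homogeneousComponent_isHomogeneous k' q)),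
            if_neg (by omega)]
      · intro h
        exact absurd (Finset.mem_range.2 (Nat.lt_succ_self c)) h
    exact hmul _ _ _ _ le_rfl (totalDegree_finset_prod _ _)

omit [IsAlgClosed K] in
lemma exists_dir [Infinite K] {F : MvPolynomial (Fin 2) K} {P : Fin 2 → K}
    (h : ∃ s, eval P (pderiv s F) ≠ 0) :
    ∃ r : Fin 2 → K, ∑ i, r i * eval P (pderiv i F) ≠ 0 ∧ eval r F ≠ 0 := by
  classical
  obtain ⟨s, hs⟩ := h
  have hF : F ≠ 0 := by
    rintro rfl
    rw [map_zero, map_zero] at hs
    exact hs rfl
  have hL : (∑ i, C (eval P (pderiv i F)) * X i : MvPolynomial (Fin 2) K) ≠ 0 := by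
    intro h0
    have h1 := congrArg (eval (fun i => if i = s then (1 : K) else 0)) h0
    rw [map_sum, map_zero] at h1
    simp only [map_mul, eval_C, eval_X, mul_ite, mul_one, mul_zero, Finset.sum_ite_eq',
      Finset.mem_univ, if_true] at h1
    exact hs h1
  by_contra hno
  push Not at hno
  apply mul_ne_zero hL hF
  apply MvPolynomial.funext
  intro r
  rw [map_mul, map_zero]
  by_cases h1 : ∑ i, r i * eval P (pderiv i F) = 0
  · have h2 : eval r (∑ i, C (eval P (pderiv i F)) * X i : MvPolynomial (Fin 2) K) = 0 := by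
      rw [map_sum, ← h1]
      apply Finset.sum_congr rfl
      intro i _
      rw [map_mul, eval_C, eval_X, mul_comm]
    rw [h2, zero_mul]
  · rw [hno r h1, mul_zero]

variable {m r : ℕ} {h : Fin r → MvPolynomial (Fin 2) K} {g f : MvPolynomial (Fin 2) K}

omit [IsAlgClosed K] in
lemma top_f (hfg : f = g ^ m + ∏ i, h i)
    (hg : m * g.totalDegree < ∑ i, (h i).totalDegree) :
    f.totalDegree ≤ ∑ i, (h i).totalDegree ∧
    homogeneousComponent (∑ i, (h i).totalDegree) f
      = ∏ i, homogeneousComponent (h i).totalDegree (h i) := by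
  have h1 : (g ^ m).totalDegree ≤ m * g.totalDegree := totalDegree_pow _ _
  constructor
  · rw [hfg]
    apply (totalDegree_add _ _).trans
    exact max_le (h1.trans hg.le) (totalDegree_finset_prod _ _)
  · rw [hfg, map_add, homogeneousComponent_eq_zero _ _ (lt_of_le_of_lt h1 hg), zero_add, hc_prod]

/-- the condition at the points at infinity of the curve `h i = 0` -/
lemma place (hfg : f = g ^ m + ∏ i, h i) (hf : Prime f) (hd : ∀ i, 0 < (h i).totalDegree)
    (hg : m * g.totalDegree < ∑ i, (h i).totalDegree)
    (htop : ∀ P : Fin 2 → K, P ≠ 0 →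
      eval P (∏ i, homogeneousComponent (h i).totalDegree (h i)) = 0 →
      ∃ s, eval P (pderiv s (∏ i, homogeneousComponent (h i).totalDegree (h i))) ≠ 0)
    {a : Fin r → ℕ} {u y : MvPolynomial (Fin 2) K} (hu : IsUnit u)
    (hy : f ∣ y ^ m - u * ∏ i, h i ^ a i) {i i' : Fin r} (hne : i ≠ i') :
    (m : ℤ) ∣ a i * (∑ t, (h t).totalDegree : ℕ) - (∑ t, a t * (h t).totalDegree : ℕ) := by
  classical
  obtain ⟨P, hP, hP0⟩ := exists_zero (homogeneousComponent_isHomogeneous (h i).totalDegree (h i)) (hd i)
  set D := ∑ t, (h t).totalDegree with hD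
  set F := ∏ t, homogeneousComponent (h t).totalDegree (h t) with hF
  have hFs : F = homogeneousComponent (h i).totalDegree (h i) *
      ∏ t ∈ Finset.univ.erase i, homogeneousComponent (h t).totalDegree (h t) :=
    (Finset.mul_prod_erase _ _ (Finset.mem_univ i)).symm
  have hFP : eval P F = 0 := by rw [hFs, map_mul, hP0, zero_mul]
  obtain ⟨s, hs⟩ := htop P hP hFP
  have hoth : ∀ t, t ≠ i → eval P (homogeneousComponent (h t).totalDegree (h t)) ≠ 0 := by
    intro t ht h0
    apply hs
    rw [hFs, pderiv_mul, map_add, map_mul, map_mul, hP0, zero_mul, add_zero, map_prod,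
      Finset.prod_eq_zero (Finset.mem_erase.2 ⟨ht, Finset.mem_univ t⟩) h0, mul_zero]
  haveI : Infinite K := IsAlgClosed.instInfinite
  obtain ⟨R, hR1, hR2⟩ := exists_dir ⟨s, hs⟩
  obtain ⟨hdeg, htopf⟩ := top_f hfg hg
  rw [← hD, ← hF] at htopf
  rw [← hD] at hdeg
  obtain ⟨Y, hY, hY0⟩ := exists_arc (D := D) (f := f) (P := P) (r := R)
    (by rw [htopf]; exact hFP) (by rw [htopf]; exact hR1) (by rw [htopf]; exact hR2)
  have hχf := chi_f hdeg hY
  have hodd : ∀ t, t ≠ i → chi P R Y (h t) ≠ 0 ∧
      (chi P R Y (h t)).order = -((h t).totalDegree : ℤ) :=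
    fun t ht => order_chi hY0 le_rfl (hoth t ht)
  have hi0 : chi P R Y (h i) ≠ 0 := by
    intro h0
    have h1 := ker_chi hf hY0 hP hχf h0
    have hhi : h i ≠ 0 := by
      intro h2
      have := hd i
      rw [h2, totalDegree_zero] at this
      exact lt_irrefl _ this
    obtain ⟨c, hc⟩ := h1
    have hc0 : c ≠ 0 := by
      rintro rfl
      exact hhi (by rw [hc, mul_zero])
    have h3 : (h i).totalDegree = f.totalDegree + c.totalDegree := by
      rw [hc, totalDegree_mul_of_isDomain hf.ne_zero hc0]
    have h4 : D ≤ f.totalDegree := by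
      by_contra hlt
      push Not at hlt
      have h5 := homogeneousComponent_eq_zero D f hlt
      rw [htopf] at h5
      rw [h5, map_zero] at hR2
      exact hR2 rfl
    have h6 : (h i).totalDegree + (h i').totalDegree ≤ D := by
      rw [hD, ← Finset.add_sum_erase _ _ (Finset.mem_univ i)]
      have := Finset.single_le_sum (f := fun t => (h t).totalDegree) (s := Finset.univ.erase i)
        (fun _ _ => Nat.zero_le _) (Finset.mem_erase.2 ⟨hne.symm, Finset.mem_univ i'⟩)
      exact Nat.add_le_add_left this _
    have := hd i'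
    omega
  have hall : ∀ t, chi P R Y (h t) ≠ 0 := by
    intro t
    by_cases ht : t = i
    · rw [ht]; exact hi0
    · exact (hodd t ht).1
  set o := (chi P R Y (h i)).order with ho
  -- orders of products
  have hprod : ∀ c : Fin r → ℕ, (∏ t, chi P R Y (h t) ^ c t) ≠ 0 ∧
      (∏ t, chi P R Y (h t) ^ c t).order
        = c i * o - (((∑ t, c t * (h t).totalDegree : ℕ) : ℤ) - c i * (h i).totalDegree) := by
    intro c
    have h1 : ∀ S : Finset (Fin r), (∏ t ∈ S, chi P R Y (h t) ^ c t) ≠ 0 ∧
        (∏ t ∈ S, chi P R Y (h t) ^ c t).order = ∑ t ∈ S, (c t : ℤ) * (chi P R Y (h t)).order := by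
      intro S
      induction S using Finset.induction_on with
      | empty => simp
      | insert t S ht ih =>
        rw [Finset.prod_insert ht, Finset.sum_insert ht]
        have h2 : chi P R Y (h t) ^ c t ≠ 0 := pow_ne_zero _ (hall t)
        refine ⟨mul_ne_zero h2 ih.1, ?_⟩
        rw [HahnSeries.order_mul h2 ih.1, ih.2, HahnSeries.order_pow, nsmul_eq_mul]
    refine ⟨(h1 Finset.univ).1, ?_⟩
    rw [(h1 Finset.univ).2, ← Finset.add_sum_erase _ _ (Finset.mem_univ i), ← ho]
    have h3 : ((∑ t, c t * (h t).totalDegree : ℕ) : ℤ) - c i * (h i).totalDegree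
        = ∑ t ∈ Finset.univ.erase i, (c t : ℤ) * (h t).totalDegree := by
      push_cast
      rw [← Finset.add_sum_erase _ _ (Finset.mem_univ i)]
      ring
    rw [h3, sub_eq_add_neg, ← Finset.sum_neg_distrib]
    congr 1
    apply Finset.sum_congr rfl
    intro t ht
    rw [(hodd t (Finset.mem_erase.1 ht).1).2]
    ring
  -- the equation of the curve
  have e1 : chi P R Y g ^ m = - ∏ t, chi P R Y (h t) ^ 1 := by
    have h1 := congrArg (chi P R Y) hfg
    rw [hχf, map_add, map_pow, map_prod] at h1
    simp only [pow_one]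
    exact eq_neg_of_add_eq_zero_left h1.symm
  have e1' : (m : ℤ) * (chi P R Y g).order = o - ((D : ℤ) - (h i).totalDegree) := by
    have h2 := congrArg HahnSeries.order e1
    rw [HahnSeries.order_neg, HahnSeries.order_pow, (hprod fun _ => 1).2, nsmul_eq_mul] at h2
    rw [h2]
    simp only [one_mul, Nat.cast_one, hD]
  -- the relation
  obtain ⟨q, hq⟩ := hy
  obtain ⟨c, hc, huc⟩ : ∃ c : K, c ≠ 0 ∧ u = C c := by
    obtain ⟨c, hc, h1⟩ := (MvPolynomial.isUnit_iff_eq_C_of_isReduced).1 hu
    exact ⟨c, hc.ne_zero, h1⟩
  have e2 : chi P R Y y ^ m = algebraMap K (LaurentSeries K) c * ∏ t, chi P R Y (h t) ^ a t := by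
    have h1 := congrArg (chi P R Y) hq
    rw [map_mul, hχf, zero_mul, map_sub, map_mul, map_pow, map_prod] at h1
    simp only [map_pow] at h1
    rw [sub_eq_zero] at h1
    rw [h1, huc]
    congr 1
    exact (chi P R Y).commutes c
  have hcc : algebraMap K (LaurentSeries K) c ≠ 0 ∧ (algebraMap K (LaurentSeries K) c).order = 0 := by
    have h1 := order_unit (K := K) (v := PowerSeries.C c) (by rwa [PowerSeries.constantCoeff_C])
    exact h1
  have e2' : (m : ℤ) * (chi P R Y y).order
      = a i * o - (((∑ t, a t * (h t).totalDegree : ℕ) : ℤ) - a i * (h i).totalDegree) := by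
    have h2 := congrArg HahnSeries.order e2
    rw [HahnSeries.order_mul hcc.1 (hprod a).1, hcc.2, HahnSeries.order_pow, (hprod a).2,
      nsmul_eq_mul, zero_add] at h2
    exact h2
  refine ⟨(chi P R Y y).order - a i * (chi P R Y g).order, ?_⟩
  have e3 : (a i : ℤ) * ((m : ℤ) * (chi P R Y g).order) = a i * (o - ((D : ℤ) - (h i).totalDegree)) := by
    rw [e1']
  linear_combination (-1 : ℤ) * e2' + e3

/-- **Powers modulo the equation of the curve.** -/
theorem delta (hfg : f = g ^ m + ∏ i, h i) (hf : Prime f) (hd : ∀ i, 0 < (h i).totalDegree)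
    (hg : m * g.totalDegree < ∑ i, (h i).totalDegree)
    (hcop : Nat.Coprime m (∑ i, (h i).totalDegree))
    (htop : ∀ P : Fin 2 → K, P ≠ 0 →
      eval P (∏ i, homogeneousComponent (h i).totalDegree (h i)) = 0 →
      ∃ s, eval P (pderiv s (∏ i, homogeneousComponent (h i).totalDegree (h i))) ≠ 0)
    (a : Fin r → ℕ) (u y : MvPolynomial (Fin 2) K) (hu : IsUnit u)
    (hy : f ∣ y ^ m - u * ∏ i, h i ^ a i) (i i' : Fin r) : (a i : ZMod m) = (a i' : ZMod m) := by
  by_cases hne : i = i'
  · rw [hne]
  have h1 := place hfg hf hd hg htop hu hy hne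
  have h2 := place hfg hf hd hg htop hu hy (Ne.symm hne)
  have h3 := dvd_sub h1 h2
  have h4 : (m : ℤ) ∣ ((a i : ℤ) - a i') * (∑ t, (h t).totalDegree : ℕ) := by
    rw [sub_sub_sub_cancel_right, ← sub_mul] at h3
    exact h3
  have h5 : IsCoprime (m : ℤ) ((∑ t, (h t).totalDegree : ℕ) : ℤ) := Nat.isCoprime_iff_coprime.2 hcop
  have h6 := h5.dvd_of_dvd_mul_right h4
  have h7 := (ZMod.intCast_zmod_eq_zero_iff_dvd ((a i : ℤ) - a i') m).2 h6
  push_cast at h7
  exact sub_eq_zero.1 h7

end del

end Pool.Agent.T9h63.CU
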