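import Pool.Agent.T9h63.CU.Core3
import Pool.Agent.T9h63.CU.Del

set_option autoImplicit false
set_option maxHeartbeats 1000000

/-!
The ring `A[w]`, `w ^ m = f`.
-/

namespace Pool.Agent.T9h63.CU

open Polynomial

section inst

variable {A : Type*} [CommRing A] [IsDomain A]

/-- the ring `A[w]`, `w ^ m = f` -/
abbrev Rg (m : ℕ) (f : A) : Type _ := AdjoinRoot (X ^ m - C f : A[X])

/-- the element `w` -/
noncomputable def rw' (m : ℕ) (f : A) : Rg m f := AdjoinRoot.root _

lemma rw'_pow (m : ℕ) (f : A) : rw' m f ^ m = algebraMap A (Rg m f) f := by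
  have h := AdjoinRoot.eval₂_root (X ^ m - C f : A[X])
  rw [eval₂_sub, eval₂_pow, eval₂_X, eval₂_C, sub_eq_zero] at h
  exact h

/-- the basis of the powers of `w` -/
noncomputable def bas {m : ℕ} (hm : m ≠ 0) (f : A) : Module.Basis (Fin m) A (Rg m f) :=
  (AdjoinRoot.powerBasis' (monic_X_pow_sub_C f hm)).basis.reindex
    (finCongr (by rw [AdjoinRoot.powerBasis'_dim, natDegree_X_pow_sub_C]))

lemma bas_apply {m : ℕ} (hm : m ≠ 0) (f : A) (i : Fin m) : bas hm f i = rw' m f ^ (i : ℕ) := by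
  unfold bas
  rw [Module.Basis.reindex_apply, PowerBasis.basis_eq_pow, AdjoinRoot.powerBasis'_gen]
  rfl

/-- `w ↦ z w` as a homomorphism -/
noncomputable def sgh {m : ℕ} (f : A) {z : A} (hz : z ^ m = 1) : Rg m f →ₐ[A] Rg m f :=
  AdjoinRoot.liftAlgHom _ (Algebra.ofId A (Rg m f)) (algebraMap A (Rg m f) z * rw' m f) (by
    rw [eval₂_sub, eval₂_pow, eval₂_X, eval₂_C, mul_pow, rw'_pow, ← map_pow, hz, map_one, one_mul]
    exact sub_self _)

lemma sgh_w {m : ℕ} (f : A) {z : A} (hz : z ^ m = 1) :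
    sgh f hz (rw' m f) = algebraMap A (Rg m f) z * rw' m f := by
  unfold sgh rw'
  rw [AdjoinRoot.liftAlgHom_root]

omit [IsDomain A] in
lemma inv_pw {m : ℕ} {z : A} (hz : z ^ m = 1) : (z ^ (m - 1)) ^ m = 1 := by
  rw [← pow_mul, mul_comm, pow_mul, hz, one_pow]

/-- `w ↦ z w` -/
noncomputable def sg {m : ℕ} (hm : m ≠ 0) (f : A) {z : A} (hz : z ^ m = 1) :
    Rg m f ≃ₐ[A] Rg m f :=
  AlgEquiv.ofAlgHom (sgh f hz) (sgh f (inv_pw hz))
    (by
      apply AdjoinRoot.algHom_ext
      show sgh f hz (sgh f (inv_pw hz) (rw' m f)) = rw' m f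
      rw [sgh_w, map_mul, sgh_w, AlgHom.commutes, ← mul_assoc, ← map_mul, ← pow_succ,
        Nat.sub_add_cancel (Nat.pos_of_ne_zero hm), hz, map_one, one_mul])
    (by
      apply AdjoinRoot.algHom_ext
      show sgh f (inv_pw hz) (sgh f hz (rw' m f)) = rw' m f
      rw [sgh_w, map_mul, sgh_w, AlgHom.commutes, ← mul_assoc, ← map_mul, ← pow_succ',
        Nat.sub_add_cancel (Nat.pos_of_ne_zero hm), hz, map_one, one_mul])

lemma sg_w {m : ℕ} (hm : m ≠ 0) (f : A) {z : A} (hz : z ^ m = 1) :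
    sg hm f hz (rw' m f) = algebraMap A (Rg m f) z * rw' m f := sgh_w f hz

lemma cyc {m : ℕ} (hm : m ≠ 0) (f : A) {z : A} (hz : IsPrimitiveRoot z m) (hmu : IsUnit (m : A)) :
    Cyc m f z (rw' m f) (sg hm f hz.pow_eq_one) (bas hm f) where
  pos := Nat.pos_of_ne_zero hm
  hw := rw'_pow m f
  hb := bas_apply hm f
  hσ := sg_w hm f _
  hζ := hz.pow_eq_one
  hm := hmu
  orth := by
    intro t ht
    have h1 : z ^ t ≠ 1 := fun h => ht (hz.dvd_of_pow_eq_one t h)
    have h2 : (∑ j ∈ Finset.range m, (z ^ t) ^ j) * (z ^ t - 1) = 0 := by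
      rw [geom_sum_mul, ← pow_mul, mul_comm, pow_mul, hz.pow_eq_one, one_pow, sub_self]
    rcases mul_eq_zero.1 h2 with h3 | h3
    · rw [← h3]
      apply Finset.sum_congr rfl
      intro j _
      rw [← pow_mul, mul_comm]
    · exact absurd (sub_eq_zero.1 h3) h1

lemma isDomain_Rg [UniqueFactorizationMonoid A] {m : ℕ} (hm : m ≠ 0) {f : A} (hf : Prime f) :
    IsDomain (Rg m f) := by
  apply AdjoinRoot.isDomain_of_prime
  have hmon := monic_X_pow_sub_C f hm
  have hpr : (Ideal.span {f}).IsPrime := (Ideal.span_singleton_prime hf.ne_zero).2 hf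
  have hdeg : (X ^ m - C f : A[X]).degree = m := degree_X_pow_sub_C (Nat.pos_of_ne_zero hm) f
  apply Irreducible.prime
  apply irreducible_of_eisenstein_criterion hpr
  · rw [hmon.leadingCoeff]
    exact fun h => hpr.ne_top ((Ideal.eq_top_iff_one _).2 h)
  · intro n hn
    rw [hdeg] at hn
    have hn' : n < m := by exact_mod_cast hn
    rw [coeff_sub, coeff_X_pow, if_neg hn'.ne, zero_sub]
    apply neg_mem
    rw [coeff_C]
    split_ifs
    · exact Ideal.mem_span_singleton_self f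
    · exact zero_mem _
  · rw [hdeg]
    exact_mod_cast Nat.pos_of_ne_zero hm
  · rw [coeff_sub, coeff_X_pow, if_neg (Ne.symm hm), coeff_C_zero, zero_sub,
      Ideal.span_singleton_pow, neg_mem_iff, Ideal.mem_span_singleton]
    rintro ⟨c, hc⟩
    have h1 : f * (1 - f * c) = 0 := by
      rw [mul_sub, mul_one, ← mul_assoc, ← sq, ← hc, sub_self]
    rcases mul_eq_zero.1 h1 with h2 | h2
    · exact hf.ne_zero h2
    · exact hf.not_unit (IsUnit.of_mul_eq_one c (sub_eq_zero.1 h2).symm)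
  · exact hmon.isPrimitive

end inst

section main

variable {K : Type*} [Field K] [IsAlgClosed K]

/-- **All the relations between the classes of the curves `h i = 0`, `w = z ^ j g`.** -/
theorem rel_main {l a m : ℕ} (hl : l.Prime) (hm : m = l ^ a) (hK : (l : K) ≠ 0) {z : K}
    (hz : IsPrimitiveRoot z m) {r : ℕ} {h : Fin r → MvPolynomial (Fin 2) K}
    {g f : MvPolynomial (Fin 2) K} (hfg : f = g ^ m + ∏ i, h i) (hf : Irreducible f)
    (hd : ∀ i, 0 < (h i).totalDegree)
    (hg : m * g.totalDegree < ∑ i, (h i).totalDegree)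
    (hcopr : Nat.Coprime l (∑ i, (h i).totalDegree))
    (htop : ∀ P : Fin 2 → K, P ≠ 0 →
      MvPolynomial.eval P (∏ i, MvPolynomial.homogeneousComponent (h i).totalDegree (h i)) = 0 →
      ∃ s, MvPolynomial.eval P (MvPolynomial.pderiv s
        (∏ i, MvPolynomial.homogeneousComponent (h i).totalDegree (h i))) ≠ 0)
    (hcop : ∀ i i', i ≠ i' → Ideal.span {g, h i, h i'} = ⊤)
    (n : Fin r → ZMod m → ℕ) :
    haveI : NeZero m := ⟨by rw [hm]; exact pow_ne_zero _ hl.ne_zero⟩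
    (∃ φ : Rg m f, II (rw' m f) (MvPolynomial.C z) h g n = Ideal.span {φ}) ↔
      ∀ i i' j j', n i j + n i' j' = n i j' + n i' j := by
  have hm0 : m ≠ 0 := by rw [hm]; exact pow_ne_zero _ hl.ne_zero
  haveI : NeZero m := ⟨hm0⟩
  have hmK : (m : K) ≠ 0 := by rw [hm]; push_cast; exact pow_ne_zero _ hK
  have hmu : IsUnit (m : MvPolynomial (Fin 2) K) := by
    rw [← map_natCast (MvPolynomial.C (σ := Fin 2) (R := K))]
    exact hmK.isUnit.map _
  have hzA : IsPrimitiveRoot (MvPolynomial.C z : MvPolynomial (Fin 2) K) m :=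
    hz.map_of_injective (MvPolynomial.C_injective (Fin 2) K)
  haveI : IsDomain (Rg m f) := isDomain_Rg hm0 hf.prime
  have H := cyc hm0 f hzA hmu
  have hdiff : ∀ i, 0 < i → i < m → IsUnit (1 - (MvPolynomial.C z : MvPolynomial (Fin 2) K) ^ i) := by
    intro i h0 hi
    rw [← map_pow, ← map_one (MvPolynomial.C (σ := Fin 2) (R := K)), ← map_sub]
    apply IsUnit.map
    apply Ne.isUnit
    intro h
    exact hz.pow_ne_one_of_pos_of_lt h0.ne' hi (sub_eq_zero.1 h).symm
  have hunits : ∀ u : MvPolynomial (Fin 2) K, IsUnit u →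
      ∃ κ : MvPolynomial (Fin 2) K, IsUnit κ ∧ u = κ ^ m := by
    intro u hu
    obtain ⟨c, hc, h1⟩ := MvPolynomial.isUnit_iff_eq_C_of_isReduced.1 hu
    obtain ⟨c', hc'⟩ := IsAlgClosed.exists_pow_nat_eq c (Nat.pos_of_ne_zero hm0)
    refine ⟨MvPolynomial.C c', ?_, ?_⟩
    · apply IsUnit.map
      apply Ne.isUnit
      rintro rfl
      rw [zero_pow hm0] at hc'
      exact hc.ne_zero hc'.symm
    · rw [← map_pow, hc', h1]
  have hh : ∀ i, h i ≠ 0 := by
    intro i h0
    have := hd i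
    rw [h0, MvPolynomial.totalDegree_zero] at this
    exact lt_irrefl _ this
  exact H.relations hfg hcop hdiff hf.prime hh hunits
    (fun a u y hu hy i i' => delta hfg hf.prime hd hg
      (by rw [hm]; exact Nat.Coprime.pow_left _ hcopr) htop a u y hu hy i i') hl hm n

end main

end Pool.Agent.T9h63.CU
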