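import Pool.Agent.T9h63.CU.Surf
import Pool.Agent.T9h63.CU.Cls
import Pool.Agent.T9h63.CU.Inst

set_option autoImplicit false
set_option maxHeartbeats 1000000

/-!
The Tate conjecture for the surfaces `w ^ m = g ^ m + h_1 ... h_r`.
-/

namespace Pool.Agent.T9h63.CU

open Function Polynomial Pool.Agent.W555.TC Pool.Agent.T9h63.KT

section conv

variable {F : Type*} [Field F]

lemma top_of_points [IsAlgClosed F] {g h1 h2 : MvPolynomial (Fin 2) F}
    (h : ∀ P : Fin 2 → F, MvPolynomial.eval P g = 0 → MvPolynomial.eval P h1 = 0 →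
      MvPolynomial.eval P h2 = 0 → False) : Ideal.span {g, h1, h2} = ⊤ := by
  by_contra hne
  obtain ⟨M, hM, hle⟩ := Ideal.exists_le_maximal _ hne
  obtain ⟨x, hx⟩ := MvPolynomial.isMaximal_iff_eq_vanishingIdeal_singleton.1 hM
  have h3 : ∀ p ∈ ({g, h1, h2} : Set (MvPolynomial (Fin 2) F)), MvPolynomial.eval x p = 0 := by
    intro p hp
    have h4 := hle (Ideal.subset_span hp)
    rw [hx, MvPolynomial.mem_vanishingIdeal_singleton_iff] at h4
    simpa [MvPolynomial.aeval_eq_eval] using h4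
  exact h x (h3 g (by simp)) (h3 h1 (by simp)) (h3 h2 (by simp))

variable {k : Type*} [Field k] [Algebra k F]

lemma hc_map (φ : k →+* F) (d : ℕ) (p : MvPolynomial (Fin 2) k) :
    MvPolynomial.homogeneousComponent d (MvPolynomial.map φ p)
      = MvPolynomial.map φ (MvPolynomial.homogeneousComponent d p) := by
  ext e
  rw [MvPolynomial.coeff_homogeneousComponent, MvPolynomial.coeff_map, MvPolynomial.coeff_map,
    MvPolynomial.coeff_homogeneousComponent]
  split_ifs <;> simp

lemma eval_map' (P : Fin 2 → F) (p : MvPolynomial (Fin 2) k) :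
    MvPolynomial.eval P (MvPolynomial.map (algebraMap k F) p) = MvPolynomial.aeval P p := by
  rw [MvPolynomial.eval_map, MvPolynomial.aeval_def]

end conv

section defn

variable {k : Type*} [Field k] [Fintype k] {F : Type*} [Field F] [Algebra k F]
  {l : ℕ} [hl : Fact l.Prime]

lemma pow_root {a : ℕ} (hq : l ∣ Fintype.card k - 1) {z : F} (hz : z ^ l ^ a = 1) :
    z ^ Fintype.card k ^ l ^ a = z := by
  have h1 : 1 ≤ Fintype.card k := Fintype.card_pos
  obtain ⟨c, hc⟩ := pow_dvd h1 hq a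
  have h2 : 1 ≤ Fintype.card k ^ l ^ a := Nat.one_le_pow _ _ h1
  have e : Fintype.card k ^ l ^ a = l ^ a * ((Fintype.card k - 1) * c) + 1 := by
    rw [← Nat.sub_add_cancel h2, hc]
    ring
  rw [e, pow_succ, pow_mul, hz, one_pow, one_mul]

/-- the field of definition of `g` -/
lemma coeff_g {a : ℕ} (hq : l ∣ Fintype.card k - 1) {z : F} (hz : IsPrimitiveRoot z (l ^ a))
    {g : MvPolynomial (Fin 2) F} {p : MvPolynomial (Fin 2) k}
    (hp : g ^ l ^ a = MvPolynomial.map (algebraMap k F) p) (e : Fin 2 →₀ ℕ) :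
    MvPolynomial.coeff e g ^ Fintype.card k ^ l ^ a = MvPolynomial.coeff e g := by
  classical
  have hpos : 0 < l ^ a := pow_pos hl.out.pos a
  set φ : F →+* F := (fr k F : F →+* F) with hφ
  have e0 : φ.comp (algebraMap k F) = algebraMap k F := by
    ext x
    exact (fr k F).commutes x
  have h1 : (MvPolynomial.map φ g) ^ l ^ a = g ^ l ^ a := by
    rw [← map_pow, hp, MvPolynomial.map_map, e0]
  have hzA : IsPrimitiveRoot (MvPolynomial.C z : MvPolynomial (Fin 2) F) (l ^ a) :=
    hz.map_of_injective (MvPolynomial.C_injective (Fin 2) F)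
  have h2 := hzA.pow_sub_pow_eq_prod_sub_mul (MvPolynomial.map φ g) g hpos
  rw [h1, sub_self] at h2
  obtain ⟨ξ, hξ, h3⟩ := Finset.prod_eq_zero_iff.1 h2.symm
  rw [mem_nthRootsFinset hpos] at hξ
  obtain ⟨i, _, hi⟩ := hzA.eq_pow_of_pow_eq_one hξ
  rw [sub_eq_zero, ← hi, ← map_pow] at h3
  have hc : MvPolynomial.coeff e g ^ Fintype.card k = z ^ i * MvPolynomial.coeff e g := by
    have h4 := congrArg (MvPolynomial.coeff e) h3
    rw [MvPolynomial.coeff_map, MvPolynomial.coeff_C_mul] at h4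
    exact h4
  have hn : ∀ n : ℕ, MvPolynomial.coeff e g ^ Fintype.card k ^ n
      = (z ^ i) ^ (∑ j ∈ Finset.range n, Fintype.card k ^ j) * MvPolynomial.coeff e g := by
    intro n
    induction n with
    | zero => simp
    | succ n ih =>
      rw [pow_succ, pow_mul, ih, mul_pow, hc, ← mul_assoc]
      congr 1
      rw [← pow_mul, ← pow_succ]
      congr 1
      rw [Finset.sum_range_succ', pow_zero, Finset.sum_mul]
      congr 1
  rw [hn]
  have h1' : 1 ≤ Fintype.card k := Fintype.card_pos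
  have h5 : (Fintype.card k - 1) * l ^ a ∣
      (Fintype.card k - 1) * ∑ j ∈ Finset.range (l ^ a), Fintype.card k ^ j := by
    have h6 : (Fintype.card k - 1) * ∑ j ∈ Finset.range (l ^ a), Fintype.card k ^ j
        = Fintype.card k ^ l ^ a - 1 := by
      zify [h1', Nat.one_le_pow (l ^ a) _ h1']
      rw [mul_comm]
      exact geom_sum_mul _ _
    rw [h6]
    exact pow_dvd h1' hq a
  obtain ⟨c, hcd⟩ := Nat.dvd_of_mul_dvd_mul_left
    (Nat.sub_pos_of_lt (Fintype.one_lt_card (α := k))) h5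
  rw [hcd, ← pow_mul, mul_left_comm, pow_mul, hz.pow_eq_one, one_pow, one_mul]

end defn

section final

variable {k : Type*} [Field k] [Fintype k] {F : Type*} [Field F] [Algebra k F] [IsAlgClosed F]

/-- the class group part -/
theorem rank_main {l a r : ℕ} (hl : l.Prime) (hF : (l : F) ≠ 0) {z : F}
    (hz : IsPrimitiveRoot z (l ^ a)) (hr : 0 < r) {h : Fin r → MvPolynomial (Fin 2) F}
    {g f : MvPolynomial (Fin 2) F} (hfg : f = g ^ l ^ a + ∏ i, h i) (hf : Irreducible f)
    (hd : ∀ i, 0 < (h i).totalDegree)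
    (hg : l ^ a * g.totalDegree < ∑ i, (h i).totalDegree)
    (hcopr : Nat.Coprime l (∑ i, (h i).totalDegree))
    (htop : ∀ P : Fin 2 → F, P ≠ 0 →
      MvPolynomial.eval P (∏ i, MvPolynomial.homogeneousComponent (h i).totalDegree (h i)) = 0 →
      ∃ s, MvPolynomial.eval P (MvPolynomial.pderiv s
        (∏ i, MvPolynomial.homogeneousComponent (h i).totalDegree (h i))) ≠ 0)
    (hcop : ∀ i i', i ≠ i' → Ideal.span {g, h i, h i'} = ⊤) :
    haveI : NeZero (l ^ a) := ⟨pow_ne_zero _ hl.ne_zero⟩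
    haveI : IsDomain (Rg (l ^ a) f) := isDomain_Rg (pow_ne_zero _ hl.ne_zero) hf.prime
    (∀ i j, IsUnit ((JJ (rw' (l ^ a) f) (MvPolynomial.C z) h g i (j : ZMod (l ^ a)) :
      Ideal (Rg (l ^ a) f)) : FractionalIdeal (nonZeroDivisors (Rg (l ^ a) f))
        (FractionRing (Rg (l ^ a) f)))) ∧
    Module.finrank ℤ (Submodule.span ℤ (Set.range fun p : Fin r × ZMod (l ^ a) =>
      cls (JJ (rw' (l ^ a) f) (MvPolynomial.C z) h g p.1 p.2))) = (r - 1) * (l ^ a - 1) := by
  have hm0 : l ^ a ≠ 0 := pow_ne_zero _ hl.ne_zero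
  haveI : NeZero (l ^ a) := ⟨hm0⟩
  haveI : IsDomain (Rg (l ^ a) f) := isDomain_Rg hm0 hf.prime
  have hmK : ((l ^ a : ℕ) : F) ≠ 0 := by push_cast; exact pow_ne_zero _ hF
  have hmu : IsUnit ((l ^ a : ℕ) : MvPolynomial (Fin 2) F) := by
    rw [← map_natCast (MvPolynomial.C (σ := Fin 2) (R := F))]
    exact hmK.isUnit.map _
  have hzA : IsPrimitiveRoot (MvPolynomial.C z : MvPolynomial (Fin 2) F) (l ^ a) :=
    hz.map_of_injective (MvPolynomial.C_injective (Fin 2) F)
  have H := cyc hm0 f hzA hmu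
  have hdiff : ∀ i, 0 < i → i < l ^ a →
      IsUnit (1 - (MvPolynomial.C z : MvPolynomial (Fin 2) F) ^ i) := by
    intro i h0 hi
    rw [← map_pow, ← map_one (MvPolynomial.C (σ := Fin 2) (R := F)), ← map_sub]
    apply IsUnit.map
    apply Ne.isUnit
    intro h
    exact hz.pow_ne_one_of_pos_of_lt h0.ne' hi (sub_eq_zero.1 h).symm
  have hh : ∀ i, h i ≠ 0 := by
    intro i h0
    have := hd i
    rw [h0, MvPolynomial.totalDegree_zero] at this
    exact lt_irrefl _ this
  have hrel := fun n => rel_main hl rfl hF hz hfg hf hd hg hcopr htop hcop n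
  refine ⟨H.JJ_unit hfg hcop hdiff hh, ?_⟩
  exact rank_of_relations hr (fun i j => cls (JJ (rw' (l ^ a) f) (MvPolynomial.C z) h g i j))
    (H.class_rel hfg hcop hdiff hh hrel)

end final

end Pool.Agent.T9h63.CU
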