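import Mathlib

set_option autoImplicit false
set_option maxHeartbeats 1000000

/-!
Cyclic extensions `R = A[w]`, `w ^ m = f`, of a ring `A` which contains the `m`-th roots of unity.
-/

namespace Pool.Agent.T9h63.CU

/-- `R = A[w]`, `w ^ m = f`, with the automorphism `σ w = ζ w`. -/
structure Cyc {A R : Type*} [CommRing A] [CommRing R] [Algebra A R] (m : ℕ) (f ζ : A) (w : R)
    (σ : R ≃ₐ[A] R) (b : Module.Basis (Fin m) A R) : Prop where
  pos : 0 < m
  hw : w ^ m = algebraMap A R f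
  hb : ∀ i, b i = w ^ (i : ℕ)
  hσ : σ w = algebraMap A R ζ * w
  hζ : ζ ^ m = 1
  orth : ∀ t : ℕ, ¬ m ∣ t → ∑ j ∈ Finset.range m, ζ ^ (j * t) = 0
  hm : IsUnit (m : A)

section gr

variable {A R : Type*} [CommRing A] [IsDomain A] [CommRing R] [IsDomain R] [Algebra A R] {m : ℕ}
  {f ζ : A} {w : R} {σ : R ≃ₐ[A] R} {b : Module.Basis (Fin m) A R} (H : Cyc m f ζ w σ b)

include H

lemma Cyc.unitζ : IsUnit ζ := by
  have h : ζ ^ (m - 1) * ζ = 1 := by rw [← pow_succ, Nat.sub_add_cancel H.pos, H.hζ]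
  exact IsUnit.of_mul_eq_one_right _ h

lemma Cyc.ζ_pow_ne {i : ℕ} (h0 : 0 < i) (hi : i < m) : ζ ^ i ≠ 1 := by
  intro h
  have h1 := H.orth i (fun hd => by have := Nat.le_of_dvd h0 hd; omega)
  have h2 : ∀ j ∈ Finset.range m, ζ ^ (j * i) = 1 := by
    intro j _
    rw [mul_comm, pow_mul, h, one_pow]
  rw [Finset.sum_congr rfl h2, Finset.sum_const, Finset.card_range, nsmul_eq_mul, mul_one] at h1
  have := H.hm
  rw [h1] at this
  exact not_isUnit_zero this

lemma Cyc.pow_w (j : ℕ) : (σ ^ j) w = algebraMap A R (ζ ^ j) * w := by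
  induction j with
  | zero => simp
  | succ j ih =>
    rw [pow_succ, AlgEquiv.mul_apply, H.hσ, map_mul, AlgEquiv.commutes, ih, ← mul_assoc, ← map_mul,
      ← pow_succ']

lemma Cyc.pow_w_pow (j i : ℕ) : (σ ^ j) (w ^ i) = algebraMap A R (ζ ^ (j * i)) * w ^ i := by
  rw [map_pow, H.pow_w, mul_pow, ← map_pow, ← pow_mul]

lemma Cyc.expand (x : R) : x = ∑ i : Fin m, algebraMap A R (b.repr x i) * w ^ (i : ℕ) := by
  conv_lhs => rw [← b.sum_repr x]
  apply Finset.sum_congr rfl
  intro i _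
  rw [H.hb, Algebra.smul_def]

lemma Cyc.pow_m : σ ^ m = 1 := by
  ext x
  rw [H.expand x, map_sum, map_sum]
  apply Finset.sum_congr rfl
  intro i _
  rw [map_mul, map_mul, H.pow_w_pow, AlgEquiv.commutes, pow_mul, H.hζ, one_pow, map_one, one_mul]
  rfl

/-- the component of degree `i` -/
noncomputable def cmp (m : ℕ) (ζ : A) (σ : R ≃ₐ[A] R) (i : ℕ) (x : R) : R :=
  ∑ j ∈ Finset.range m, algebraMap A R (ζ ^ (j * (m - i))) * (σ ^ j) x

lemma Cyc.cmp_eq (x : R) (i : Fin m) :
    cmp m ζ σ i x = (m : R) * (algebraMap A R (b.repr x i) * w ^ (i : ℕ)) := by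
  unfold cmp
  have h1 : ∀ j ∈ Finset.range m, algebraMap A R (ζ ^ (j * (m - (i : ℕ)))) * (σ ^ j) x
      = ∑ t : Fin m, algebraMap A R (ζ ^ (j * (m - (i : ℕ) + t))) *
          (algebraMap A R (b.repr x t) * w ^ (t : ℕ)) := by
    intro j _
    conv_lhs => rw [H.expand x]
    rw [map_sum, Finset.mul_sum]
    apply Finset.sum_congr rfl
    intro t _
    rw [map_mul, AlgEquiv.commutes, H.pow_w_pow, mul_add, pow_add, map_mul]
    ring
  rw [Finset.sum_congr rfl h1, Finset.sum_comm]
  have h2 : ∀ t : Fin m, ∑ j ∈ Finset.range m, algebraMap A R (ζ ^ (j * (m - (i : ℕ) + t))) *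
      (algebraMap A R (b.repr x t) * w ^ (t : ℕ))
      = if t = i then (m : R) * (algebraMap A R (b.repr x t) * w ^ (t : ℕ)) else 0 := by
    intro t
    rw [← Finset.sum_mul, ← map_sum]
    split_ifs with h
    · rw [h]
      have h3 : ∀ j ∈ Finset.range m, ζ ^ (j * (m - (i : ℕ) + (i : ℕ))) = 1 := by
        intro j _
        rw [Nat.sub_add_cancel i.2.le, mul_comm, pow_mul, H.hζ, one_pow]
      rw [Finset.sum_congr rfl h3, Finset.sum_const, Finset.card_range, nsmul_eq_mul, mul_one,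
        map_natCast]
    · rw [H.orth, map_zero, zero_mul]
      intro hd
      apply h
      have hi := i.2
      have ht := t.2
      obtain ⟨c, hc⟩ := hd
      have hc1 : c = 1 := by
        have h4 : c < 2 := by
          by_contra h5
          have : m * 2 ≤ m * c := Nat.mul_le_mul_left m (by omega)
          omega
        have h6 : 0 < c := by
          by_contra h5
          have : c = 0 := by omega
          rw [this] at hc
          omega
        omega
      rw [hc1] at hc
      exact Fin.ext (by omega)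
  rw [Finset.sum_congr rfl fun t _ => h2 t, Finset.sum_ite_eq' Finset.univ i, if_pos (Finset.mem_univ i)]

/-- homogeneous components of elements of invariant ideals -/
lemma Cyc.cmp_mem {I : Ideal R} (hI : ∀ x ∈ I, σ x ∈ I) {x : R} (hx : x ∈ I) (i : Fin m) :
    algebraMap A R (b.repr x i) * w ^ (i : ℕ) ∈ I := by
  have h1 : ∀ j : ℕ, (σ ^ j) x ∈ I := by
    intro j
    induction j with
    | zero => simpa using hx
    | succ j ih =>
      rw [pow_succ', AlgEquiv.mul_apply]
      exact hI _ ih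
  have h2 : cmp m ζ σ i x ∈ I := by
    unfold cmp
    exact I.sum_mem fun j _ => I.mul_mem_left _ (h1 j)
  rw [H.cmp_eq] at h2
  obtain ⟨u, hu⟩ := H.hm
  have h3 := I.mul_mem_left (algebraMap A R (↑u⁻¹ : A)) h2
  have h4 : algebraMap A R (↑u⁻¹ : A) * ((m : R) * (algebraMap A R (b.repr x i) * w ^ (i : ℕ)))
      = algebraMap A R (b.repr x i) * w ^ (i : ℕ) := by
    rw [← mul_assoc, ← map_natCast (algebraMap A R), ← map_mul, ← hu, Units.inv_mul, map_one,
      one_mul]
  rwa [h4] at h3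

lemma Cyc.repr_alg (a : A) (i : Fin m) :
    b.repr (algebraMap A R a) i = if (i : ℕ) = 0 then a else 0 := by
  have h0 : algebraMap A R a = a • b ⟨0, H.pos⟩ := by
    rw [H.hb, Algebra.smul_def]; simp
  rw [h0, map_smul, Finsupp.smul_apply, b.repr_self, Finsupp.single_apply, smul_eq_mul]
  by_cases h : (i : ℕ) = 0
  · rw [if_pos h, if_pos (Fin.ext h.symm), mul_one]
  · rw [if_neg h, if_neg (fun h' => h (by rw [← h'])), mul_zero]

lemma Cyc.injA : Function.Injective (algebraMap A R) := by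
  intro x y hxy
  have h1 := H.repr_alg x ⟨0, H.pos⟩
  have h2 := H.repr_alg y ⟨0, H.pos⟩
  rw [hxy, h2] at h1
  simpa using h1.symm

lemma Cyc.w_ne (hf : f ≠ 0) : w ≠ 0 := by
  intro h
  have h1 := H.hw
  rw [h, zero_pow H.pos.ne'] at h1
  exact hf (H.injA (by rw [← h1, map_zero]))

/-- the fixed elements -/
lemma Cyc.fixed {x : R} (hx : σ x = x) : ∃ a : A, x = algebraMap A R a := by
  refine ⟨b.repr x ⟨0, H.pos⟩, ?_⟩
  have h1 : ∀ i : Fin m, b.repr (σ x) i = ζ ^ (i : ℕ) * b.repr x i := by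
    intro i
    have h2 : σ x = ∑ t : Fin m, (ζ ^ (t : ℕ) * b.repr x t) • b t := by
      conv_lhs => rw [H.expand x]
      rw [map_sum]
      apply Finset.sum_congr rfl
      intro t _
      have h3 := H.pow_w_pow 1 t
      rw [pow_one, one_mul] at h3
      rw [map_mul, AlgEquiv.commutes, h3, H.hb, Algebra.smul_def, map_mul]
      ring
    rw [h2, Module.Basis.repr_sum_self]
  have h4 : ∀ i : Fin m, (i : ℕ) ≠ 0 → b.repr x i = 0 := by
    intro i hi
    have h5 := h1 i
    rw [hx] at h5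
    have h6 : (ζ ^ (i : ℕ) - 1) * b.repr x i = 0 := by rw [sub_mul, ← h5, one_mul, sub_self]
    rcases mul_eq_zero.1 h6 with h7 | h7
    · exact absurd (sub_eq_zero.1 h7) (H.ζ_pow_ne (Nat.pos_of_ne_zero hi) i.2)
    · exact h7
  conv_lhs => rw [H.expand x]
  rw [Finset.sum_eq_single (⟨0, H.pos⟩ : Fin m)]
  · simp
  · intro i _ hi
    rw [h4 i (fun h => hi (Fin.ext h)), map_zero, zero_mul]
  · intro h
    exact absurd (Finset.mem_univ _) h

/-- divisibility by elements of `A` -/
lemma Cyc.dvd_iff (d : A) (x : R) :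
    algebraMap A R d ∣ x ↔ ∀ i, d ∣ b.repr x i := by
  constructor
  · rintro ⟨y, rfl⟩ i
    rw [← Algebra.smul_def, map_smul, Finsupp.smul_apply, smul_eq_mul]
    exact dvd_mul_right _ _
  · intro h
    choose y hy using h
    refine ⟨∑ i, algebraMap A R (y i) * w ^ (i : ℕ), ?_⟩
    conv_lhs => rw [H.expand x]
    rw [Finset.mul_sum]
    apply Finset.sum_congr rfl
    intro i _
    rw [hy i, map_mul, mul_assoc]

lemma Cyc.dvd_mono (d c : A) (i : Fin m) :
    algebraMap A R d ∣ algebraMap A R c * w ^ (i : ℕ) ↔ d ∣ c := by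
  rw [H.dvd_iff]
  have h1 : ∀ t, b.repr (algebraMap A R c * w ^ (i : ℕ)) t = if i = t then c else 0 := by
    intro t
    rw [← H.hb, ← Algebra.smul_def, map_smul, Finsupp.smul_apply, b.repr_self,
      Finsupp.single_apply, smul_eq_mul]
    split_ifs <;> simp
  constructor
  · intro h
    have := h i
    rwa [h1, if_pos rfl] at this
  · intro h t
    rw [h1]
    split_ifs
    · exact h
    · exact dvd_zero d

end gr

end Pool.Agent.T9h63.CU
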