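import Pool.Agent.T9h63.CU.H90

set_option autoImplicit false
set_option maxHeartbeats 1000000

/-!
Products of the ideals `(h i, w - z g)`.
-/

namespace Pool.Agent.T9h63.CU

lemma prod_span_le {R ι : Type*} [CommRing R] (s : Finset ι) (h : ι → R) (v : R) :
    ∏ i ∈ s, Ideal.span {h i, v} ≤ Ideal.span {∏ i ∈ s, h i, v} := by
  classical
  induction s using Finset.induction_on with
  | empty => simp [Ideal.span_insert]
  | insert a s ha ih =>
    rw [Finset.prod_insert ha, Finset.prod_insert ha]
    refine (Ideal.mul_mono_right ih).trans ?_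
    rw [Ideal.span_mul_span', Ideal.span_le]
    rintro x ⟨y, hy, z, hz, rfl⟩
    have hv : v ∈ Ideal.span {h a * ∏ i ∈ s, h i, v} := Ideal.subset_span (by simp)
    rcases hy with rfl | rfl
    · rcases hz with rfl | rfl
      · exact Ideal.subset_span (by simp)
      · exact Ideal.mul_mem_left _ _ hv
    · exact Ideal.mul_mem_right _ _ hv

/-- a product of ideals with two generators -/
lemma prod_span {R ι : Type*} [CommRing R] [Fintype ι] (h : ι → R) (v V : R)
    (hprod : ∏ i, h i = v * V)
    (hmax : ∀ M : Ideal R, M.IsMaximal → v ∈ M → V ∈ M → ∀ i j, i ≠ j → h i ∈ M → h j ∉ M) :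
    ∏ i, Ideal.span {h i, v} = Ideal.span {v} := by
  classical
  apply le_antisymm
  · refine (prod_span_le _ _ _).trans ?_
    rw [Ideal.span_le]
    rintro x (rfl | rfl)
    · rw [hprod]
      exact Ideal.mul_mem_right _ _ (Ideal.mem_span_singleton_self _)
    · exact Ideal.mem_span_singleton_self _
  · rw [Ideal.span_singleton_le_iff_mem]
    set P := ∏ i, Ideal.span {h i, v} with hP
    -- the colon ideal
    set B : Ideal R := Submodule.comap (LinearMap.mulRight R v) P with hB
    have hBm : ∀ x, x ∈ B ↔ x * v ∈ P := fun x => Iff.rfl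
    have hmem : ∀ c : ι → R, (∀ i, c i = h i ∨ c i = v) → ∏ i, c i ∈ P := by
      intro c hc
      rw [hP]
      apply Ideal.prod_mem_prod
      intro i _
      rcases hc i with h1 | h1
      · rw [h1]; exact Ideal.subset_span (by simp)
      · rw [h1]; exact Ideal.subset_span (by simp)
    by_contra hv
    have hBne : B ≠ ⊤ := by
      intro h1
      apply hv
      have : (1 : R) ∈ B := h1 ▸ Submodule.mem_top
      rw [hBm, one_mul] at this
      exact this
    obtain ⟨M, hM, hBM⟩ := Ideal.exists_le_maximal B hBne
    have hMp := hM.isPrime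
    have h1 : ∀ i', ∃ i, i ≠ i' ∧ h i ∈ M := by
      intro i'
      have h2 : ∏ i ∈ Finset.univ.erase i', h i ∈ B := by
        rw [hBm]
        have h3 := hmem (fun i => if i = i' then v else h i) (fun i => by
          by_cases h4 : i = i'
          · right; simp [h4]
          · left; simp [h4])
        rw [← Finset.mul_prod_erase _ _ (Finset.mem_univ i')] at h3
        simp only [if_true] at h3
        rw [mul_comm]
        convert h3 using 2
        apply Finset.prod_congr rfl
        intro i hi
        rw [if_neg (Finset.mem_erase.1 hi).1]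
      obtain ⟨i, hi, h4⟩ := (hMp.prod_mem_iff).1 (hBM h2)
      exact ⟨i, (Finset.mem_erase.1 hi).1, h4⟩
    have hVM : V ∈ M := by
      apply hBM
      rw [hBm, mul_comm, ← hprod]
      exact hmem h fun i => Or.inl rfl
    have hvM : v ∈ M := by
      rcases Nat.eq_zero_or_pos (Fintype.card ι) with h0 | h0
      · exfalso
        apply hv
        haveI := Fintype.card_eq_zero_iff.1 h0
        rw [hP]
        simp
      · apply hMp.mem_of_pow_mem (Fintype.card ι - 1)
        apply hBM
        rw [hBm, ← pow_succ, Nat.sub_add_cancel h0]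
        have h2 := hmem (fun _ => v) fun i => Or.inr rfl
        rwa [Finset.prod_const, Finset.card_univ] at h2
    rcases isEmpty_or_nonempty ι with he | ⟨⟨i0⟩⟩
    · apply hv
      rw [hP]
      simp
    · obtain ⟨i1, _, hi1⟩ := h1 i0
      obtain ⟨i2, hne, hi2⟩ := h1 i1
      exact hmax M hM hvM hVM i2 i1 hne hi2 hi1

end Pool.Agent.T9h63.CU
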