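import Pool.Agent.T9h63.CU.Gr

set_option autoImplicit false
set_option maxHeartbeats 1000000

/-!
Invertible ideals of `R = A[w]` which are invariant are principal, for a factorial ring `A` and prime `f`.
-/

namespace Pool.Agent.T9h63.CU

lemma exists_gcd_finset {A : Type*} [CommRing A] [IsDomain A] [UniqueFactorizationMonoid A]
    (T : Finset A) :
    ∃ g : A, (∀ s ∈ T, g ∣ s) ∧ ∀ c d : A, (∀ s ∈ T, d ∣ c * s) → d ∣ c * g := by
  classical
  obtain ⟨_⟩ : Nonempty (NormalizedGCDMonoid A) := inferInstance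
  induction T using Finset.induction_on with
  | empty => exact ⟨0, by simp, by simp⟩
  | insert x T _ ih =>
    obtain ⟨g, h1, h2⟩ := ih
    refine ⟨gcd x g, ?_, ?_⟩
    · intro s hs
      rcases Finset.mem_insert.1 hs with rfl | hs
      · exact gcd_dvd_left _ _
      · exact (gcd_dvd_right _ _).trans (h1 s hs)
    · intro c d h
      have h3 : d ∣ gcd (c * x) (c * g) :=
        dvd_gcd (h x (Finset.mem_insert_self x T))
          (h2 c d fun s hs => h s (Finset.mem_insert_of_mem hs))
      exact h3.trans (gcd_mul_left' c x g).dvd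

lemma exists_gcd {A : Type*} [CommRing A] [IsDomain A] [UniqueFactorizationMonoid A]
    [IsNoetherianRing A] (S : Ideal A) :
    ∃ g : A, (∀ s ∈ S, g ∣ s) ∧ ∀ c d : A, (∀ s ∈ S, d ∣ c * s) → d ∣ c * g := by
  classical
  obtain ⟨T, hT⟩ := (isNoetherianRing_iff_ideal_fg A).1 inferInstance S
  obtain ⟨g, h1, h2⟩ := exists_gcd_finset T
  refine ⟨g, ?_, fun c d h => h2 c d fun s hs => h s (hT ▸ Submodule.subset_span hs)⟩
  intro s hs
  rw [← hT] at hs
  induction hs using Submodule.span_induction with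
  | mem x hx => exact h1 x hx
  | zero => exact dvd_zero _
  | add x y _ _ h1 h2 => exact dvd_add h1 h2
  | smul a x _ h => exact h.mul_left _

/-- the coefficients of the elements `a w ^ i` of `I` -/
def cI {A R : Type*} [CommRing A] [CommRing R] [Algebra A R] (I : Ideal R) (w : R) (i : ℕ) :
    Ideal A where
  carrier := {a | algebraMap A R a * w ^ i ∈ I}
  add_mem' := by
    intro x y hx hy
    simp only [Set.mem_setOf_eq, map_add, add_mul] at hx hy ⊢
    exact I.add_mem hx hy
  zero_mem' := by simp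
  smul_mem' := by
    intro c x hx
    simp only [Set.mem_setOf_eq, smul_eq_mul, map_mul, mul_assoc] at hx ⊢
    exact I.mul_mem_left _ hx

lemma mem_cI {A R : Type*} [CommRing A] [CommRing R] [Algebra A R] (I : Ideal R) (w : R) (i : ℕ)
    (a : A) : a ∈ cI (A := A) I w i ↔ algebraMap A R a * w ^ i ∈ I := Iff.rfl

section inv

variable {A R : Type*} [CommRing A] [IsDomain A] [CommRing R] [IsDomain R] [Algebra A R] {m : ℕ}
  {f ζ : A} {w : R} {σ : R ≃ₐ[A] R} {b : Module.Basis (Fin m) A R} (H : Cyc m f ζ w σ b)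

include H

lemma Cyc.inv_mem {I : Ideal R} (hI : ∀ x ∈ I, σ x ∈ I) {x : R} (hx : x ∈ I) :
    ∃ y ∈ I, σ y = x := by
  have h1 : ∀ j : ℕ, (σ ^ j) x ∈ I := by
    intro j
    induction j with
    | zero => simpa using hx
    | succ j ih =>
      rw [pow_succ', AlgEquiv.mul_apply]
      exact hI _ ih
  refine ⟨(σ ^ (m - 1)) x, h1 _, ?_⟩
  rw [← AlgEquiv.mul_apply, ← pow_succ', Nat.sub_add_cancel H.pos, H.pow_m]
  rfl

lemma Cyc.dual_inv {I J : Ideal R} (hI : ∀ x ∈ I, σ x ∈ I) {d : A} (hd : d ≠ 0)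
    (hIJ : I * J = Ideal.span {algebraMap A R d}) : ∀ y ∈ J, σ y ∈ J := by
  intro y hy
  have hd' : algebraMap A R d ≠ 0 := fun h => hd (H.injA (by rw [h, map_zero]))
  have h1 : ∀ x ∈ I, algebraMap A R d ∣ x * σ y := by
    intro x hx
    obtain ⟨x', hx', rfl⟩ := H.inv_mem hI hx
    have h2 : x' * y ∈ Ideal.span {algebraMap A R d} := hIJ ▸ Ideal.mul_mem_mul hx' hy
    obtain ⟨z, hz⟩ := Ideal.mem_span_singleton'.1 h2
    rw [← map_mul, ← hz, map_mul, AlgEquiv.commutes]
    exact dvd_mul_left _ _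
  have h3 : I * J ≤ Submodule.comap (LinearMap.mulLeft R (σ y))
      (Ideal.span {algebraMap A R d} * J) := by
    rw [Ideal.mul_le]
    intro x hx z hz
    obtain ⟨c, hc⟩ := h1 x hx
    rw [Submodule.mem_comap, LinearMap.mulLeft_apply,
      show σ y * (x * z) = algebraMap A R d * (c * z) by rw [← mul_assoc, mul_comm (σ y), hc]; ring]
    exact Ideal.mul_mem_mul (Ideal.mem_span_singleton_self _) (J.mul_mem_left _ hz)
  have h4 := h3 (hIJ ▸ Ideal.mem_span_singleton_self _)
  rw [Submodule.mem_comap, LinearMap.mulLeft_apply, Ideal.mem_span_singleton_mul] at h4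
  obtain ⟨z, hz, h5⟩ := h4
  rw [mul_comm (σ y)] at h5
  rwa [← mul_left_cancel₀ hd' h5]

/-- **Invariant invertible ideals are principal.** -/
theorem Cyc.principal [UniqueFactorizationMonoid A] [IsNoetherianRing A] (hf : Prime f)
    {I J : Ideal R} (hI : ∀ x ∈ I, σ x ∈ I) {d : A} (hd : d ≠ 0)
    (hIJ : I * J = Ideal.span {algebraMap A R d}) : ∃ ρ : R, I = Ideal.span {ρ} := by
  classical
  have hJ := H.dual_inv hI hd hIJ
  have hd' : algebraMap A R d ≠ 0 := fun h => hd (H.injA (by rw [h, map_zero]))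
  obtain ⟨S, hSdef⟩ : ∃ S : Fin m → Ideal A, S = fun i : Fin m => cI I w (i : ℕ) := ⟨_, rfl⟩
  have hS : ∀ i a, a ∈ S i ↔ algebraMap A R a * w ^ (i : ℕ) ∈ I := fun i a => by
    rw [hSdef, mem_cI]
  choose g hg1 hg2 using fun i => exists_gcd (S i)
  have hgI : ∀ i, algebraMap A R (g i) * w ^ (i : ℕ) ∈ I := by
    intro i
    set t := algebraMap A R (g i) * w ^ (i : ℕ) with ht
    have h1 : ∀ (c : A) (k : Fin m), algebraMap A R c * w ^ (k : ℕ) ∈ J →
        algebraMap A R d ∣ t * (algebraMap A R c * w ^ (k : ℕ)) := by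
      intro c k hc
      by_cases hik : (i : ℕ) + k < m
      · have h2 : ∀ s ∈ S i, d ∣ c * s := by
          intro s hs
          have h3 : algebraMap A R s * w ^ (i : ℕ) * (algebraMap A R c * w ^ (k : ℕ)) ∈
              Ideal.span {algebraMap A R d} := hIJ ▸ Ideal.mul_mem_mul ((hS i s).1 hs) hc
          rw [Ideal.mem_span_singleton] at h3
          rw [← H.dvd_mono d (c * s) ⟨(i : ℕ) + k, hik⟩]
          convert h3 using 1
          rw [map_mul, pow_add]; ring
        have h4 := (H.dvd_mono d (c * g i) ⟨(i : ℕ) + k, hik⟩).2 (hg2 i c d h2)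
        convert h4 using 1
        rw [ht, map_mul, pow_add]; ring
      · have hlt : (i : ℕ) + k - m < m := by have := i.2; have := k.2; omega
        have hpow : w ^ ((i : ℕ) + k) = algebraMap A R f * w ^ ((i : ℕ) + k - m) := by
          rw [← H.hw, ← pow_add]; congr 1; omega
        have h2 : ∀ s ∈ S i, d ∣ (c * f) * s := by
          intro s hs
          have h3 : algebraMap A R s * w ^ (i : ℕ) * (algebraMap A R c * w ^ (k : ℕ)) ∈
              Ideal.span {algebraMap A R d} := hIJ ▸ Ideal.mul_mem_mul ((hS i s).1 hs) hc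
          rw [Ideal.mem_span_singleton] at h3
          rw [← H.dvd_mono d (c * f * s) ⟨(i : ℕ) + k - m, hlt⟩]
          convert h3 using 1
          calc algebraMap A R (c * f * s) * w ^ ((i : ℕ) + k - m)
              = algebraMap A R (c * s) * (algebraMap A R f * w ^ ((i : ℕ) + k - m)) := by
                rw [map_mul, map_mul, map_mul]; ring
            _ = _ := by rw [← hpow, map_mul, pow_add]; ring
        have h4 := (H.dvd_mono d (c * f * g i) ⟨(i : ℕ) + k - m, hlt⟩).2 (hg2 i (c * f) d h2)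
        convert h4 using 1
        symm
        calc algebraMap A R (c * f * g i) * w ^ ((i : ℕ) + k - m)
            = algebraMap A R (c * g i) * (algebraMap A R f * w ^ ((i : ℕ) + k - m)) := by
              rw [map_mul, map_mul, map_mul]; ring
          _ = _ := by rw [← hpow, map_mul, pow_add, ht]; ring
    have h5 : ∀ y ∈ J, algebraMap A R d ∣ t * y := by
      intro y hy
      rw [H.expand y, Finset.mul_sum]
      exact Finset.dvd_sum fun k _ => h1 _ k (H.cmp_mem hJ hy k)
    have h6 : I * J ≤ Submodule.comap (LinearMap.mulLeft R t)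
        (Ideal.span {algebraMap A R d} * I) := by
      rw [Ideal.mul_le]
      intro x hx z hz
      obtain ⟨c, hc⟩ := h5 z hz
      rw [Submodule.mem_comap, LinearMap.mulLeft_apply,
        show t * (x * z) = algebraMap A R d * (c * x) by
          rw [mul_comm x, ← mul_assoc, hc]; ring]
      exact Ideal.mul_mem_mul (Ideal.mem_span_singleton_self _) (I.mul_mem_left _ hx)
    have h7 := h6 (hIJ ▸ Ideal.mem_span_singleton_self _)
    rw [Submodule.mem_comap, LinearMap.mulLeft_apply, Ideal.mem_span_singleton_mul] at h7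
    obtain ⟨z, hz, h8⟩ := h7
    rw [mul_comm t] at h8
    rwa [← mul_left_cancel₀ hd' h8]
  have hdI : algebraMap A R d ∈ I := by
    have : algebraMap A R d ∈ I * J := hIJ ▸ Ideal.mem_span_singleton_self _
    exact (Ideal.mul_le_inf this).1
  have hmono : ∀ i j : Fin m, i ≤ j → g j ∣ g i := by
    intro i j hij
    apply hg1 j
    rw [hS]
    have : w ^ (j : ℕ) = w ^ (i : ℕ) * w ^ ((j : ℕ) - i) := by
      rw [← pow_add]; congr 1; have : (i : ℕ) ≤ j := hij; omega
    rw [this, ← mul_assoc]
    exact I.mul_mem_right _ (hgI i)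
  set lst : Fin m := ⟨m - 1, by have := H.pos; omega⟩ with hlst
  set a := g lst with ha
  have hle : ∀ i, i ≤ lst := by
    intro i
    show (i : ℕ) ≤ m - 1
    have := i.2; omega
  have ha0 : a ≠ 0 := by
    intro h0
    have h1 : d ∈ S lst := by
      rw [hS]
      exact I.mul_mem_right _ hdI
    have h2 := hg1 lst d h1
    rw [← ha, h0] at h2
    exact hd (zero_dvd_iff.1 h2)
  have hfa : ∀ i, g i ∣ f * a := by
    intro i
    have h1 : g ⟨0, H.pos⟩ ∣ f * a := by
      apply hg1
      rw [hS]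
      have h2 : algebraMap A R (f * a) * w ^ ((⟨0, H.pos⟩ : Fin m) : ℕ)
          = (algebraMap A R a * w ^ (m - 1)) * w := by
        show algebraMap A R (f * a) * w ^ 0 = _
        rw [pow_zero, mul_one, mul_assoc, ← pow_succ, Nat.sub_add_cancel H.pos, H.hw, map_mul,
          mul_comm]
      rw [h2]
      exact I.mul_mem_right _ (hgI lst)
    exact (hmono _ i (Fin.mk_le_of_le_val (Nat.zero_le _))).trans h1
  choose t ht using fun i => hmono i lst (hle i)
  have htf : ∀ i, t i ∣ f := by
    intro i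
    have h1 := hfa i
    rw [ht i, ← ha, mul_comm f] at h1
    exact (mul_dvd_mul_iff_left ha0).1 h1
  have hex : ∃ i, IsUnit (t i) := by
    refine ⟨lst, ?_⟩
    have h1 := ht lst
    rw [← ha] at h1
    have h2 : a * 1 = a * t lst := by rw [mul_one]; exact h1
    rw [← mul_left_cancel₀ ha0 h2]
    exact isUnit_one
  obtain ⟨e, he, hemin⟩ : ∃ e : Fin m, IsUnit (t e) ∧ ∀ i < e, ¬ IsUnit (t i) := by
    have hne : (Finset.univ.filter fun i => IsUnit (t i)).Nonempty := by
      obtain ⟨i, hi⟩ := hex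
      exact ⟨i, Finset.mem_filter.2 ⟨Finset.mem_univ _, hi⟩⟩
    refine ⟨(Finset.univ.filter fun i => IsUnit (t i)).min' hne,
      (Finset.mem_filter.1 (Finset.min'_mem _ hne)).2, ?_⟩
    intro i hi h
    exact absurd (Finset.min'_le _ i (Finset.mem_filter.2 ⟨Finset.mem_univ _, h⟩)) (not_le.2 hi)
  refine ⟨algebraMap A R a * w ^ (e : ℕ), le_antisymm ?_ ?_⟩
  · intro x hx
    rw [Ideal.mem_span_singleton, H.expand x]
    apply Finset.dvd_sum
    intro i _
    have h1 : b.repr x i ∈ S i := by rw [hS]; exact H.cmp_mem hI hx i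
    obtain ⟨y, hy⟩ := hg1 i _ h1
    by_cases hie : i < e
    · have h2 : f ∣ t i := by
        obtain ⟨c, hc⟩ := htf i
        rcases hf.irreducible.isUnit_or_isUnit hc with h3 | h3
        · exact absurd h3 (hemin i hie)
        · obtain ⟨u, hu⟩ := h3
          refine ⟨↑u⁻¹, ?_⟩
          rw [hc, ← hu, mul_assoc, Units.mul_inv, mul_one]
      obtain ⟨c, hc⟩ := h2
      refine ⟨algebraMap A R (c * y) * w ^ (m + i - e), ?_⟩
      have h4 : w ^ (e : ℕ) * w ^ (m + (i : ℕ) - e) = algebraMap A R f * w ^ (i : ℕ) := by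
        rw [← H.hw, ← pow_add, ← pow_add]; congr 1
        have := e.2; omega
      calc algebraMap A R (b.repr x i) * w ^ (i : ℕ)
          = algebraMap A R a * algebraMap A R (c * y) * (algebraMap A R f * w ^ (i : ℕ)) := by
            rw [hy, ht i, ← ha, hc]; simp only [map_mul]; ring
        _ = _ := by rw [← h4]; ring
    · refine ⟨algebraMap A R (t i * y) * w ^ ((i : ℕ) - e), ?_⟩
      have hei : (e : ℕ) ≤ i := not_lt.1 hie
      have h4 : w ^ (e : ℕ) * w ^ ((i : ℕ) - e) = w ^ (i : ℕ) := by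
        rw [← pow_add]; congr 1; omega
      calc algebraMap A R (b.repr x i) * w ^ (i : ℕ)
          = algebraMap A R a * algebraMap A R (t i * y) * w ^ (i : ℕ) := by
            rw [hy, ht i, ← ha]; simp only [map_mul]; ring
        _ = _ := by rw [← h4]; ring
  · rw [Ideal.span_singleton_le_iff_mem]
    obtain ⟨u, hu⟩ := he
    have h1 : a = g e * ↑u⁻¹ := by
      rw [ht e, ← ha, ← hu, mul_assoc, Units.mul_inv, mul_one]
    rw [h1, map_mul, mul_right_comm]
    exact I.mul_mem_right _ (hgI e)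

end inv

end Pool.Agent.T9h63.CU
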