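import Pool.Agent.T9h63.CU.Arc

set_option autoImplicit false
set_option maxHeartbeats 1000000

/-!
The kernel of an arc through a point at infinity of an irreducible plane curve.
-/

namespace Pool.Agent.T9h63.CU

open MvPolynomial

section ker

variable {K : Type*} [Field K]

lemma prime_eq {f : MvPolynomial (Fin 2) K} (hf : Prime f) {Q : Ideal (MvPolynomial (Fin 2) K)}
    (hQ : Q.IsPrime) (hfQ : f ∈ Q) (hnm : ¬ Q.IsMaximal) : Q = Ideal.span {f} := by
  by_contra hne
  obtain ⟨M, hM, hQM⟩ := Q.exists_le_maximal hQ.ne_top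
  have hlt3 : Q < M := lt_of_le_of_ne hQM (fun h => hnm (h ▸ hM))
  have hle2 : Ideal.span {f} ≤ Q := (Ideal.span_singleton_le_iff_mem _).2 hfQ
  have hlt2 : Ideal.span {f} < Q := lt_of_le_of_ne hle2 (fun h => hne h.symm)
  have hlt1 : (⊥ : Ideal (MvPolynomial (Fin 2) K)) < Ideal.span {f} := by
    rw [bot_lt_iff_ne_bot, ne_eq, Ideal.span_singleton_eq_bot]
    exact hf.ne_zero
  have hpf : (Ideal.span {f}).IsPrime := (Ideal.span_singleton_prime hf.ne_zero).2 hf
  let s : LTSeries (PrimeSpectrum (MvPolynomial (Fin 2) K)) :=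
    { length := 3
      toFun := ![⟨⊥, Ideal.isPrime_bot⟩, ⟨Ideal.span {f}, hpf⟩, ⟨Q, hQ⟩, ⟨M, hM.isPrime⟩]
      step := by
        intro i
        fin_cases i
        · exact hlt1
        · exact hlt2
        · exact hlt3 }
  have h1 : (s.length : WithBot ℕ∞) ≤ ringKrullDim (MvPolynomial (Fin 2) K) :=
    Order.LTSeries.length_le_krullDim s
  rw [MvPolynomial.ringKrullDim_of_isNoetherianRing, ringKrullDim_eq_zero_of_field] at h1
  rw [show s.length = 3 from rfl] at h1
  norm_num at h1

variable [IsAlgClosed K]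

lemma ker_chi {f : MvPolynomial (Fin 2) K} (hf : Prime f) {P r : Fin 2 → K} {Y : PowerSeries K}
    (hY : PowerSeries.constantCoeff Y = 0) (hP : P ≠ 0) (hχ : chi P r Y f = 0)
    {p : MvPolynomial (Fin 2) K} (hp : chi P r Y p = 0) : f ∣ p := by
  have hker : (RingHom.ker (chi P r Y : MvPolynomial (Fin 2) K →+* LaurentSeries K)).IsPrime :=
    RingHom.ker_isPrime _
  have hnm : ¬ (RingHom.ker (chi P r Y : MvPolynomial (Fin 2) K →+* LaurentSeries K)).IsMaximal := by
    intro hmax
    obtain ⟨x, hx⟩ := MvPolynomial.isMaximal_iff_eq_vanishingIdeal_singleton.1 hmax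
    obtain ⟨i, hi⟩ := Function.ne_iff.1 hP
    have h1 : (X i - C (x i) : MvPolynomial (Fin 2) K) ∈
        RingHom.ker (chi P r Y : MvPolynomial (Fin 2) K →+* LaurentSeries K) := by
      rw [hx, mem_vanishingIdeal_singleton_iff]
      simp
    have h2 : chi P r Y (X i - C (x i)) = 0 := h1
    have h3 : (X i - C (x i) : MvPolynomial (Fin 2) K).totalDegree ≤ 1 := by
      apply (totalDegree_sub _ _).trans
      rw [totalDegree_C]
      exact max_le (totalDegree_X i).le (by norm_num)
    have h4 : eval P (homogeneousComponent 1 (X i - C (x i) : MvPolynomial (Fin 2) K)) ≠ 0 := by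
      rw [map_sub, homogeneousComponent_of_mem (isHomogeneous_X K i), if_pos rfl,
        homogeneousComponent_of_mem (isHomogeneous_C (Fin 2) (x i)), if_neg one_ne_zero, sub_zero,
        eval_X]
      exact hi
    exact (order_chi hY h3 h4).1 h2
  have h5 := prime_eq hf hker hχ hnm
  have h6 : p ∈ RingHom.ker (chi P r Y : MvPolynomial (Fin 2) K →+* LaurentSeries K) := hp
  rw [h5, Ideal.mem_span_singleton] at h6
  exact h6

end ker

end Pool.Agent.T9h63.CU
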