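import Mathlib

set_option autoImplicit false
set_option maxHeartbeats 1000000

/-!
Restriction of polynomials to lines and to arcs.
-/

namespace Pool.Agent.T9h63.CU

open MvPolynomial

section lin

variable {K : Type*} [Field K] {s : Type*} [Fintype s]

/-- the restriction to the line `P + Y r` -/
noncomputable def ln (P r : s → K) : MvPolynomial s K →ₐ[K] Polynomial K :=
  aeval fun i => Polynomial.C (P i) + Polynomial.X * Polynomial.C (r i)

lemma ln_X (P r : s → K) (i : s) :
    ln P r (X i) = Polynomial.C (P i) + Polynomial.X * Polynomial.C (r i) := aeval_X _ _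

lemma ln_eval0 (P r : s → K) (p : MvPolynomial s K) : (ln P r p).eval 0 = eval P p := by
  have h : ((Polynomial.aeval (0 : K)).comp (ln P r)) = (aeval P : MvPolynomial s K →ₐ[K] K) := by
    ext i
    rw [AlgHom.comp_apply, ln_X, aeval_X]
    simp
  have h1 := congrArg (fun φ => φ p) h
  simpa [aeval_eq_eval] using h1

omit [Fintype s] in
lemma deg1 (P r : s → K) (i : s) :
    (Polynomial.C (P i) + Polynomial.X * Polynomial.C (r i)).natDegree ≤ 1 := by
  apply (Polynomial.natDegree_add_le _ _).trans
  rw [Polynomial.natDegree_C]
  apply max_le (by norm_num)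
  exact (Polynomial.natDegree_mul_C_le _ _).trans Polynomial.natDegree_X_le

lemma ln_homog (P r : s → K) {p : MvPolynomial s K} {k : ℕ} (hp : p.IsHomogeneous k) :
    (ln P r p).natDegree ≤ k ∧ (ln P r p).coeff k = eval r p := by
  classical
  have hmon : ∀ e : s →₀ ℕ, e.degree = k →
      (∏ i, (Polynomial.C (P i) + Polynomial.X * Polynomial.C (r i)) ^ e i).natDegree ≤ k ∧
      (∏ i, (Polynomial.C (P i) + Polynomial.X * Polynomial.C (r i)) ^ e i).coeff k
        = ∏ i, r i ^ e i := by
    intro e he
    have hd : ∀ i : s, ((Polynomial.C (P i) + Polynomial.X * Polynomial.C (r i)) ^ e i).natDegree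
        ≤ e i := by
      intro i
      have := Polynomial.natDegree_pow_le_of_le (e i) (deg1 P r i)
      rwa [mul_one] at this
    have hsum : k = ∑ i, e i := by
      rw [← he, Finsupp.degree_eq_sum]
    constructor
    · rw [hsum]
      exact (Polynomial.natDegree_prod_le _ _).trans (Finset.sum_le_sum fun i _ => hd i)
    · have h1 : ∀ (S : Finset s),
          (∏ i ∈ S, (Polynomial.C (P i) + Polynomial.X * Polynomial.C (r i)) ^ e i).coeff
            (∑ i ∈ S, e i) = ∏ i ∈ S, r i ^ e i := by
        intro S
        induction S using Finset.induction_on with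
        | empty => simp
        | insert i S hi ih =>
          rw [Finset.prod_insert hi, Finset.sum_insert hi, Finset.prod_insert hi,
            Polynomial.coeff_mul_add_eq_of_natDegree_le (hd i), ih]
          · congr 1
            have h2 := Polynomial.coeff_pow_of_natDegree_le (deg1 P r i) (m := e i)
            rw [mul_one] at h2
            rw [h2]
            simp
          · exact (Polynomial.natDegree_prod_le _ _).trans (Finset.sum_le_sum fun i _ => hd i)
      rw [hsum]
      exact h1 Finset.univ
  have hexp : ln P r p = ∑ e ∈ p.support, Polynomial.C (coeff e p) *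
      ∏ i, (Polynomial.C (P i) + Polynomial.X * Polynomial.C (r i)) ^ e i := by
    unfold ln
    rw [aeval_def, eval₂_eq']
    rfl
  constructor
  · rw [hexp]
    apply Polynomial.natDegree_sum_le_of_forall_le
    intro e he
    exact (Polynomial.natDegree_C_mul_le _ _).trans
      (hmon e (by
        have := hp (mem_support_iff.1 he)
        rwa [Finsupp.degree_eq_weight_one (R := ℕ)])).1
  · rw [hexp, Polynomial.finset_sum_coeff, eval_eq']
    apply Finset.sum_congr rfl
    intro e he
    rw [Polynomial.coeff_C_mul, (hmon e (by
        have := hp (mem_support_iff.1 he)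
        rwa [Finsupp.degree_eq_weight_one (R := ℕ)])).2]

lemma ln_deriv0 (P r : s → K) (p : MvPolynomial s K) :
    (Polynomial.derivative (ln P r p)).eval 0 = ∑ i, r i * eval P (pderiv i p) := by
  classical
  induction p using MvPolynomial.induction_on with
  | C c =>
    rw [show ln P r (C c) = Polynomial.C c from (ln P r).commutes c]
    simp
  | add p q hp hq =>
    rw [map_add, Polynomial.derivative_add, Polynomial.eval_add, hp, hq, ← Finset.sum_add_distrib]
    apply Finset.sum_congr rfl
    intro i _
    rw [map_add, map_add, mul_add]
  | mul_X p j hp =>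
    rw [map_mul, Polynomial.derivative_mul, Polynomial.eval_add, Polynomial.eval_mul,
      Polynomial.eval_mul, hp, ln_X, ln_eval0]
    have h1 : ∀ i, eval P (pderiv i (p * X j)) = eval P (pderiv i p) * P j
        + eval P p * (if i = j then 1 else 0) := by
      intro i
      rw [pderiv_mul, map_add, map_mul, map_mul, eval_X, pderiv_X, Pi.single_apply]
      split_ifs with h h' h'
      · simp
      · exact absurd h.symm h'
      · exact absurd h'.symm h
      · simp
    simp only [h1, mul_add, Finset.sum_add_distrib]
    congr 1
    · rw [Finset.sum_mul]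
      simp [mul_assoc]
    · have h2 : ∀ i, r i * (eval P p * (if i = j then 1 else 0))
          = if i = j then eval P p * r j else 0 := by
        intro i
        split_ifs with h
        · rw [h]; ring
        · ring
      simp only [h2, Finset.sum_ite_eq', Finset.mem_univ, if_true]
      simp

end lin

end Pool.Agent.T9h63.CU
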