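import Pool.Agent.T9h63.KT.Fin2
import Pool.Agent.T9h63.KT.Un

set_option autoImplicit false
set_option maxHeartbeats 1000000

/-!
The zeta function modulo `ℓ` of the affine surface `w ^ m = f(x, y)`.
-/

namespace Pool.Agent.T9h63.CU

open Function Polynomial Pool.Agent.W555.TC Pool.Agent.T9h63.KT

section surf

variable {k : Type*} [Field k] [Fintype k] {K : Type*} [Field K] [Algebra k K]
  (f : MvPolynomial (Fin 2) k) {l : ℕ} [hl : Fact l.Prime]

/-- the value of `f` -/
noncomputable def vl (v : Fin 2 → K) : K := MvPolynomial.aeval v f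

lemma vl_Phi (v : Fin 2 → K) : vl f (Phi k K v) = fr k K (vl f v) := fr_aeval k K f v

/-- Frobenius -/
noncomputable def PS (k : Type*) [Field k] [Fintype k] (K : Type*) [Field K] [Algebra k K] :
    (Fin 2 → K) × K → (Fin 2 → K) × K := Prod.map (Phi k K) (fr k K)

/-- the surface -/
def sf (m : ℕ) (p : (Fin 2 → K) × K) : Prop := p.2 ^ m = vl f p.1

/-- the part where `f ≠ 0` -/
def sf1 (m : ℕ) (p : (Fin 2 → K) × K) : Prop := sf f m p ∧ vl f p.1 ≠ 0

/-- the part where `f = 0` -/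
def sf0 (m : ℕ) (p : (Fin 2 → K) × K) : Prop := sf f m p ∧ vl f p.1 = 0

lemma fr_zero {x : K} : fr k K x = 0 ↔ x = 0 := map_eq_zero _

lemma sf_PS (m : ℕ) (p : (Fin 2 → K) × K) (h : sf f m p) : sf f m (PS k K p) := by
  unfold sf at h ⊢
  show (fr k K p.2) ^ m = vl f (Phi k K p.1)
  rw [vl_Phi, ← map_pow, h]

lemma ne_Phi (v : Fin 2 → K) (h : vl f v ≠ 0) : vl f (Phi k K v) ≠ 0 := by
  rw [vl_Phi, Ne, fr_zero]; exact h

lemma eq_Phi (v : Fin 2 → K) (h : vl f v = 0) : vl f (Phi k K v) = 0 := by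
  rw [vl_Phi, fr_zero]; exact h

lemma fr_per (n : ℕ) (x : K) : IsPeriodicPt (fr k K) n x ↔ x ^ Fintype.card k ^ n = x := by
  unfold IsPeriodicPt IsFixedPt
  rw [fr_iter]

lemma PS_per (n : ℕ) (p : (Fin 2 → K) × K) : IsPeriodicPt (PS k K) n p ↔
    (∀ i, p.1 i ^ Fintype.card k ^ n = p.1 i) ∧ p.2 ^ Fintype.card k ^ n = p.2 := by
  unfold PS
  rw [isPeriodicPt_prodMap, per_iff, fr_per]

lemma fin_PS {n : ℕ} (hn : 0 < n) : {z | IsPeriodicPt (PS k K) n z}.Finite := by
  have h1 : {z : (Fin 2 → K) × K | IsPeriodicPt (PS k K) n z}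
      ⊆ {z : Fin 2 → K | IsPeriodicPt (Phi k K) n z} ×ˢ Fix k K n := by
    intro z hz
    have hz' : IsPeriodicPt (PS k K) n z := hz
    rw [PS_per] at hz'
    exact ⟨(per_iff k K n z.1).2 hz'.1, hz'.2⟩
  exact ((fix_finite k K hn).prod (Fix_finite k K hn)).subset h1

lemma fin_Ph2 {n : ℕ} (hn : 0 < n) : {z : Fin 2 → K | IsPeriodicPt (Phi k K) n z}.Finite :=
  fix_finite k K hn

/-- the periods above the orbits of the plane -/
lemma per_sf (hq : l ∣ Fintype.card k - 1) (a : ℕ) (p : (Fin 2 → K) × K) (d : ℕ) (_hd : 0 < d)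
    (h : sf f (l ^ a) p) (hp : IsPeriodicPt (Phi k K) d p.1) :
    IsPeriodicPt (PS k K) (d * l ^ a) p := by
  have hcard : 1 ≤ Fintype.card k := Fintype.card_pos
  unfold PS
  rw [isPeriodicPt_prodMap]
  refine ⟨hp.mul_const _, ?_⟩
  rw [fr_per]
  by_cases hi : p.2 = 0
  · rw [hi, zero_pow (pow_ne_zero _ Fintype.card_ne_zero)]
  set Q := Fintype.card k ^ d with hQ
  have hQ1 : 1 ≤ Q := Nat.one_le_pow _ _ hcard
  have hQl : l ∣ Q - 1 := by
    refine hq.trans ?_
    have := Nat.sub_dvd_pow_sub_pow (Fintype.card k) 1 d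
    rwa [one_pow] at this
  have hval : vl f p.1 ^ Q = vl f p.1 := by
    have h1 := fr_iter_aeval k K f d p.1
    rw [hp, fr_iter] at h1
    exact h1.symm
  have hc : (p.2 ^ (l ^ a)) ^ Q = p.2 ^ (l ^ a) := by
    unfold sf at h
    rw [h, hval]
  have hone : (p.2 ^ (Q - 1)) ^ (l ^ a) = 1 := by
    have h5 : p.2 ^ (l ^ a) ≠ 0 := pow_ne_zero _ hi
    apply mul_right_cancel₀ h5
    rw [one_mul, ← pow_mul, mul_comm (Q - 1), pow_mul, ← pow_succ, Nat.sub_add_cancel hQ1, hc]
  obtain ⟨c, hcdvd⟩ := pow_dvd hQ1 hQl a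
  have hQa : 1 ≤ Q ^ l ^ a := Nat.one_le_pow _ _ hQ1
  have e2 : Fintype.card k ^ (d * l ^ a) = (Q ^ l ^ a - 1) + 1 := by
    rw [Nat.sub_add_cancel hQa, hQ, ← pow_mul]
  rw [e2, pow_succ, hcdvd, pow_mul, pow_mul, hone, one_pow, one_mul]

variable [IsAlgClosed K]

lemma l_ne (hq : l ∣ Fintype.card k - 1) : (l : K) ≠ 0 := by
  intro h
  have h1 : (l : k) = 0 := (algebraMap k K).injective (by rw [map_natCast, h, map_zero])
  have h2 : 1 ≤ Fintype.card k := Fintype.card_pos
  obtain ⟨c, hc⟩ := hq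
  have h3 : ((Fintype.card k - 1 : ℕ) : k) = 0 := by rw [hc]; push_cast; rw [h1, zero_mul]
  rw [Nat.cast_sub h2, FiniteField.cast_card_eq_zero] at h3
  simp at h3

lemma zi_S1 (hq : l ∣ Fintype.card k - 1) (a : ℕ) :
    red l (zi (PS k K) (sf1 f (l ^ a)))
      = red l (zi (Phi k K) (fun v : Fin 2 → K => vl f v ≠ 0)) ^ (l ^ a) := by
  have hm : ((l ^ a : ℕ) : K) ≠ 0 := by
    push_cast
    exact pow_ne_zero _ (l_ne (k := k) hq)
  apply red_cover (Phi k K) (PS k K) Prod.fst (fun _ => rfl) (fun n hn => fin_Ph2 hn)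
    (fun n hn => fin_PS hn) _ (fun v h => ne_Phi f v h) _
    (fun p h => ⟨sf_PS f _ p h.1, ne_Phi f _ h.2⟩) (fun p h => h.2) l a
    (fun p d hd h hp => per_sf f hq a p d hd h.1 hp)
  intro v _ hv
  have heq : {p : (Fin 2 → K) × K | p.1 = v ∧ sf1 f (l ^ a) p}
      = (fun z => (v, z)) '' {z : K | z ^ l ^ a = vl f v} := by
    ext p
    constructor
    · rintro ⟨h1, h2, _⟩
      refine ⟨p.2, ?_, by rw [← h1]⟩
      show p.2 ^ l ^ a = vl f v
      rw [← h1]
      exact h2
    · rintro ⟨z, hz, rfl⟩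
      exact ⟨rfl, hz, hv⟩
  rw [heq, Set.ncard_image_of_injective _ (fun x y hxy => (Prod.mk.inj hxy).2)]
  exact card_roots_eq hm hv

lemma zi_S0 (hq : l ∣ Fintype.card k - 1) (a : ℕ) :
    red l (zi (PS k K) (sf0 f (l ^ a)))
      = red l (zi (Phi k K) (fun v : Fin 2 → K => vl f v = 0)) := by
  have h0 := red_cover (Phi k K) (PS k K) Prod.fst (fun _ => rfl) (fun n hn => fin_Ph2 hn)
    (fun n hn => fin_PS hn) (fun v : Fin 2 → K => vl f v = 0) (fun v h => eq_Phi f v h)
    (sf0 f (l ^ a))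
    (fun p h => ⟨sf_PS f _ p h.1, eq_Phi f _ h.2⟩) (fun p h => h.2) l a
    (fun p d hd h hp => per_sf f hq a p d hd h.1 hp) 1 (by
      intro v _ hv
      have heq : {p : (Fin 2 → K) × K | p.1 = v ∧ sf0 f (l ^ a) p} = {(v, 0)} := by
        ext p
        constructor
        · rintro ⟨h1, h2, h3⟩
          have h4 : p.2 = 0 := by
            unfold sf at h2
            rw [h3] at h2
            exact eq_zero_of_pow_eq_zero h2
          exact Prod.ext h1 h4
        · rintro rfl
          refine ⟨rfl, ?_, hv⟩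
          show (0 : K) ^ l ^ a = vl f v
          rw [hv, zero_pow (pow_ne_zero _ hl.out.ne_zero)]
      rw [heq, Set.ncard_singleton])
  rw [h0, pow_one]

omit hl in
lemma zi_plane : zi (Phi k K) (fun _ : Fin 2 → K => True) = fac ((Fintype.card k : ℤ) ^ 2) 1 := by
  symm
  apply zi_unique (fun n hn => fin_Ph2 hn) (fun _ _ => trivial) (LD_fac _ one_pos) (cs_zero _ _)
    (coeff_zero_fac _ one_pos)
  intro n hn
  unfold cs cnt
  rw [PowerSeries.coeff_mk, if_pos ⟨hn.ne', one_dvd n⟩, Nat.div_one]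
  have h1 : {z : Fin 2 → K | IsPeriodicPt (Phi k K) n z ∧ True}
      = Set.pi Set.univ (fun _ : Fin 2 => Fix k K n) := by
    ext v
    simp only [Set.mem_setOf_eq, and_true, per_iff, Set.mem_univ_pi]
    rfl
  have h2 : (Set.pi Set.univ (fun _ : Fin 2 => Fix k K n)).ncard = (Fintype.card k ^ n) ^ 2 := by
    rw [← Nat.card_coe_set_eq, Nat.card_congr (Equiv.Set.univPi _), Nat.card_pi,
      Fin.prod_univ_two, Nat.card_coe_set_eq, Fix_ncard k K hn, sq]
  rw [h1, h2]
  push_cast
  ring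

variable {q : ℕ}

/-- **The congruence for the surface.** -/
theorem surf_cong (hq : l ∣ Fintype.card k - 1) (a : ℕ) {cB cS : ℕ → ℕ}
    (hcB : ∀ n, 0 < n → cB n = cnt (Phi k K) (fun v : Fin 2 → K => vl f v = 0) n)
    (hcS : ∀ n, 0 < n → cS n = cnt (PS k K) (sf f (l ^ a)) n) {L P : ℤ[X]}
    (hL : LogCoeffs L (fun n => (cB n : ℤ) - (Fintype.card k : ℤ) ^ n))
    (hP : LogCoeffs P (fun n => ((Fintype.card k : ℤ) ^ 2) ^ n - (cS n : ℤ))) :
    P.map (Int.castRingHom (ZMod l)) = L.map (Int.castRingHom (ZMod l)) ^ (l ^ a - 1) := by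
  have hqm : ((Fintype.card k : ℕ) : ZMod l) = 1 := q_mod hq
  set B : PowerSeries ℤ := zi (Phi k K) (fun v : Fin 2 → K => vl f v = 0) with hB
  set U1 : PowerSeries ℤ := zi (Phi k K) (fun v : Fin 2 → K => vl f v ≠ 0) with hU1
  set S : PowerSeries ℤ := zi (PS k K) (sf f (l ^ a)) with hS
  have hBs : ∀ v : Fin 2 → K, vl f v = 0 → vl f (Phi k K v) = 0 := eq_Phi f
  -- the curve
  have e1 : (L : PowerSeries ℤ) * B = fac (Fintype.card k : ℤ) 1 := by
    apply LD_ext (LD_mul hL.toLD (LD_zi (fun n hn => fin_Ph2 hn) hBs)) (LD_fac _ one_pos)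
    · rw [map_add, coeff_zero_ser, coeff_zero_lz, add_zero]
    · exact cs_zero _ _
    · apply coeff_zero_mul'
      · rw [Polynomial.coeff_coe, hL.1]
      · exact coeff_zero_zi _
    · exact coeff_zero_fac _ one_pos
    · intro n hn
      rw [map_add, coeff_ser hn, coeff_lz _ hn, ← hcB n hn]
      unfold cs
      rw [PowerSeries.coeff_mk, if_pos ⟨hn.ne', one_dvd n⟩, Nat.div_one]
      push_cast
      ring
  -- the surface
  have e2 : (P : PowerSeries ℤ) * fac ((Fintype.card k : ℤ) ^ 2) 1 = S := by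
    apply zi_unique (fun n hn => fin_PS hn) (fun p hp => sf_PS f _ p hp)
      (LD_mul hP.toLD (LD_fac _ one_pos))
    · rw [map_add, coeff_zero_ser, cs_zero, add_zero]
    · apply coeff_zero_mul'
      · rw [Polynomial.coeff_coe, hP.1]
      · exact coeff_zero_fac _ one_pos
    · intro n hn
      rw [map_add, coeff_ser hn, ← hcS n hn]
      unfold cs
      rw [PowerSeries.coeff_mk, if_pos ⟨hn.ne', one_dvd n⟩, Nat.div_one]
      push_cast
      ring
  -- the plane
  have e3 : U1 * B = fac ((Fintype.card k : ℤ) ^ 2) 1 := by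
    rw [← zi_plane (k := k) (K := K)]
    have h1 := zi_union (Φ := Phi k K) (fun n hn => fin_Ph2 hn) (Finset.univ : Finset (Fin 2))
      (fun i v => if i = 0 then vl f v ≠ 0 else vl f v = 0) (t := fun _ : Fin 2 → K => True)
      (by
        intro i _ z hz
        fin_cases i
        · exact ne_Phi f z hz
        · exact eq_Phi f z hz)
      (by
        intro i _ j _ hij z hz hz2
        fin_cases i <;> fin_cases j
        · exact hij rfl
        · exact hz hz2
        · exact hz2 hz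
        · exact hij rfl)
      (by
        intro z
        constructor
        · intro _
          by_cases h : vl f z = 0
          · exact ⟨1, Finset.mem_univ _, h⟩
          · exact ⟨0, Finset.mem_univ _, h⟩
        · intro _; trivial)
    rw [h1, Fin.prod_univ_two]
    rfl
  -- the strata of the surface
  have e4 : S = zi (PS k K) (sf1 f (l ^ a)) * zi (PS k K) (sf0 f (l ^ a)) := by
    have h1 := zi_union (Φ := PS k K) (fun n hn => fin_PS hn) (Finset.univ : Finset (Fin 2))
      (fun i v => if i = 0 then sf1 f (l ^ a) v else sf0 f (l ^ a) v) (t := sf f (l ^ a))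
      (by
        intro i _ z hz
        fin_cases i
        · exact ⟨sf_PS f _ z hz.1, ne_Phi f _ hz.2⟩
        · exact ⟨sf_PS f _ z hz.1, eq_Phi f _ hz.2⟩)
      (by
        intro i _ j _ hij z hz hz2
        fin_cases i <;> fin_cases j
        · exact hij rfl
        · exact hz.2 hz2.2
        · exact hz2.2 hz.2
        · exact hij rfl)
      (by
        intro z
        constructor
        · intro h0
          by_cases h : vl f z.1 = 0
          · exact ⟨1, Finset.mem_univ _, h0, h⟩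
          · exact ⟨0, Finset.mem_univ _, h0, h⟩
        · rintro ⟨i, _, hi⟩
          fin_cases i
          · exact hi.1
          · exact hi.1)
    rw [hS, h1, Fin.prod_univ_two]
    rfl
  have h4 : red l S = red l U1 ^ (l ^ a) * red l B := by
    rw [e4, map_mul, zi_S1 f hq, zi_S0 f hq]
  have hF1 : red l (fac (Fintype.card k : ℤ) 1) = ((1 - X : (ZMod l)[X]) : PowerSeries (ZMod l)) := by
    have := red_fac_q (l := l) (q := Fintype.card k) hqm 1
    rwa [pow_one] at this
  have hF2 : red l (fac ((Fintype.card k : ℤ) ^ 2) 1) = ((1 - X : (ZMod l)[X]) : PowerSeries (ZMod l)) :=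
    red_fac_q (l := l) (q := Fintype.card k) hqm 2
  set t : PowerSeries (ZMod l) := ((1 - X : (ZMod l)[X]) : PowerSeries (ZMod l)) with ht
  have ht0 : t ≠ 0 := by
    rw [ht]
    intro h
    exact one_sub_X_ne (Polynomial.coe_eq_zero_iff.1 h)
  have r1 : red l (L : PowerSeries ℤ) * red l B = t := by rw [← map_mul, e1, hF1]
  have r2 : red l (P : PowerSeries ℤ) * t = red l S := by rw [← e2, map_mul, hF2]
  have r3 : red l U1 * red l B = t := by rw [← map_mul, e3, hF2]
  have hm1 : l ^ a - 1 + 1 = l ^ a := Nat.sub_add_cancel (Nat.one_le_pow _ _ hl.out.pos)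
  -- `red L = red U1`
  have hB0 : red l B ≠ 0 := by
    intro h
    rw [h, mul_zero] at r1
    exact ht0 r1.symm
  have r5 : red l U1 = red l (L : PowerSeries ℤ) := mul_right_cancel₀ hB0 (by rw [r3, r1])
  have r6 : red l (P : PowerSeries ℤ) * t = red l (L : PowerSeries ℤ) ^ (l ^ a - 1) * t := by
    rw [r2, h4, r5, ← hm1, pow_succ, Nat.add_sub_cancel, mul_assoc, r1]
  have r7 := mul_right_cancel₀ ht0 r6
  rw [red_coe, red_coe, ← Polynomial.coe_pow] at r7
  exact Polynomial.coe_injective _ r7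

end surf

end Pool.Agent.T9h63.CU
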